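import Pool.Agent.Lib.MP_a127ec_co.AbFix

/-!
# Cubic Lehman graphs with a commutative group of automorphisms with at most two orbits of rows
-/

open Matrix Finset

namespace Pool.Agent.MP_a127ec_co.Ab

open Pool.Agent.MP_a127ec_co

variable {n s : ℕ} {A B : Matrix (Fin n) (Fin n) ℤ}

/-- An automorphism fixing all rows fixes all columns. -/
theorem col_one (h : IsLehmanPair n 3 s A B) (hk : (3 : ℤ) * s - n = 1) {σ τ : Equiv.Perm (Fin n)}
    (hA : ∀ i x, A (σ i) (τ x) = A i x) (hσ : σ = 1) : τ = 1 := by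
  have hk' : ((3 : ℕ) : ℤ) * s - n = 1 := by exact_mod_cast hk
  ext x
  have h1 := col_rel h hk' (τ x) x
  have h2 : ∑ i, A i (τ x) * B i x = ∑ i, A i x * B i x :=
    Finset.sum_congr rfl fun i _ => by
      have := hA i x
      rw [hσ, Equiv.Perm.one_apply] at this
      rw [this]
  rw [h2, col_rel h hk', if_pos rfl] at h1
  by_cases hx : τ x = x
  · rw [hx]; rfl
  · rw [if_neg hx] at h1
    norm_num at h1

/-- The faithful case. -/
theorem main_faithful {G : Type*} [CommGroup G] [Finite G] (h : IsLehmanPair n 3 s A B)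
    (hk : (3 : ℤ) * s - n = 1) (h4 : NoFour A) (ρ τ : G →* Equiv.Perm (Fin n))
    (hA : ∀ g i x, A (ρ g i) (τ g x) = A i x) (hinj : ∀ g, ρ g = 1 → g = 1) {i₁ i₂ : Fin n}
    (ho : ∀ i, ∃ g, ρ g i₁ = i ∨ ρ g i₂ = i) : False := by
  have ho' : ∀ i, ∃ g, ρ g i₂ = i ∨ ρ g i₁ = i := fun i => by
    obtain ⟨g, hg⟩ := ho i
    exact ⟨g, hg.symm⟩
  have hf : ∀ g, g ≠ 1 → ∀ i, ρ g i ≠ i := by
    intro κ hκ i hi
    obtain ⟨g, hg | hg⟩ := ho i
    · have := comm_fix ρ g⁻¹ hi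
      rw [inv_fix ρ hg] at this
      exact not_fix h hk h4 ρ τ hA hinj ho hκ this
    · have := comm_fix ρ g⁻¹ hi
      rw [inv_fix ρ hg] at this
      exact not_fix h hk h4 ρ τ hA hinj ho' hκ this
  have _ : Fintype G := Fintype.ofFinite G
  have _ : Fintype (Additive G) := Fintype.ofFinite _
  refine main_add (T := Additive G) h hk h4 (fun t => ρ (Additive.toMul t)) (fun t => τ (Additive.toMul t))
    ?_ ?_ ?_ ?_ (fun g i x => hA _ i x) ?_ i₁ i₂ ?_
  · exact map_one ρ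
  · exact map_one τ
  · exact fun s t => map_mul ρ _ _
  · exact fun s t => map_mul τ _ _
  · exact fun g hg i => hf (Additive.toMul g) (fun k => hg (by simpa using k)) i
  · intro i
    obtain ⟨g, hg⟩ := ho i
    exact ⟨Additive.ofMul g, by simpa using hg⟩

/-- The general case. -/
theorem main_two (h : IsLehmanPair n 3 s A B)
    (hk : (3 : ℤ) * s - n = 1) {G : Type*} [CommGroup G] (ρ τ : G →* Equiv.Perm (Fin n))
    (hA : ∀ g i x, A (ρ g i) (τ g x) = A i x) (ho : ∃ i₁ i₂, ∀ i, ∃ g, ρ g i₁ = i ∨ ρ g i₂ = i) :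
    ¬ 6 ≤ (biadjGraph A).egirth := by
  intro hg
  have h4 := noFour_of_girth hg
  obtain ⟨i₁, i₂, ho⟩ := ho
  let f : G →* Equiv.Perm (Fin n) × Equiv.Perm (Fin n) := ρ.prod τ
  let F : G ⧸ f.ker →* Equiv.Perm (Fin n) × Equiv.Perm (Fin n) := QuotientGroup.kerLift f
  have hF : Function.Injective F := QuotientGroup.kerLift_injective f
  have _ : Finite (G ⧸ f.ker) := Finite.of_injective F hF
  have hm : ∀ g : G, F (QuotientGroup.mk g) = (ρ g, τ g) := fun g => rfl
  refine main_faithful (G := G ⧸ f.ker) h hk h4 ((MonoidHom.fst _ _).comp F) ((MonoidHom.snd _ _).comp F)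
    ?_ ?_ (i₁ := i₁) (i₂ := i₂) ?_
  · intro q i x
    obtain ⟨g, rfl⟩ := QuotientGroup.mk_surjective q
    exact hA g i x
  · intro q hq
    obtain ⟨g, rfl⟩ := QuotientGroup.mk_surjective q
    have h1 : ρ g = 1 := hq
    have h2 : τ g = 1 := col_one h hk (hA g) h1
    rw [QuotientGroup.eq_one_iff, MonoidHom.mem_ker]
    exact Prod.ext h1 h2
  · intro i
    obtain ⟨g, hg⟩ := ho i
    exact ⟨QuotientGroup.mk g, hg⟩

end Pool.Agent.MP_a127ec_co.Ab
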