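import Pool.Agent.Lib.MP_a127ec_co.AbCore

/-!
# Block matrices with one or two orbits
-/

open Matrix Finset

namespace Pool.Agent.MP_a127ec_co.Ab

section fn

variable {T : Type*} [Fintype T] [DecidableEq T]

theorem sum_eq_filter {f : T → ℤ} (h01 : ∀ t, f t = 0 ∨ f t = 1) (φ : T → ℤ) :
    ∑ w, f w * φ w = ∑ w ∈ univ.filter (fun t => f t = 1), φ w := by
  rw [Finset.sum_filter]
  refine Finset.sum_congr rfl fun w _ => ?_
  rcases h01 w with h | h
  · rw [h, if_neg (by norm_num), zero_mul]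
  · rw [h, if_pos rfl, one_mul]

theorem card_of_sum {f : T → ℤ} (h01 : ∀ t, f t = 0 ∨ f t = 1) :
    ((univ.filter (fun t => f t = 1)).card : ℤ) = ∑ w, f w := by
  have := sum_eq_filter h01 (fun _ => 1)
  simp only [mul_one, Finset.sum_const, nsmul_eq_mul] at this
  exact this.symm

theorem exists_one {f : T → ℤ} (h01 : ∀ t, f t = 0 ∨ f t = 1) (hs : ∑ t, f t = 1) :
    ∃ x, f x = 1 ∧ ∀ φ : T → ℤ, ∑ w, f w * φ w = φ x := by
  have h1 := card_of_sum h01
  rw [hs] at h1
  obtain ⟨x, hx⟩ := Finset.card_eq_one.mp (by exact_mod_cast h1 : (univ.filter (fun t => f t = 1)).card = 1)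
  have hm : x ∈ univ.filter (fun t => f t = 1) := by rw [hx]; simp
  refine ⟨x, by simpa using hm, fun φ => ?_⟩
  rw [sum_eq_filter h01, hx, Finset.sum_singleton]

theorem exists_two {f : T → ℤ} (h01 : ∀ t, f t = 0 ∨ f t = 1) (hs : ∑ t, f t = 2) :
    ∃ x y, x ≠ y ∧ f x = 1 ∧ f y = 1 ∧ ∀ φ : T → ℤ, ∑ w, f w * φ w = φ x + φ y := by
  have h1 := card_of_sum h01
  rw [hs] at h1
  obtain ⟨x, y, hxy, hx⟩ := Finset.card_eq_two.mp
    (by exact_mod_cast h1 : (univ.filter (fun t => f t = 1)).card = 2)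
  have hm : x ∈ univ.filter (fun t => f t = 1) := by rw [hx]; simp
  have hm' : y ∈ univ.filter (fun t => f t = 1) := by rw [hx]; simp
  refine ⟨x, y, hxy, by simpa using hm, by simpa using hm', fun φ => ?_⟩
  rw [sum_eq_filter h01, hx, Finset.sum_pair hxy]

end fn

variable {T : Type*} [AddCommGroup T] [Fintype T] [DecidableEq T]

/-- One orbit. -/
theorem one_case {a β : T → ℤ} (ha : ∀ t, a t = 0 ∨ a t = 1)
    (hrel : ∀ t, ∑ w, a w * β (t - w) = 1 + if t = 0 then 1 else 0) (hs : ∑ t, a t = 3)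
    (nf : ∀ g g' h h' : T, g ≠ g' → h ≠ h' → a (g - h) = 1 → a (g - h') = 1 → a (g' - h) = 1 →
      a (g' - h') = 1 → False) : False := by
  have hmat : circulant a * circulant β = JJ T + (1 : ℤ) • (1 : Matrix T T ℤ) := by
    ext g g'
    have h1 := hrel (g - g')
    rw [Matrix.mul_apply]
    simp only [circulant_apply, Matrix.add_apply, JJ_apply, one_smul]
    have h2 : ∑ h, a (g - h) * β (h - g') = ∑ w, a w * β (g - g' - w) := by
      rw [← (Equiv.subLeft g).sum_comp]
      refine Finset.sum_congr rfl fun w _ => ?_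
      simp only [Equiv.subLeft_apply]
      congr 2
      · abel
      · abel
    rw [h2, h1, Matrix.one_apply]
    by_cases hst : g = g'
    · simp [hst]
    · rw [if_neg (fun h => hst (sub_eq_zero.mp h)), if_neg hst]
  obtain ⟨c, hc⟩ := sym_of_inv (by norm_num) a β hmat
  have h1 := card_of_sum ha
  rw [hs] at h1
  obtain ⟨x, y, z, hxy, hxz, hyz, hx⟩ := Finset.card_eq_three.mp
    (by exact_mod_cast h1 : (univ.filter (fun t => a t = 1)).card = 3)
  have mem : ∀ t, a t = 1 ↔ t = x ∨ t = y ∨ t = z := by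
    intro t
    have : t ∈ univ.filter (fun t => a t = 1) ↔ t ∈ ({x, y, z} : Finset T) := by rw [hx]
    simpa using this
  have inv : ∀ t, a t = 1 → a (c - t) = 1 := fun t ht => by rw [← hc t]; exact ht
  have ax : a x = 1 := (mem x).mpr (Or.inl rfl)
  have ay : a y = 1 := (mem y).mpr (Or.inr (Or.inl rfl))
  have az : a z = 1 := (mem z).mpr (Or.inr (Or.inr rfl))
  -- two elements, one of them fixed by the reflection, give a 4-cycle
  have fin : ∀ w w', w ≠ w' → a w = 1 → a w' = 1 → c - w = w → False := by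
    intro w w' hne hw hw' hf
    refine nf 0 (w - w') (-w') (-w) (fun h => hne (sub_eq_zero.mp h.symm))
      (fun h => hne (neg_injective h).symm) ?_ ?_ ?_ ?_
    · rw [zero_sub, neg_neg]; exact hw'
    · rw [zero_sub, neg_neg]; exact hw
    · rw [sub_neg_eq_add, sub_add_cancel]; exact hw
    · have : w - w' - -w = c - w' := by
        nth_rw 1 [← hf]
        abel
      rw [this]
      exact inv w' hw'
  rcases (mem _).mp (inv x ax) with h | h | h
  · exact fin x y hxy ax ay h
  · rcases (mem _).mp (inv z az) with k | k | k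
    · exact hyz (by
        have : c - x = z := by rw [← k]; abel
        rw [← h, this])
    · exact hxz (by
        have e1 : x = c - y := by rw [← h]; abel
        have e2 : z = c - y := by rw [← k]; abel
        rw [e1, e2])
    · exact fin z x (Ne.symm hxz) az ax k
  · rcases (mem _).mp (inv y ay) with k | k | k
    · exact hyz (by
        have : c - x = y := by rw [← k]; abel
        rw [← h, this])
    · exact fin y x (Ne.symm hxy) ay ax k
    · exact hxy (by
        have e1 : x = c - z := by rw [← h]; abel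
        have e2 : y = c - z := by rw [← k]; abel
        rw [e1, e2])

/-- Two orbits, first block with two elements. -/
theorem two_case_two (h3 : ¬ 3 ∣ Fintype.card T) {a β : Fin 2 → Fin 2 → T → ℤ}
    (ha : ∀ i j t, a i j t = 0 ∨ a i j t = 1) (hβ : ∀ i j t, β i j t = 0 ∨ β i j t = 1)
    (hrel : ∀ i i' t, ∑ w, a i 0 w * β i' 0 (t - w) + ∑ w, a i 1 w * β i' 1 (t - w) =
      1 + if i = i' ∧ t = 0 then 1 else 0)
    (s00 : ∑ t, a 0 0 t = 2) (s01 : ∑ t, a 0 1 t = 1) (s10 : ∑ t, a 1 0 t = 1) (s11 : ∑ t, a 1 1 t = 2)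
    (nf : ∀ i i' j j' (g g' h h' : T), (i ≠ i' ∨ g ≠ g') → (j ≠ j' ∨ h ≠ h') → a i j (g - h) = 1 →
      a i j' (g - h') = 1 → a i' j (g' - h) = 1 → a i' j' (g' - h') = 1 → False) : False := by
  obtain ⟨p, q, hpq, ap, aq, e00⟩ := exists_two (ha 0 0) s00
  obtain ⟨x, ax, e01⟩ := exists_one (ha 0 1) s01
  obtain ⟨y, ay, e10⟩ := exists_one (ha 1 0) s10
  obtain ⟨e, f, hef, ae, af, e11⟩ := exists_two (ha 1 1) s11
  have n : ∀ g h, a 0 0 g = 1 → a 1 1 h = 1 → g + h ≠ x + y := by
    intro g h hg hh hne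
    have e1 : y - g = h - x := by
      have : y - g = h - x + ((x + y) - (g + h)) := by abel
      rw [this, hne, sub_self, add_zero]
    refine nf 0 1 0 1 0 (y - g) (-g) (-x) (Or.inl (by decide)) (Or.inl (by decide)) ?_ ?_ ?_ ?_
    · rw [zero_sub, neg_neg]; exact hg
    · rw [zero_sub, neg_neg]; exact ax
    · rw [sub_neg_eq_add, sub_add_cancel]; exact ay
    · rw [e1, sub_neg_eq_add, sub_add_cancel]; exact hh
  have m : ∀ i (g h : T), g ≠ h → a i i g = 1 → a i i h = 1 → (h - g) + (h - g) ≠ 0 := by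
    intro i g h hgh hg hh hne
    refine nf i i i i 0 (h - g) (-g) (-h) (Or.inr (fun k => hgh (sub_eq_zero.mp k.symm).symm))
      (Or.inr (fun k => hgh (neg_injective k))) ?_ ?_ ?_ ?_
    · rw [zero_sub, neg_neg]; exact hg
    · rw [zero_sub, neg_neg]; exact hh
    · rw [sub_neg_eq_add, sub_add_cancel]; exact hh
    · have : h - g - -h = g + ((h - g) + (h - g)) := by abel
      rw [this, hne, add_zero]; exact hg
  refine core_two h3 (a := p) (b := q) (e := e) (f := f) (x := x) (y := y) (hβ 0 0) (hβ 0 1) (hβ 1 0) (hβ 1 1)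
    (fun t => ?_) (fun t => ?_) (fun t => ?_) (fun t => ?_)
    (n p e ap ae) (n p f ap af) (n q e aq ae) (n q f aq af) (m 0 p q hpq ap aq) (m 1 e f hef ae af)
  · have := hrel 0 1 t
    rw [e00 (fun w => β 1 0 (t - w)), e01 (fun w => β 1 1 (t - w)), if_neg (by simp)] at this
    simpa using this
  · have := hrel 1 1 t
    rw [e10 (fun w => β 1 0 (t - w)), e11 (fun w => β 1 1 (t - w))] at this
    simp only [true_and] at this
    linarith
  · have := hrel 0 0 t
    rw [e00 (fun w => β 0 0 (t - w)), e01 (fun w => β 0 1 (t - w))] at this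
    simp only [true_and] at this
    linarith
  · have := hrel 1 0 t
    rw [e10 (fun w => β 0 0 (t - w)), e11 (fun w => β 0 1 (t - w)), if_neg (by simp)] at this
    linarith

/-- Two orbits: no matrix without 4-cycles. -/
theorem two_case (h3 : ¬ 3 ∣ Fintype.card T) {a β : Fin 2 → Fin 2 → T → ℤ}
    (ha : ∀ i j t, a i j t = 0 ∨ a i j t = 1) (hβ : ∀ i j t, β i j t = 0 ∨ β i j t = 1)
    (hrel : ∀ i i' t, ∑ w, a i 0 w * β i' 0 (t - w) + ∑ w, a i 1 w * β i' 1 (t - w) =
      1 + if i = i' ∧ t = 0 then 1 else 0)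
    (hr : ∀ i, ∑ t, a i 0 t + ∑ t, a i 1 t = 3) (hc : ∀ j, ∑ t, a 0 j t + ∑ t, a 1 j t = 3)
    (nf : ∀ i i' j j' (g g' h h' : T), (i ≠ i' ∨ g ≠ g') → (j ≠ j' ∨ h ≠ h') → a i j (g - h) = 1 →
      a i j' (g - h') = 1 → a i' j (g' - h) = 1 → a i' j' (g' - h') = 1 → False) : False := by
  have nn : ∀ i j, 0 ≤ ∑ t, a i j t := fun i j => Finset.sum_nonneg fun t _ => by
    rcases ha i j t with h | h <;> rw [h] <;> norm_num
  have zero : ∀ i j, ∑ t, a i j t = 0 → ∀ t, a i j t = 0 := by
    intro i j hs t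
    exact (Finset.sum_eq_zero_iff_of_nonneg fun t _ => by
      rcases ha i j t with h | h <;> rw [h] <;> norm_num).mp hs t (Finset.mem_univ t)
  have conv : ∀ (f g : T → ℤ), ∑ t, ∑ w, f w * g (t - w) = (∑ w, f w) * ∑ t, g t := by
    intro f g
    rw [Finset.sum_comm, Finset.sum_mul]
    refine Finset.sum_congr rfl fun w _ => ?_
    rw [← Finset.mul_sum]
    congr 1
    exact (Equiv.subRight w).sum_comp g
  have three : ∀ j j' : Fin 2, j ≠ j' → ∑ t, a 0 j t = 3 → False := by
    intro j j' hj hs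
    have h1 : ∀ t, ∑ w, a 0 j w * β 1 j (t - w) = 1 := by
      intro t
      have h2 := hrel 0 1 t
      rw [if_neg (by simp)] at h2
      have h0 := hr 0
      fin_cases j <;> fin_cases j' <;> simp at hj hs ⊢
      · have z := zero 0 1 (by linarith)
        simp only [z, zero_mul, Finset.sum_const_zero, add_zero] at h2
        exact h2
      · have z := zero 0 0 (by linarith)
        simp only [z, zero_mul, Finset.sum_const_zero, zero_add, add_zero] at h2
        exact h2
    have h2 := conv (a 0 j) (β 1 j)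
    rw [hs] at h2
    simp only [h1, Finset.sum_const, Finset.card_univ, nsmul_eq_mul, mul_one] at h2
    exact h3 (by exact_mod_cast (Dvd.intro _ h2.symm : (3 : ℤ) ∣ (Fintype.card T : ℤ)))
  have r0 := hr 0
  have r1 := hr 1
  have c0 := hc 0
  have c1 := hc 1
  have a0 := nn 0 0
  have a1 := nn 0 1
  have : ∑ t, a 0 0 t = 0 ∨ ∑ t, a 0 0 t = 1 ∨ ∑ t, a 0 0 t = 2 ∨ ∑ t, a 0 0 t = 3 := by omega
  rcases this with h | h | h | h
  · exact three 1 0 (by decide) (by linarith)
  · refine two_case_two h3 (a := fun i j => a i (1 - j)) (β := fun i j => β i (1 - j))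
      (fun i j t => ha _ _ _) (fun i j t => hβ _ _ _) (fun i i' t => ?_) ?_ ?_ ?_ ?_
      (fun i i' j j' g g' h h' k1 k2 k3 k4 k5 k6 => nf i i' (1 - j) (1 - j') g g' h h' k1
        (k2.imp (fun k k' => k (sub_right_injective k')) id) k3 k4 k5 k6)
    · have := hrel i i' t
      simp only [sub_zero, sub_self]
      rw [← this, add_comm]
    · simp only [sub_zero]; linarith
    · simp only [sub_self]; linarith
    · simp only [sub_zero]; linarith
    · simp only [sub_self]; linarith
  · exact two_case_two h3 ha hβ hrel h (by linarith) (by linarith) (by linarith) nf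
  · exact three 0 1 (by decide) h

end Pool.Agent.MP_a127ec_co.Ab
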