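import Mathlib

/-!
# Integral circulant matrices which are inverse to each other modulo `J`
-/

open Matrix Finset

namespace Pool.Agent.MP_a127ec_co.Ab

variable {G : Type*} [AddCommGroup G] [Fintype G] [DecidableEq G]

/-- the all ones matrix -/
def JJ (G : Type*) : Matrix G G ℤ := Matrix.of fun _ _ => 1

omit [AddCommGroup G] [Fintype G] [DecidableEq G] in
theorem JJ_apply (x y : G) : JJ G x y = 1 := rfl

omit [AddCommGroup G] [DecidableEq G] in
theorem JJ_mul_JJ : JJ G * JJ G = (Fintype.card G : ℤ) • JJ G := by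
  ext x y
  simp [Matrix.mul_apply, JJ]

omit [DecidableEq G] in
theorem circ_mul_JJ (v : G → ℤ) : circulant v * JJ G = (∑ t, v t) • JJ G := by
  ext x y
  simp only [Matrix.mul_apply, circulant_apply, JJ, Matrix.of_apply, mul_one, Matrix.smul_apply,
    smul_eq_mul]
  exact (Equiv.subLeft x).sum_comp v

omit [DecidableEq G] in
theorem JJ_mul_circ (v : G → ℤ) : JJ G * circulant v = (∑ t, v t) • JJ G := by
  ext x y
  simp only [Matrix.mul_apply, circulant_apply, JJ, Matrix.of_apply, mul_one, Matrix.smul_apply,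
    smul_eq_mul, one_mul]
  exact (Equiv.subRight y).sum_comp v

omit [AddCommGroup G] [Fintype G] [DecidableEq G] in
theorem JJ_transpose : (JJ G)ᵀ = JJ G := rfl

theorem circ_single_mul (g : G) (v : G → ℤ) :
    circulant (Pi.single g 1) * circulant v = circulant fun t => v (t - g) := by
  ext x y
  rw [Matrix.mul_apply]
  simp only [circulant_apply]
  rw [Finset.sum_eq_single (x - g)]
  · rw [show x - (x - g) = g by abel, Pi.single_eq_same, one_mul]
    congr 1
    abel
  · intro z _ hz
    rw [Pi.single_eq_of_ne, zero_mul]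
    intro h
    apply hz
    rw [← h]
    abel
  · simp

/-- An integral circulant `U` with `U Uᵀ = 1` and row sum `1` is a translation. -/
theorem unit_shift (u : G → ℤ) (h : circulant u * (circulant u)ᵀ = 1) (hs : ∑ t, u t = 1) :
    ∃ g, u = Pi.single g 1 := by
  have h1 : ∑ t, u t * u t = 1 := by
    have := congrFun (congrFun h 0) 0
    rw [Matrix.mul_apply, Matrix.one_apply_eq] at this
    simp only [transpose_apply, circulant_apply] at this
    rw [← this]
    exact ((Equiv.subLeft (0 : G)).sum_comp fun t => u t * u t).symm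
  obtain ⟨g, hg⟩ : ∃ g, u g ≠ 0 := by
    by_contra hc
    push Not at hc
    simp [hc] at h1
  have h2 : ∀ t, t ≠ g → u t = 0 := by
    intro t ht
    by_contra hne
    have h3 : u t * u t + u g * u g ≤ ∑ t, u t * u t := by
      rw [← Finset.sum_pair (f := fun t => u t * u t) ht]
      exact Finset.sum_le_sum_of_subset_of_nonneg (Finset.subset_univ _)
        fun i _ _ => mul_self_nonneg _
    have h4 : 0 < u t * u t := mul_self_pos.mpr hne
    have h5 : 0 < u g * u g := mul_self_pos.mpr hg
    omega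
  refine ⟨g, ?_⟩
  have h6 : u g = 1 := by
    rw [← hs]
    exact (Finset.sum_eq_single g (fun t _ ht => h2 t ht) (by simp)).symm
  funext t
  by_cases ht : t = g
  · subst ht
    rw [h6, Pi.single_eq_same]
  · rw [h2 t ht, Pi.single_eq_of_ne ht]

/-- If `δ β = J + ε` (`ε = ± 1`) in the integral group ring, then `δ` is symmetric up to a
translation. -/
theorem sym_of_inv {ε : ℤ} (hε : ε * ε = 1) (δ β : G → ℤ)
    (h : circulant δ * circulant β = JJ G + ε • (1 : Matrix G G ℤ)) :
    ∃ g, ∀ t, δ t = δ (g - t) := by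
  set D := circulant δ with hD
  set E := circulant β with hE
  set d := ∑ t, δ t with hd
  set e := ∑ t, β t with he
  have hDt : Dᵀ = circulant fun i => δ (-i) := transpose_circulant δ
  have hEt : Eᵀ = circulant fun i => β (-i) := transpose_circulant β
  have hdt : ∑ t, δ (-t) = d := Equiv.sum_comp (Equiv.neg G) δ
  have het : ∑ t, β (-t) = e := Equiv.sum_comp (Equiv.neg G) β
  have cDE : D * E = E * D := circulant_mul_comm _ _
  have cDEt : D * Eᵀ = Eᵀ * D := by rw [hEt]; exact circulant_mul_comm _ _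
  have cDDt : D * Dᵀ = Dᵀ * D := by rw [hDt]; exact circulant_mul_comm _ _
  have hde : d * e = (Fintype.card G : ℤ) + ε := by
    have h1 := congrArg (fun M => (M * JJ G) 0 0) h
    simp only [Matrix.mul_assoc, add_mul, smul_mul_assoc, one_mul, JJ_mul_JJ] at h1
    rw [hE, circ_mul_JJ, Matrix.mul_smul, hD, circ_mul_JJ] at h1
    simp only [Matrix.smul_apply, Matrix.add_apply, JJ, Matrix.of_apply, smul_eq_mul, mul_one] at h1
    rw [mul_comm]
    exact h1
  have hJD : JJ G * Dᵀ = d • JJ G := by rw [hDt, JJ_mul_circ, hdt]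
  have hDJ : D * JJ G = d • JJ G := circ_mul_JJ _
  have hJE : JJ G * E = e • JJ G := JJ_mul_circ _
  have hEJ : Eᵀ * JJ G = e • JJ G := by rw [hEt, circ_mul_JJ, het]
  have hht : Eᵀ * Dᵀ = JJ G + ε • (1 : Matrix G G ℤ) := by
    rw [← Matrix.transpose_mul, h, Matrix.transpose_add, JJ_transpose, Matrix.transpose_smul,
      Matrix.transpose_one]
  -- the orthogonal matrix
  obtain ⟨u, hu⟩ : ∃ u : G → ℤ, circulant u = ε • (Eᵀ * D - JJ G) := by
    refine ⟨ε • ((circulant fun i => β (-i)) *ᵥ δ - fun _ => 1), ?_⟩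
    rw [circulant_smul, circulant_sub, ← circulant_mul, ← hEt]
    rfl
  have hut : (circulant u)ᵀ = ε • (Dᵀ * E - JJ G) := by
    rw [hu, Matrix.transpose_smul, Matrix.transpose_sub, Matrix.transpose_mul, JJ_transpose,
      Matrix.transpose_transpose]
  have key : (Eᵀ * D) * (Dᵀ * E) = (JJ G + ε • (1 : Matrix G G ℤ)) * (JJ G + ε • (1 : Matrix G G ℤ)) := by
    calc (Eᵀ * D) * (Dᵀ * E) = Eᵀ * (D * Dᵀ) * E := by simp only [Matrix.mul_assoc]
      _ = (Eᵀ * Dᵀ) * (D * E) := by rw [cDDt]; simp only [Matrix.mul_assoc]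
      _ = _ := by rw [hht, h]
  have k1 : JJ G * (Dᵀ * E) = (d * e) • JJ G := by
    rw [← Matrix.mul_assoc, hJD, smul_mul_assoc, hJE, smul_smul]
  have k2 : (Eᵀ * D) * JJ G = (d * e) • JJ G := by
    rw [Matrix.mul_assoc, hDJ, Matrix.mul_smul, hEJ, smul_smul]
  have huu : circulant u * (circulant u)ᵀ = 1 := by
    rw [hut, hu, smul_mul_smul_comm, hε, one_smul, sub_mul, mul_sub, mul_sub, key, k1, k2, JJ_mul_JJ,
      hde]
    simp only [add_mul, mul_add, JJ_mul_JJ, Matrix.mul_smul, Matrix.smul_mul, mul_one, one_mul,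
      smul_smul, hε, one_smul, add_smul]
    abel
  have hus : ∑ t, u t = 1 := by
    have h1 := congrFun (congrFun (circ_mul_JJ u) 0) 0
    rw [hu, smul_mul_assoc, sub_mul, k2, JJ_mul_JJ, hde] at h1
    simp only [Matrix.smul_apply, Matrix.sub_apply, JJ, Matrix.of_apply, smul_eq_mul, mul_one] at h1
    rw [← h1, add_sub_cancel_left, hε]
  obtain ⟨g, hg⟩ := unit_shift u huu hus
  refine ⟨g, ?_⟩
  -- `D = S Dᵀ`
  have hS : circulant u * (circulant u)ᵀ = 1 := huu
  have h2 : circulant u * (Dᵀ * E) = D * E := by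
    have h3 : Dᵀ * E = ε • (circulant u)ᵀ + JJ G := by
      rw [hut, smul_smul, hε, one_smul, sub_add_cancel]
    rw [h3, mul_add, Matrix.mul_smul, hS, circ_mul_JJ, hus, one_smul, h, add_comm]
  have h4 : (circulant u * Dᵀ) * (E * D) = D * (E * D) := by
    have := congrArg (· * D) h2
    simp only [Matrix.mul_assoc] at this ⊢
    exact this
  rw [← cDE, h, mul_add, mul_add, Matrix.mul_assoc, hDt, circ_mul_JJ, hdt, hDJ, Matrix.mul_smul, circ_mul_JJ,
    hus, one_smul, Matrix.mul_smul, Matrix.mul_smul, mul_one, mul_one] at h4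
  have h5 := add_left_cancel h4
  have h6 : circulant u * (circulant fun i => δ (-i)) = D := by
    have := congrArg (ε • ·) h5
    simpa only [smul_smul, hε, one_smul] using this
  rw [hg, circ_single_mul] at h6
  intro t
  have h7 := congrFun (congrFun h6 t) 0
  rw [hD, circulant_apply, circulant_apply, sub_zero] at h7
  rw [← h7]
  congr 1
  abel

/-- uniqueness of the inverse -/
theorem inv_unique {ε : ℤ} (hε : ε * ε = 1) (δ β β' : G → ℤ) (hd : ∑ t, δ t ≠ 0)
    (h : circulant δ * circulant β = JJ G + ε • (1 : Matrix G G ℤ))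
    (h' : circulant δ * circulant β' = JJ G + ε • (1 : Matrix G G ℤ)) : β = β' := by
  have hs : ∀ γ : G → ℤ, circulant δ * circulant γ = JJ G + ε • (1 : Matrix G G ℤ) →
      (∑ t, δ t) * ∑ t, γ t = (Fintype.card G : ℤ) + ε := by
    intro γ hγ
    have h1 := congrArg (fun M => (M * JJ G) 0 0) hγ
    simp only [Matrix.mul_assoc, add_mul, smul_mul_assoc, one_mul, JJ_mul_JJ] at h1
    rw [circ_mul_JJ, Matrix.mul_smul, circ_mul_JJ] at h1
    simp only [Matrix.smul_apply, Matrix.add_apply, JJ, Matrix.of_apply, smul_eq_mul, mul_one] at h1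
    rw [mul_comm]
    exact h1
  have h1 : ∑ t, β t = ∑ t, β' t := mul_left_cancel₀ hd ((hs β h).trans (hs β' h').symm)
  have h2 : circulant β * (circulant δ * circulant β') = circulant β' * (circulant δ * circulant β) := by
    rw [← Matrix.mul_assoc, circulant_mul_comm β δ, Matrix.mul_assoc, circulant_mul_comm β β',
      ← Matrix.mul_assoc, circulant_mul_comm δ β', Matrix.mul_assoc]
  rw [h, h', mul_add, mul_add, circ_mul_JJ, circ_mul_JJ, h1] at h2
  have h3 := add_left_cancel h2
  rw [Matrix.mul_smul, Matrix.mul_smul, mul_one, mul_one] at h3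
  have h4 := congrArg (ε • ·) h3
  simp only [smul_smul, hε, one_smul] at h4
  exact circulant_injective h4

end Pool.Agent.MP_a127ec_co.Ab
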