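import Mathlib

/-!
# A perfect code argument in an abelian group

`β` is the indicator function of a set in a finite abelian group of order prime to `3`, every element `t` of the
grid with steps `p`, `q` has `1 + β t - [t = 0]` neighbours in the set.
-/

namespace Pool.Agent.MP_a127ec_co.Ab

variable {G : Type*} [AddCommGroup G]

/-- The two neighbours of an element of the set are opposite. -/
theorem grid_type {p q : G} {β : G → ℤ} (h01 : ∀ t, β t = 0 ∨ β t = 1)
    (hN : ∀ t, t ≠ 0 → β (t - p) + β (t + p) + β (t - q) + β (t + q) = 1 + β t)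
    (hu : ∀ t, β t + β (t + (p + q)) ≤ 1) (hv : ∀ t, β t + β (t + (q - p)) ≤ 1)
    {t : G} (ht : β t = 1) (h0 : β 0 = 0) :
    (β (t + p) = 1 ∧ β (t - p) = 1 ∧ β (t + q) = 0 ∧ β (t - q) = 0) ∨
      (β (t + p) = 0 ∧ β (t - p) = 0 ∧ β (t + q) = 1 ∧ β (t - q) = 1) := by
  have ht0 : t ≠ 0 := by
    rintro rfl
    rw [h0] at ht
    exact zero_ne_one ht
  have h1 := hN t ht0
  have a1 := hu (t - q)
  rw [show t - q + (p + q) = t + p by abel] at a1
  have a2 := hu (t - p)
  rw [show t - p + (p + q) = t + q by abel] at a2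
  have a3 := hv (t + p)
  rw [show t + p + (q - p) = t + q by abel] at a3
  have a4 := hv (t - q)
  rw [show t - q + (q - p) = t - p by abel] at a4
  rcases h01 (t + p) with b1 | b1 <;> rcases h01 (t - p) with b2 | b2 <;>
    rcases h01 (t + q) with b3 | b3 <;> rcases h01 (t - q) with b4 | b4 <;>
    simp only [b1, b2, b3, b4, ht] at h1 a1 a2 a3 a4 ⊢ <;> first | omega | simp

/-- There is no line in direction `p`. -/
theorem grid_no_line [Fintype G] (h3 : ¬ 3 ∣ Fintype.card G) {p q : G} {β : G → ℤ}
    (h01 : ∀ t, β t = 0 ∨ β t = 1) (h0 : β 0 = 0) (hp0 : β p = 0) (hq0 : β q = 0)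
    (hN : ∀ t, t ≠ 0 → β (t - p) + β (t + p) + β (t - q) + β (t + q) = 1 + β t)
    (hNz : β (0 - p) + β (0 + p) + β (0 - q) + β (0 + q) = 0)
    (hu : ∀ t, β t + β (t + (p + q)) ≤ 1) (hv : ∀ t, β t + β (t + (q - p)) ≤ 1)
    (hp : p ≠ 0) {t : G} (ht : β t = 1) (htp : β (t + p) = 1) : False := by
  have nn : ∀ x, 0 ≤ β x := fun x => by rcases h01 x with h | h <;> rw [h] <;> norm_num
  -- type P
  have full : ∀ x, β x = 1 → β (x + p) = 1 → β (x - p) = 1 ∧ β (x + q) = 0 ∧ β (x - q) = 0 := by
    intro x h1 h2
    rcases grid_type h01 hN hu hv h1 h0 with h | h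
    · exact h.2
    · rw [h.1] at h2
      exact absurd h2 zero_ne_one
  have up : ∀ x, β x = 1 → β (x + p) = 1 → β (x + p + p) = 1 := by
    intro x h1 h2
    rcases grid_type h01 hN hu hv h2 h0 with h | h
    · exact h.1
    · have := h.2.1
      rw [add_sub_cancel_right, h1] at this
      exact absurd this one_ne_zero
  -- the next two lines are empty
  have two : ∀ x, β x = 1 → β (x + p) = 1 → β (x + q + q) = 0 := by
    intro x h1 h2
    have h4 := (full x h1 h2).2.1
    have e : x + q - q = x := by abel
    by_cases hx : x + q = 0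
    · have := hNz
      have e1 : x = 0 - q := by rw [← hx]; abel
      rw [← e1, h1] at this
      have := nn (0 - p)
      have := nn (0 + p)
      have := nn (0 + q)
      omega
    · have h5 := hN (x + q) hx
      rw [e, h1, h4] at h5
      have := nn (x + q - p)
      have := nn (x + q + p)
      have := nn (x + q + q)
      omega
  have three : ∀ x, β x = 1 → β (x + p) = 1 → x + q + q ≠ 0 → β (x + q + q + q) = 1 := by
    intro x h1 h2 hx
    have h4 := (full x h1 h2).2.1
    have h5 := (full x h1 h2).1
    have h6 := hN (x + q + q) hx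
    have e1 : x + q + q - q = x + q := by abel
    have e2 : x + q + q - p = (x - p) + q + q := by abel
    have e3 : x + q + q + p = (x + p) + q + q := by abel
    have h7 := two (x - p) h5 (by rw [sub_add_cancel]; exact h1)
    have h8 := two (x + p) h2 (up x h1 h2)
    rw [e1, e2, e3, h7, h8, h4, two x h1 h2] at h6
    omega
  have nz : ∀ x, β x = 1 → β (x + p) = 1 → x + q + q ≠ 0 := by
    intro x h1 h2 hx
    have e1 : (x + p) + q + q = p := by
      calc (x + p) + q + q = (x + q + q) + p := by abel
        _ = p := by rw [hx, zero_add]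
    have h4 := three (x + p) h2 (up x h1 h2) (by rw [e1]; exact hp)
    rw [e1] at h4
    rcases grid_type h01 hN hu hv h4 h0 with h | h
    · have := h.2.1
      rw [add_sub_cancel_left, hq0] at this
      exact zero_ne_one this
    · have := h.2.2.2
      rw [add_sub_cancel_right, hp0] at this
      exact zero_ne_one this
  have step : ∀ x, β x = 1 → β (x + p) = 1 →
      β (x + (q + q + q)) = 1 ∧ β (x + (q + q + q) + p) = 1 := by
    intro x h1 h2
    constructor
    · rw [show x + (q + q + q) = x + q + q + q by abel]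
      exact three x h1 h2 (nz x h1 h2)
    · rw [show x + (q + q + q) + p = (x + p) + q + q + q by abel]
      exact three (x + p) h2 (up x h1 h2) (nz (x + p) h2 (up x h1 h2))
  have iter : ∀ k : ℕ, β (t + k • (q + q + q)) = 1 ∧ β (t + k • (q + q + q) + p) = 1 := by
    intro k
    induction k with
    | zero => simpa using ⟨ht, htp⟩
    | succ k ih =>
      have := step _ ih.1 ih.2
      rw [succ_nsmul, ← add_assoc]
      exact this
  -- 3 is invertible modulo the order of the group
  obtain ⟨k, hk⟩ : ∃ k : ℕ, k • (q + q + q) = q := by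
    have hc : (Fintype.card G) • q = 0 := card_nsmul_eq_zero
    have e : q + q + q = 3 • q := by abel
    rw [e]
    rcases (by omega : Fintype.card G % 3 = 1 ∨ Fintype.card G % 3 = 2) with h1 | h1
    · refine ⟨2 * (Fintype.card G / 3) + 1, ?_⟩
      have e2 : 3 * (2 * (Fintype.card G / 3) + 1) = 2 * Fintype.card G + 1 := by omega
      rw [← mul_nsmul, e2, add_nsmul, one_nsmul, mul_comm, mul_nsmul, hc, nsmul_zero, zero_add]
    · refine ⟨Fintype.card G / 3 + 1, ?_⟩
      have e2 : 3 * (Fintype.card G / 3 + 1) = Fintype.card G + 1 := by omega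
      rw [← mul_nsmul, e2, add_nsmul, one_nsmul, hc, zero_add]
  have h9 := (iter k).1
  rw [hk, (full t ht htp).2.1] at h9
  exact zero_ne_one h9

/-- No such set exists. -/
theorem grid_false [Fintype G] (h3 : ¬ 3 ∣ Fintype.card G) {p q : G} {β : G → ℤ}
    (h01 : ∀ t, β t = 0 ∨ β t = 1) (hs : ∀ t, β (-t) = β t)
    (hN : ∀ t, t ≠ 0 → β (t - p) + β (t + p) + β (t - q) + β (t + q) = 1 + β t)
    (hNz : β (0 - p) + β (0 + p) + β (0 - q) + β (0 + q) = β 0)
    (hu : ∀ t, β t + β (t + (p + q)) ≤ 1) (hv : ∀ t, β t + β (t + (q - p)) ≤ 1)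
    (hp : p ≠ 0) (hq : q ≠ 0) : False := by
  have h0 : β 0 = 0 ∧ β p = 0 ∧ β q = 0 := by
    rw [zero_sub, zero_sub, zero_add, zero_add, hs, hs] at hNz
    rcases h01 0 with a | a <;> rcases h01 p with b | b <;> rcases h01 q with c | c <;>
      simp only [a, b, c] at hNz ⊢ <;> first | omega | simp
  obtain ⟨h0, hp0, hq0⟩ := h0
  rw [h0] at hNz
  have zero : ∀ t, β t = 0 := by
    intro t
    rcases h01 t with h | ht
    · exact h
    · exfalso
      rcases grid_type h01 hN hu hv ht h0 with h | h
      · exact grid_no_line h3 h01 h0 hp0 hq0 hN hNz hu hv hp ht h.1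
      · refine grid_no_line (p := q) (q := p) h3 h01 h0 hq0 hp0 (fun t ht => ?_) ?_ (fun t => ?_)
          (fun t => ?_) hq ht h.2.2.1
        · have := hN t ht
          linarith
        · linarith
        · rw [add_comm q p]
          exact hu t
        · have := hv (t + (p - q))
          rw [show t + (p - q) + (q - p) = t by abel] at this
          linarith
  have := hN p hp
  simp only [zero] at this
  omega

end Pool.Agent.MP_a127ec_co.Ab
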