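import Pool.Agent.Lib.MP_a127ec_co.AbCirc
import Pool.Agent.Lib.MP_a127ec_co.AbGrid

/-!
# Two orbits: the four blocks
-/

open Matrix Finset

namespace Pool.Agent.MP_a127ec_co.Ab

variable {G : Type*} [AddCommGroup G]

section sym

variable [DecidableEq G]

/-- the number of times `t` occurs in `p + {0, v, u, u + v}` -/
def cnt (p u v t : G) : ℤ :=
  (if t = p then 1 else 0) + (if t = p + v then 1 else 0) + (if t = p + u then 1 else 0) +
    (if t = p + u + v then 1 else 0)

theorem cnt_mem {p u v t : G} (hc : ∀ t, cnt p u v t = cnt p u v (-t))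
    (ht : t = p ∨ t = p + v ∨ t = p + u ∨ t = p + u + v) :
    -t = p ∨ -t = p + v ∨ -t = p + u ∨ -t = p + u + v := by
  by_contra hn
  push Not at hn
  have h1 := hc t
  unfold cnt at h1
  rw [if_neg hn.1, if_neg hn.2.1, if_neg hn.2.2.1, if_neg hn.2.2.2] at h1
  rcases ht with h | h | h | h
  · rw [if_pos h] at h1; split_ifs at h1 <;> omega
  · rw [if_pos h] at h1; split_ifs at h1 <;> omega
  · rw [if_pos h] at h1; split_ifs at h1 <;> omega
  · rw [if_pos h] at h1; split_ifs at h1 <;> omega

theorem cnt_comm (p u v t : G) : cnt p u v t = cnt p v u t := by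
  unfold cnt
  rw [show p + u + v = p + v + u by abel]
  ring

/-- the case `2 p = - u` -/
theorem sym_aux {p u v : G} (hu : u + u ≠ 0) (hv : v + v ≠ 0) (ht3 : ∀ z : G, z + z + z = 0 → z = 0)
    (hc : ∀ t, cnt p u v t = cnt p u v (-t)) (h : -p = p + u) : False := by
  have hu0 : u ≠ 0 := by rintro rfl; simp at hu
  have hv0 : v ≠ 0 := by rintro rfl; simp at hv
  have h1 := cnt_mem (t := p + v) hc (Or.inr (Or.inl rfl))
  have e : -(p + v) = p + (u - v) := by
    rw [neg_add, h]; abel
  rw [e] at h1
  rcases h1 with h1 | h1 | h1 | h1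
  · -- u = v
    have huv : u = v := by
      have : u - v = 0 := by simpa using h1
      exact sub_eq_zero.mp this
    subst huv
    have h2 := hc p
    rw [h] at h2
    unfold cnt at h2
    have n1 : p ≠ p + u := by simpa using hu0
    have n2 : p ≠ p + u + u := by rw [add_assoc]; simpa using hu
    have n3 : p + u ≠ p := fun h => n1 h.symm
    have n4 : p + u ≠ p + u + u := by simpa using hu0
    simp only [if_true, if_neg n1, if_neg n2, if_neg n3, if_neg n4] at h2
    omega
  · -- u = 2 v
    have huv : u = v + v := by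
      have h2 : u - v = v := add_left_cancel h1
      calc u = (u - v) + v := by abel
        _ = v + v := by rw [h2]
    subst huv
    have h2 := cnt_mem (t := p + (v + v) + v) hc (Or.inr (Or.inr (Or.inr rfl)))
    have e2 : -(p + (v + v) + v) = p + (-v) := by
      calc -(p + (v + v) + v) = -p - v - v - v := by abel
        _ = p + (-v) := by rw [h]; abel
    rw [e2] at h2
    rcases h2 with h2 | h2 | h2 | h2
    · have : -v = 0 := by simpa using h2
      exact hv0 (neg_eq_zero.mp this)
    · have h3 : -v = v := add_left_cancel h2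
      apply hv
      nth_rw 1 [← h3]
      abel
    · have h3 : -v = v + v := add_left_cancel h2
      apply hv0
      apply ht3
      rw [← h3]
      abel
    · rw [add_assoc] at h2
      have h3 : -v = v + v + v := add_left_cancel h2
      apply hu
      calc v + v + (v + v) = (v + v + v) + v := by abel
        _ = 0 := by rw [← h3]; abel
  · have h2 : u - v = u := add_left_cancel h1
    apply hv0
    calc v = u - (u - v) := by abel
      _ = 0 := by rw [h2]; abel
  · rw [add_assoc] at h1
    have h2 : u - v = u + v := add_left_cancel h1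
    apply hv
    calc v + v = (u + v) - (u - v) := by abel
      _ = 0 := by rw [h2]; abel

theorem sym_case {p u v : G} (hu : u + u ≠ 0) (hv : v + v ≠ 0) (ht3 : ∀ z : G, z + z + z = 0 → z = 0)
    (hc : ∀ t, cnt p u v t = cnt p u v (-t)) : p + p + u + v = 0 := by
  have hu0 : u ≠ 0 := by rintro rfl; simp at hu
  have hv0 : v ≠ 0 := by rintro rfl; simp at hv
  rcases cnt_mem (t := p) hc (Or.inl rfl) with h | h | h | h
  · -- 2 p = 0
    have h1 := cnt_mem (t := p + u) hc (Or.inr (Or.inr (Or.inl rfl)))
    have e : -(p + u) = p + (-u) := by rw [neg_add, h]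
    rw [e] at h1
    have hpp : p + p = 0 := by nth_rw 1 [← h]; abel
    rcases h1 with h1 | h1 | h1 | h1
    · have : -u = 0 := by simpa using h1
      exact absurd (neg_eq_zero.mp this) hu0
    · have h2 : -u = v := add_left_cancel h1
      rw [hpp, ← h2]; abel
    · have h2 : -u = u := add_left_cancel h1
      exfalso; apply hu; nth_rw 1 [← h2]; abel
    · rw [add_assoc] at h1
      have h2 : -u = u + v := add_left_cancel h1
      have hvu : v = -(u + u) := by
        calc v = (u + v) - u := by abel
          _ = -(u + u) := by rw [← h2]; abel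
      exfalso
      have h3 := cnt_mem (t := p + v) hc (Or.inr (Or.inl rfl))
      have e3 : -(p + v) = p + (u + u) := by rw [neg_add, h, hvu]; abel
      rw [e3] at h3
      rcases h3 with h3 | h3 | h3 | h3
      · exact hu (by simpa using h3)
      · have h4 : u + u = v := add_left_cancel h3
        apply hv
        calc v + v = v + (u + u) := by rw [h4]
          _ = 0 := by rw [hvu]; abel
      · have h4 : u + u = u := add_left_cancel h3
        exact hu0 (by simpa using h4)
      · rw [add_assoc] at h3
        have h4 : u + u = u + v := add_left_cancel h3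
        have h5 : u = v := add_left_cancel h4
        apply hu0
        apply ht3
        calc u + u + u = u + u + v := by rw [← h5]
          _ = 0 := by rw [hvu]; abel
  · exfalso
    exact sym_aux (u := v) (v := u) hv hu ht3 (fun t => by
      rw [cnt_comm, cnt_comm p v u]; exact hc t) h
  · exfalso
    exact sym_aux hu hv ht3 hc h
  · calc p + p + u + v = p + (p + u + v) := by abel
      _ = 0 := by rw [← h]; abel

end sym

/-- The core of the two orbit case: `a11 = {a, b}`, `a12 = {x}`, `a21 = {y}`, `a22 = {e, f}`. -/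
theorem core_two [Fintype G] [DecidableEq G] (h3 : ¬ 3 ∣ Fintype.card G) {a b e f x y : G}
    {β00 β01 β10 β11 : G → ℤ} (h00 : ∀ t, β00 t = 0 ∨ β00 t = 1) (h01 : ∀ t, β01 t = 0 ∨ β01 t = 1)
    (h10 : ∀ t, β10 t = 0 ∨ β10 t = 1) (h11 : ∀ t, β11 t = 0 ∨ β11 t = 1)
    (r1 : ∀ t, β10 (t - a) + β10 (t - b) + β11 (t - x) = 1)
    (r2 : ∀ t, β10 (t - y) + β11 (t - e) + β11 (t - f) = 1 + if t = 0 then 1 else 0)
    (r3 : ∀ t, β00 (t - a) + β00 (t - b) + β01 (t - x) = 1 + if t = 0 then 1 else 0)
    (r4 : ∀ t, β00 (t - y) + β01 (t - e) + β01 (t - f) = 1)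
    (n1 : a + e ≠ x + y) (n2 : a + f ≠ x + y) (n3 : b + e ≠ x + y) (n4 : b + f ≠ x + y)
    (n5 : (b - a) + (b - a) ≠ 0) (n6 : (f - e) + (f - e) ≠ 0) : False := by
  classical
  have nn : ∀ {γ : G → ℤ}, (∀ t, γ t = 0 ∨ γ t = 1) → ∀ t, 0 ≤ γ t := fun hγ t => by
    rcases hγ t with h | h <;> rw [h] <;> norm_num
  set u := b - a with hu
  set v := f - e with hv
  set p := a + e - (x + y) with hp
  have ep : ∀ t, t - p = t - a - e + x + y := fun t => by rw [hp]; abel
  -- the relation for a function `γ`
  have rel1 : ∀ t, β10 (t - p - y) + β10 (t - (p + v) - y) + β10 (t - (p + u) - y) +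
      β10 (t - (p + u + v) - y) - β10 (t - y) = 1 - if t = 0 then 1 else 0 := by
    intro t
    have q1 := r1 (t + x - e)
    have q2 := r1 (t + x - f)
    have q3 := r2 t
    rw [show t + x - e - x = t - e by abel, show t + x - e - a = t - p - y by rw [ep]; abel,
      show t + x - e - b = t - (p + u) - y by rw [hp, hu]; abel] at q1
    rw [show t + x - f - x = t - f by abel, show t + x - f - a = t - (p + v) - y by rw [hp, hv]; abel,
      show t + x - f - b = t - (p + u + v) - y by rw [hp, hu, hv]; abel] at q2
    linarith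
  have rel2 : ∀ t, β01 (t - p - x) + β01 (t - (p + v) - x) + β01 (t - (p + u) - x) +
      β01 (t - (p + u + v) - x) - β01 (t - x) = 1 - if t = 0 then 1 else 0 := by
    intro t
    have q1 := r4 (t + y - a)
    have q2 := r4 (t + y - b)
    have q3 := r3 t
    rw [show t + y - a - y = t - a by abel, show t + y - a - e = t - p - x by rw [ep]; abel,
      show t + y - a - f = t - (p + v) - x by rw [hp, hv]; abel] at q1
    rw [show t + y - b - y = t - b by abel, show t + y - b - e = t - (p + u) - x by rw [hp, hu]; abel,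
      show t + y - b - f = t - (p + u + v) - x by rw [hp, hu, hv]; abel] at q2
    linarith
  -- the group ring element
  let δ : G → ℤ := fun t => cnt p u v t - if t = 0 then 1 else 0
  have hδ : δ = Pi.single p 1 + Pi.single (p + v) 1 + Pi.single (p + u) 1 + Pi.single (p + u + v) 1 -
      Pi.single 0 1 := by
    funext t
    simp only [δ, cnt, Pi.add_apply, Pi.sub_apply, Pi.single_apply]
  have hmul : ∀ γ : G → ℤ, (∀ t, γ (t - p) + γ (t - (p + v)) + γ (t - (p + u)) + γ (t - (p + u + v)) - γ t
      = 1 - if t = 0 then 1 else 0) →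
      circulant δ * circulant γ = JJ G + (-1 : ℤ) • (1 : Matrix G G ℤ) := by
    intro γ hγ
    rw [hδ, circulant_sub, circulant_add, circulant_add, circulant_add]
    simp only [sub_mul, add_mul, circ_single_mul]
    ext s t
    have := hγ (s - t)
    simp only [Matrix.sub_apply, Matrix.add_apply, circulant_apply, Matrix.smul_apply, JJ_apply,
      smul_eq_mul, sub_zero]
    rw [this, Matrix.one_apply]
    by_cases hst : s = t
    · simp [hst]
    · rw [if_neg (fun h => hst (sub_eq_zero.mp h)), if_neg hst]; simp
  have hsum : ∑ t, δ t = 3 := by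
    rw [hδ]
    simp [Finset.sum_add_distrib, Finset.sum_sub_distrib]
  let γ : G → ℤ := fun t => β10 (t - y)
  let γ' : G → ℤ := fun t => β01 (t - x)
  have hγ := hmul γ (fun t => rel1 t)
  have hγ' := hmul γ' (fun t => rel2 t)
  have hε : (-1 : ℤ) * -1 = 1 := by norm_num
  have hγγ : γ = γ' := inv_unique hε δ γ γ' (by rw [hsum]; norm_num) hγ hγ'
  have g01 : ∀ t, γ t = 0 ∨ γ t = 1 := fun t => h10 _
  -- symmetry of `δ`
  obtain ⟨g, hg⟩ := sym_of_inv hε δ γ hγ
  have p1 : p ≠ 0 := by rw [hp]; exact sub_ne_zero.mpr n1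
  have p2 : p + v ≠ 0 := by
    rw [show p + v = a + f - (x + y) by rw [hp, hv]; abel]; exact sub_ne_zero.mpr n2
  have p3 : p + u ≠ 0 := by
    rw [show p + u = b + e - (x + y) by rw [hp, hu]; abel]; exact sub_ne_zero.mpr n3
  have p4 : p + u + v ≠ 0 := by
    rw [show p + u + v = b + f - (x + y) by rw [hp, hu, hv]; abel]; exact sub_ne_zero.mpr n4
  have hg0 : g = 0 := by
    by_contra hne
    have h1 := hg 0
    simp only [δ, cnt, if_neg (Ne.symm p1), if_neg (Ne.symm p2), if_neg (Ne.symm p3),
      if_neg (Ne.symm p4), sub_zero, if_true, if_neg hne] at h1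
    split_ifs at h1 <;> omega
  subst hg0
  have hsym : ∀ t, δ (-t) = δ t := fun t => by rw [hg t, zero_sub]
  have hcs : ∀ t, cnt p u v t = cnt p u v (-t) := by
    intro t
    have h1 := hsym t
    simp only [δ, neg_eq_zero] at h1
    linarith
  have t3 : ∀ z : G, z + z + z = 0 → z = 0 := by
    intro z hz
    have hc : (Fintype.card G) • z = 0 := card_nsmul_eq_zero
    have e3 : 3 • z = 0 := by rw [← hz]; abel
    rcases (by omega : Fintype.card G % 3 = 1 ∨ Fintype.card G % 3 = 2) with h1 | h1
    · have e2 : Fintype.card G = 3 * (Fintype.card G / 3) + 1 := by omega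
      rw [e2, add_nsmul, one_nsmul, mul_nsmul, e3, nsmul_zero, zero_add] at hc
      exact hc
    · have e2 : Fintype.card G = 3 * (Fintype.card G / 3) + 2 := by omega
      rw [e2, add_nsmul, mul_nsmul, e3, nsmul_zero, zero_add] at hc
      have : z = 3 • z - 2 • z := by abel
      rw [this, e3, hc, sub_zero]
  have hpuv := sym_case n5 n6 t3 hcs
  -- symmetry of `γ`
  have hδt : (circulant δ)ᵀ = circulant δ := by
    rw [transpose_circulant]
    congr 1
    funext t
    exact hsym t
  have hγt : circulant δ * circulant (fun t => γ (-t)) = JJ G + (-1 : ℤ) • (1 : Matrix G G ℤ) := by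
    have h1 := congrArg Matrix.transpose hγ
    rw [Matrix.transpose_mul, hδt, transpose_circulant, Matrix.transpose_add, JJ_transpose,
      Matrix.transpose_smul, Matrix.transpose_one, circulant_mul_comm] at h1
    exact h1
  have hγs : γ = fun t => γ (-t) := inv_unique hε δ γ _ (by rw [hsum]; norm_num) hγ hγt
  -- the grid
  set q := p + v with hq
  have e3 : p + u = -q := by
    have : p + u + q = 0 := by rw [hq, ← hpuv]; abel
    exact eq_neg_of_add_eq_zero_left this
  have e4 : p + u + v = -p := by
    have : p + u + v + p = 0 := by rw [← hpuv]; abel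
    exact eq_neg_of_add_eq_zero_left this
  have hN : ∀ t, γ (t - p) + γ (t - q) + γ (t + q) + γ (t + p) - γ t = 1 - if t = 0 then 1 else 0 := by
    intro t
    have h1 := rel1 t
    rw [e4, e3, sub_neg_eq_add, sub_neg_eq_add] at h1
    exact h1
  refine grid_false h3 (p := p) (q := q) g01 (fun t => ?_) (fun t ht => ?_) ?_ (fun t => ?_)
    (fun t => ?_) p1 p2
  · exact (congrFun hγs t).symm
  · have := hN t
    rw [if_neg ht] at this
    linarith
  · have := hN 0
    rw [if_pos rfl] at this
    linarith
  · -- `u = - (p + q)`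
    have hu' : u = -(p + q) := by
      have : u + (p + q) = 0 := by rw [hq, ← hpuv]; abel
      exact eq_neg_of_add_eq_zero_left this
    have h1 := r1 (t + (p + q) - y + b)
    have h2 := nn h11 (t + (p + q) - y + b - x)
    rw [show t + (p + q) - y + b - b = t + (p + q) - y by abel,
      show t + (p + q) - y + b - a = t + (p + q) + u - y by rw [hu]; abel, hu',
      show t + (p + q) + -(p + q) - y = t - y by abel] at h1
    show β10 (t - y) + β10 (t + (p + q) - y) ≤ 1
    linarith
  · have hv' : q - p = v := by rw [hq]; abel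
    rw [hγγ, hv']
    have h1 := r4 (t + v - x + e)
    have h2 := nn h00 (t + v - x + e - y)
    rw [show t + v - x + e - e = t + v - x by abel,
      show t + v - x + e - f = t - x by rw [hv]; abel] at h1
    show β01 (t - x) + β01 (t + v - x) ≤ 1
    linarith

end Pool.Agent.MP_a127ec_co.Ab
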