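import Pool.Agent.Lib.MP_a127ec_co.Graph

/-!
# Rows and columns with three points, injectivity of `A`
-/

open Finset Matrix

namespace Pool.Agent.MP_a127ec_co

variable {n s : ℕ} {A B : Matrix (Fin n) (Fin n) ℤ}

private theorem supp (w : Fin n → ℤ) (h01 : ∀ z, w z = 0 ∨ w z = 1) (f : Fin n → ℤ) :
    ∑ z, w z * f z = ∑ z ∈ univ.filter (fun z => w z = 1), f z := by
  rw [Finset.sum_filter]
  refine Finset.sum_congr rfl fun z _ => ?_
  rcases h01 z with h | h <;> simp [h]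

private theorem suppc (w : Fin n → ℤ) (h01 : ∀ z, w z = 0 ∨ w z = 1) (hs : ∑ z, w z = 3) :
    (univ.filter fun z => w z = 1).card = 3 := by
  have h := supp w h01 (fun _ => 1)
  simp only [mul_one, Finset.sum_const, nsmul_eq_mul] at h
  rw [hs] at h
  exact_mod_cast h.symm

/-- a 0/1 function with sum three has exactly three points -/
theorem three (w : Fin n → ℤ) (h01 : ∀ z, w z = 0 ∨ w z = 1) (hs : ∑ z, w z = 3) :
    ∃ a b c : Fin n, a ≠ b ∧ a ≠ c ∧ b ≠ c ∧ w a = 1 ∧ w b = 1 ∧ w c = 1 ∧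
      (∀ z, w z = 1 → z = a ∨ z = b ∨ z = c) ∧
      ∀ f : Fin n → ℤ, ∑ z, w z * f z = f a + f b + f c := by
  obtain ⟨a, b, c, hab, hac, hbc, he⟩ := Finset.card_eq_three.mp (suppc w h01 hs)
  have hm : ∀ z, w z = 1 ↔ z = a ∨ z = b ∨ z = c := by
    intro z
    have : z ∈ univ.filter (fun z => w z = 1) ↔ z ∈ ({a, b, c} : Finset (Fin n)) := by rw [he]
    simpa using this
  refine ⟨a, b, c, hab, hac, hbc, (hm a).2 (Or.inl rfl), (hm b).2 (Or.inr (Or.inl rfl)),
    (hm c).2 (Or.inr (Or.inr rfl)), fun z hz => (hm z).1 hz, fun f => ?_⟩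
  rw [supp w h01 f, he, Finset.sum_insert (by simp [hab, hac]), Finset.sum_pair hbc]
  ring

/-- three given points of a 0/1 function with sum three are all its points -/
theorem three' (w : Fin n → ℤ) (h01 : ∀ z, w z = 0 ∨ w z = 1) (hs : ∑ z, w z = 3) {a b c : Fin n}
    (hab : a ≠ b) (hac : a ≠ c) (hbc : b ≠ c) (ha : w a = 1) (hb : w b = 1) (hc : w c = 1) :
    (∀ z, w z = 1 → z = a ∨ z = b ∨ z = c) ∧ ∀ f : Fin n → ℤ, ∑ z, w z * f z = f a + f b + f c := by
  have he : ({a, b, c} : Finset (Fin n)) = univ.filter (fun z => w z = 1) := by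
    refine Finset.eq_of_subset_of_card_le ?_ ?_
    · intro z hz
      simp only [mem_insert, mem_singleton] at hz
      rcases hz with rfl | rfl | rfl <;> simpa
    · rw [suppc w h01 hs, Finset.card_insert_of_notMem (by simp [hab, hac]), Finset.card_pair hbc]
  refine ⟨fun z hz => ?_, fun f => ?_⟩
  · have : z ∈ ({a, b, c} : Finset (Fin n)) := by rw [he]; simpa
    simpa using this
  · rw [supp w h01 f, ← he, Finset.sum_insert (by simp [hab, hac]), Finset.sum_pair hbc]
    ring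

/-- two points of a 0/1 function with sum three leave exactly one more -/
theorem third (w : Fin n → ℤ) (h01 : ∀ z, w z = 0 ∨ w z = 1) (hs : ∑ z, w z = 3) {a b : Fin n}
    (hab : a ≠ b) (ha : w a = 1) (hb : w b = 1) :
    ∃ c, c ≠ a ∧ c ≠ b ∧ w c = 1 ∧ (∀ z, w z = 1 → z = a ∨ z = b ∨ z = c) ∧
      ∀ f : Fin n → ℤ, ∑ z, w z * f z = f a + f b + f c := by
  have hc : (((univ.filter fun z => w z = 1).erase a).erase b).card = 1 := by
    rw [Finset.card_erase_of_mem (by simp [hb, hab.symm]), Finset.card_erase_of_mem (by simp [ha]), suppc w h01 hs]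
  obtain ⟨c, hc⟩ := Finset.card_eq_one.mp hc
  have hm : c ∈ ((univ.filter fun z => w z = 1).erase a).erase b := by
    rw [hc]
    exact mem_singleton_self c
  rw [mem_erase, mem_erase, mem_filter] at hm
  obtain ⟨h1, h2⟩ := three' w h01 hs hab (Ne.symm hm.2.1) (Ne.symm hm.1) ha hb hm.2.2.2
  exact ⟨c, hm.2.1, hm.1, hm.2.2.2, h1, h2⟩

theorem row3 (h : IsLehmanPair n 3 s A B) (y : Fin n) :
    ∃ a b c : Fin n, a ≠ b ∧ a ≠ c ∧ b ≠ c ∧ A y a = 1 ∧ A y b = 1 ∧ A y c = 1 ∧
      (∀ z, A y z = 1 → z = a ∨ z = b ∨ z = c) ∧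
      ∀ f : Fin n → ℤ, ∑ z, A y z * f z = f a + f b + f c :=
  three (A y) (h.A_zero_one y) (by have := h.A_row y; exact_mod_cast this)

theorem col3 (h : IsLehmanPair n 3 s A B) (x : Fin n) :
    ∃ a b c : Fin n, a ≠ b ∧ a ≠ c ∧ b ≠ c ∧ A a x = 1 ∧ A b x = 1 ∧ A c x = 1 ∧
      (∀ r, A r x = 1 → r = a ∨ r = b ∨ r = c) ∧
      ∀ f : Fin n → ℤ, ∑ r, A r x * f r = f a + f b + f c :=
  three (fun r => A r x) (fun r => h.A_zero_one r x) (by have := h.A_col x; exact_mod_cast this)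

theorem row3' (h : IsLehmanPair n 3 s A B) {y a b c : Fin n} (hab : a ≠ b) (hac : a ≠ c) (hbc : b ≠ c)
    (ha : A y a = 1) (hb : A y b = 1) (hc : A y c = 1) :
    (∀ z, A y z = 1 → z = a ∨ z = b ∨ z = c) ∧ ∀ f : Fin n → ℤ, ∑ z, A y z * f z = f a + f b + f c :=
  three' (A y) (h.A_zero_one y) (by have := h.A_row y; exact_mod_cast this) hab hac hbc ha hb hc

theorem col3' (h : IsLehmanPair n 3 s A B) {x a b c : Fin n} (hab : a ≠ b) (hac : a ≠ c) (hbc : b ≠ c)
    (ha : A a x = 1) (hb : A b x = 1) (hc : A c x = 1) :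
    (∀ r, A r x = 1 → r = a ∨ r = b ∨ r = c) ∧ ∀ f : Fin n → ℤ, ∑ r, A r x * f r = f a + f b + f c :=
  three' (fun r => A r x) (fun r => h.A_zero_one r x) (by have := h.A_col x; exact_mod_cast this)
    hab hac hbc ha hb hc

theorem rowt (h : IsLehmanPair n 3 s A B) {y a b : Fin n} (hab : a ≠ b) (ha : A y a = 1) (hb : A y b = 1) :
    ∃ c, c ≠ a ∧ c ≠ b ∧ A y c = 1 ∧ (∀ z, A y z = 1 → z = a ∨ z = b ∨ z = c) ∧
      ∀ f : Fin n → ℤ, ∑ z, A y z * f z = f a + f b + f c :=
  third (A y) (h.A_zero_one y) (by have := h.A_row y; exact_mod_cast this) hab ha hb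

/-- every row of `B` meets every row of `A` -/
theorem exi (h : IsLehmanPair n 3 s A B) (hk : (3 : ℤ) * s - n = 1) (r i : Fin n) : ∃ q, A r q = 1 ∧ B i q = 1 := by
  by_contra hcon
  push Not at hcon
  have h1 := row_rel h hk r i
  have h2 : ∑ x, A r x * B i x = 0 := Finset.sum_eq_zero fun x _ => by
    rcases h.A_zero_one r x with h0 | h0
    · rw [h0, zero_mul]
    · rw [(h.B_zero_one i x).resolve_right (hcon x h0), mul_zero]
  rw [h2] at h1
  split_ifs at h1 <;> omega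

/-- and in one point only, for another row -/
theorem uniq (h : IsLehmanPair n 3 s A B) (hk : (3 : ℤ) * s - n = 1) {r i p q : Fin n} (hri : r ≠ i)
    (hp : A r p = 1) (hq : A r q = 1) (hip : B i p = 1) (hiq : B i q = 1) : p = q := by
  by_contra hpq
  obtain ⟨c, -, -, -, -, hf⟩ := rowt h hpq hp hq
  have h1 := row_rel h hk r i
  rw [hf, if_neg hri, hip, hiq] at h1
  have h2 := h.B_zero_one i c
  omega

/-- a row `r ≠ i` through a point of `B i \ B j` has a point of `B j \ B i` -/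
theorem opp (h : IsLehmanPair n 3 s A B) (hk : (3 : ℤ) * s - n = 1) {i j r p : Fin n} (hri : r ≠ i)
    (hp : A r p = 1) (hpi : B i p = 1) (hpj : B j p = 0) : ∃ q, A r q = 1 ∧ B j q = 1 ∧ B i q = 0 := by
  obtain ⟨q, hq1, hq2⟩ := exi h hk r j
  refine ⟨q, hq1, hq2, (h.B_zero_one i q).resolve_right fun h1 => ?_⟩
  have := uniq h hk hri hp hq1 hpi h1
  rw [this, hq2] at hpj
  exact one_ne_zero hpj

/-- a row of `B` meets its own row of `A` in all points but one -/
theorem own (h : IsLehmanPair n 3 s A B) (hk : (3 : ℤ) * s - n = 1) {i a b : Fin n} (hab : a ≠ b)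
    (ha : A i a = 1) (hb : A i b = 1) (hb0 : B i b = 0) : B i a = 1 := by
  obtain ⟨c, -, -, -, -, hf⟩ := rowt h hab ha hb
  have h1 := row_rel h hk i i
  rw [hf, if_pos rfl, hb0] at h1
  have h2 := h.B_zero_one i c
  have h3 := h.B_zero_one i a
  omega

/-- `A` is injective -/
theorem ker_zero (h : IsLehmanPair n 3 s A B) (hk : (3 : ℤ) * s - n = 1) (x : Fin n → ℤ)
    (hx : ∀ y, ∑ z, A y z * x z = 0) (z : Fin n) : x z = 0 := by
  have key : ∀ w, x w = - ∑ z, x z := by
    intro w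
    have h1 : ∑ y, (∑ z, A y z * x z) * B y w = 0 := by simp [hx]
    have h2 : ∑ y, (∑ z, A y z * x z) * B y w = ∑ z, x z * ∑ y, A y z * B y w := by
      simp only [Finset.sum_mul, Finset.mul_sum]
      rw [Finset.sum_comm]
      exact Finset.sum_congr rfl fun a _ => Finset.sum_congr rfl fun b _ => by ring
    rw [h2] at h1
    have h3 : ∀ z, ∑ y, A y z * B y w = 1 + if z = w then 1 else 0 := by
      intro z
      rw [col_rel h hk z w]
      split_ifs <;> norm_num
    simp only [h3, mul_add, mul_one, mul_ite, mul_zero, Finset.sum_add_distrib, Finset.sum_ite_eq', mem_univ, if_true] at h1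
    linarith
  have h4 : ∑ z, x z = - (n * ∑ z, x z) := by
    conv_lhs => rw [Finset.sum_congr rfl fun w _ => key w]
    simp
  have h5 : ((n : ℤ) + 1) * ∑ z, x z = 0 := by linarith
  rcases mul_eq_zero.mp h5 with h6 | h6
  · have : (0 : ℤ) ≤ n := Int.natCast_nonneg n
    omega
  · rw [key z, h6, neg_zero]

theorem sum_lines (h : IsLehmanPair n 3 s A B) (x : Fin n → ℤ) :
    ∑ y, ∑ z, A y z * x z = 3 * ∑ z, x z := by
  rw [Finset.sum_comm, Finset.mul_sum]
  refine Finset.sum_congr rfl fun z _ => ?_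
  rw [← Finset.sum_mul, h.A_col z]
  norm_num

end Pool.Agent.MP_a127ec_co
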