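import Pool.Agent.Lib.MP_a127ec_co.AbGroup
import Pool.Agent.Lib.MP_a127ec_co.Tri

/-!
# Commutative groups of automorphisms with at most two orbits of rows act freely
-/

open Matrix Finset

namespace Pool.Agent.MP_a127ec_co.Ab

open Pool.Agent.MP_a127ec_co

variable {n s : ℕ} {A B : Matrix (Fin n) (Fin n) ℤ}

/-- An automorphism fixes as many columns as rows. -/
theorem fix_card (h : IsLehmanPair n 3 s A B) (hk : (3 : ℤ) * s - n = 1) {σ τ : Equiv.Perm (Fin n)}
    (hA : ∀ i x, A (σ i) (τ x) = A i x) :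
    (univ.filter fun x => τ x = x).card = (univ.filter fun i => σ i = i).card := by
  have hk' : ((3 : ℕ) : ℤ) * s - n = 1 := by exact_mod_cast hk
  have hB := B_inv h hk hA
  have h1 : ∑ x, ∑ i, A i x * B i (τ x) = ∑ i, ∑ x, A (σ i) x * B i x := by
    rw [Finset.sum_comm, ← Equiv.sum_comp σ (fun i => ∑ x, A i x * B i (τ x))]
    refine Finset.sum_congr rfl fun i _ => ?_
    refine Finset.sum_congr rfl fun x _ => ?_
    rw [hB]
  have h2 : ∑ x, ∑ i, A i x * B i (τ x) = n + (univ.filter fun x => τ x = x).card := by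
    have : ∀ x, ∑ i, A i x * B i (τ x) = 1 + if τ x = x then (1 : ℤ) else 0 := by
      intro x
      rw [col_rel h hk']
      by_cases hx : τ x = x
      · rw [if_pos hx.symm, if_pos hx]; norm_num
      · rw [if_neg (fun k => hx k.symm), if_neg hx]; norm_num
    rw [Finset.sum_congr rfl fun x _ => this x, Finset.sum_add_distrib]
    simp
  have h3 : ∑ i, ∑ x, A (σ i) x * B i x = n + (univ.filter fun i => σ i = i).card := by
    have : ∀ i, ∑ x, A (σ i) x * B i x = 1 + if σ i = i then (1 : ℤ) else 0 := by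
      intro i
      rw [row_rel h hk']
      split_ifs <;> norm_num
    rw [Finset.sum_congr rfl fun i _ => this i, Finset.sum_add_distrib]
    simp
  rw [h2, h3] at h1
  exact_mod_cast add_left_cancel h1

/-- `A` is not the direct sum of two square blocks. -/
theorem no_split (h : IsLehmanPair n 3 s A B) (hk : (3 : ℤ) * s - n = 1) (S C : Finset (Fin n))
    (hc : C.card = S.card) (hSC : ∀ i ∈ S, ∀ x, A i x = 1 → x ∈ C) {i j : Fin n} (hi : i ∈ S) (hj : j ∉ S) :
    False := by
  classical
  have hk' : ((3 : ℕ) : ℤ) * s - n = 1 := by exact_mod_cast hk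
  set t : Fin n → ℤ := fun x => ∑ i ∈ S, A i x with ht
  have t0 : ∀ x, x ∉ C → t x = 0 := fun x hx =>
    Finset.sum_eq_zero fun i hi => (h.A_zero_one i x).resolve_right fun k => hx (hSC i hi x k)
  have t3 : ∀ x, t x ≤ 3 := fun x => by
    have := h.A_col x
    calc t x ≤ ∑ i, A i x := Finset.sum_le_univ_sum_of_nonneg
            (fun i => by rcases h.A_zero_one i x with k | k <;> rw [k] <;> norm_num)
      _ = 3 := by exact_mod_cast this
  have tot : ∑ x, t x = 3 * S.card := by
    simp only [ht]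
    rw [Finset.sum_comm, Finset.sum_congr rfl fun i _ => h.A_row i]
    simp
    ring
  have totC : ∑ x ∈ C, t x = 3 * S.card := by
    rw [← tot]
    exact Finset.sum_subset (subset_univ _) (fun x _ hx => t0 x hx)
  have hz : ∑ x ∈ C, (3 - t x) = 0 := by
    rw [Finset.sum_sub_distrib, totC, Finset.sum_const, hc]
    simp
    ring
  have tC : ∀ x ∈ C, t x = 3 := fun x hx => by
    have := (Finset.sum_eq_zero_iff_of_nonneg (fun x _ => by have := t3 x; linarith)).mp hz x hx
    linarith
  have key : ∀ k, ∑ i ∈ S, (if i = k then 2 else 1 : ℤ) = 3 * ∑ x ∈ C, B k x := by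
    intro k
    have e1 : ∑ i ∈ S, (if i = k then 2 else 1 : ℤ) = ∑ i ∈ S, ∑ x, A i x * B k x :=
      Finset.sum_congr rfl fun i _ => (row_rel h hk' i k).symm
    rw [e1, Finset.sum_comm]
    have e2 : ∀ x, ∑ i ∈ S, A i x * B k x = t x * B k x := fun x => (Finset.sum_mul _ _ _).symm
    rw [Finset.sum_congr rfl fun x _ => e2 x,
      ← Finset.sum_subset (subset_univ C) (fun x _ hx => by rw [t0 x hx, zero_mul]), Finset.mul_sum]
    exact Finset.sum_congr rfl fun x hx => by rw [tC x hx]
  have k1 := key i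
  have k2 := key j
  have e1 : ∑ i' ∈ S, (if i' = i then 2 else 1 : ℤ) = S.card + 1 := by
    have : ∀ i' ∈ S, (if i' = i then 2 else 1 : ℤ) = 1 + if i' = i then 1 else 0 := by
      intro i' _
      split_ifs <;> norm_num
    rw [Finset.sum_congr rfl this, Finset.sum_add_distrib, Finset.sum_ite_eq' S i, if_pos hi]
    simp
  have e2 : ∑ i' ∈ S, (if i' = j then 2 else 1 : ℤ) = S.card := by
    have : ∀ i' ∈ S, (if i' = j then 2 else 1 : ℤ) = 1 := by
      intro i' hi'
      have hne : i' ≠ j := by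
        rintro rfl
        exact hj hi'
      rw [if_neg hne]
    rw [Finset.sum_congr rfl this]
    simp
  rw [e1] at k1
  rw [e2] at k2
  omega

/-- the three columns of a row -/
theorem pts (h : IsLehmanPair n 3 s A B) (hk : (3 : ℤ) * s - n = 1) (i : Fin n) :
    ∃ w x y : Fin n, x ≠ y ∧ A i w = 1 ∧ A i x = 1 ∧ A i y = 1 ∧ B i w = 0 ∧ B i x = 1 ∧ B i y = 1 ∧
      ∀ z, A i z = 1 → z = w ∨ z = x ∨ z = y := by
  have hk' : ((3 : ℕ) : ℤ) * s - n = 1 := by exact_mod_cast hk
  obtain ⟨a, b, c, hab, hac, hbc, ha, hb, hc, hz, hf⟩ := row3 h i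
  have h1 := row_rel h hk' i i
  rw [hf, if_pos rfl] at h1
  rcases h.B_zero_one i a with ka | ka <;> rcases h.B_zero_one i b with kb | kb <;>
    rcases h.B_zero_one i c with kc | kc <;> rw [ka, kb, kc] at h1 <;> norm_num at h1
  · exact ⟨a, b, c, hbc, ha, hb, hc, ka, kb, kc, hz⟩
  · refine ⟨b, a, c, hac, hb, ha, hc, kb, ka, kc, fun z k => ?_⟩
    rcases hz z k with k | k | k
    · exact Or.inr (Or.inl k)
    · exact Or.inl k
    · exact Or.inr (Or.inr k)
  · refine ⟨c, a, b, hab, hc, ha, hb, kc, ka, kb, fun z k => ?_⟩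
    rcases hz z k with k | k | k
    · exact Or.inr (Or.inl k)
    · exact Or.inr (Or.inr k)
    · exact Or.inl k

/-- an automorphism fixing a row fixes its column outside `B` and fixes or exchanges the other two -/
theorem pts_fix (h : IsLehmanPair n 3 s A B) (hk : (3 : ℤ) * s - n = 1) {σ τ : Equiv.Perm (Fin n)}
    (hA : ∀ i x, A (σ i) (τ x) = A i x) {i w x y : Fin n} (hi : σ i = i) (hxy : x ≠ y) (aw : A i w = 1)
    (ax : A i x = 1) (ay : A i y = 1) (bw : B i w = 0) (bx : B i x = 1) (bY : B i y = 1)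
    (hz : ∀ z, A i z = 1 → z = w ∨ z = x ∨ z = y) :
    τ w = w ∧ ((τ x = x ∧ τ y = y) ∨ (τ x = y ∧ τ y = x)) := by
  have hB := B_inv h hk hA
  have a' : ∀ z, A i (τ z) = A i z := fun z => by have := hA i z; rwa [hi] at this
  have b' : ∀ z, B i (τ z) = B i z := fun z => by have := hB i z; rwa [hi] at this
  have q : ∀ z, A i z = 1 → B i z = 1 → τ z = x ∨ τ z = y := by
    intro z h1 h2
    rcases hz (τ z) (by rw [a', h1]) with k | k | k
    · have := b' z
      rw [k, bw, h2] at this
      norm_num at this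
    · exact Or.inl k
    · exact Or.inr k
  have hw : τ w = w := by
    rcases hz (τ w) (by rw [a', aw]) with k | k | k
    · exact k
    · have := b' w
      rw [k, bw, bx] at this
      norm_num at this
    · have := b' w
      rw [k, bw, bY] at this
      norm_num at this
  refine ⟨hw, ?_⟩
  rcases q x ax bx with k | k <;> rcases q y ay bY with k' | k'
  · exact absurd (τ.injective (k.trans k'.symm)) hxy
  · exact Or.inl ⟨k, k'⟩
  · exact Or.inr ⟨k, k'⟩
  · exact absurd (τ.injective (k.trans k'.symm)) hxy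

section grp

variable {G : Type*} [CommGroup G]

theorem comm_fix (ρ : G →* Equiv.Perm (Fin n)) {κ : G} {i : Fin n} (g : G) (hi : ρ κ i = i) :
    ρ κ (ρ g i) = ρ g i := by
  rw [← Equiv.Perm.mul_apply, ← map_mul, mul_comm, map_mul, Equiv.Perm.mul_apply, hi]

theorem inv_fix (ρ : G →* Equiv.Perm (Fin n)) {i j : Fin n} {g : G} (hg : ρ g i = j) : ρ g⁻¹ j = i := by
  rw [← hg, ← Equiv.Perm.mul_apply, ← map_mul, inv_mul_cancel, map_one]
  rfl

theorem one_of_both (ρ : G →* Equiv.Perm (Fin n)) (hinj : ∀ g, ρ g = 1 → g = 1) {i₁ i₂ : Fin n}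
    (ho : ∀ i, ∃ g, ρ g i₁ = i ∨ ρ g i₂ = i) {κ : G} (h1 : ρ κ i₁ = i₁) (h2 : ρ κ i₂ = i₂) : κ = 1 := by
  apply hinj
  ext i
  obtain ⟨g, hg | hg⟩ := ho i
  · rw [← hg, comm_fix ρ g h1]; rfl
  · rw [← hg, comm_fix ρ g h2]; rfl

theorem fix_iff (ρ : G →* Equiv.Perm (Fin n)) (hinj : ∀ g, ρ g = 1 → g = 1) {i₁ i₂ : Fin n}
    (ho : ∀ i, ∃ g, ρ g i₁ = i ∨ ρ g i₂ = i) {κ : G} (hκ : κ ≠ 1) (h1 : ρ κ i₁ = i₁) {i : Fin n} :
    ρ κ i = i ↔ ∃ g, ρ g i₁ = i := by
  constructor
  · intro hi
    obtain ⟨g, hg | hg⟩ := ho i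
    · exact ⟨g, hg⟩
    · exfalso
      apply hκ
      refine one_of_both ρ hinj ho h1 ?_
      have := comm_fix ρ g⁻¹ hi
      rwa [inv_fix ρ hg] at this
  · rintro ⟨g, hg⟩
    rw [← hg, comm_fix ρ g h1]

/-- a nontrivial automorphism fixing `i₁` exchanges two columns of the row `i₁` -/
theorem swap (h : IsLehmanPair n 3 s A B) (hk : (3 : ℤ) * s - n = 1) (ρ τ : G →* Equiv.Perm (Fin n))
    (hA : ∀ g i x, A (ρ g i) (τ g x) = A i x) (hinj : ∀ g, ρ g = 1 → g = 1) {i₁ i₂ : Fin n}
    (ho : ∀ i, ∃ g, ρ g i₁ = i ∨ ρ g i₂ = i) {κ : G} (hκ : κ ≠ 1) (h1 : ρ κ i₁ = i₁) {w x y : Fin n}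
    (hxy : x ≠ y) (aw : A i₁ w = 1)
    (ax : A i₁ x = 1) (ay : A i₁ y = 1) (bw : B i₁ w = 0) (bx : B i₁ x = 1) (bY : B i₁ y = 1)
    (hz : ∀ z, A i₁ z = 1 → z = w ∨ z = x ∨ z = y) : τ κ x = y ∧ τ κ y = x := by
  obtain ⟨hw, ⟨hx, hy⟩ | hsw⟩ := pts_fix h hk (hA κ) h1 hxy aw ax ay bw bx bY hz
  swap
  · exact hsw
  exfalso
  refine no_split h hk (univ.filter fun i => ρ κ i = i) (univ.filter fun x => τ κ x = x)
    (fix_card h hk (hA κ)) ?_ (i := i₁) (j := i₂) (by simp [h1]) ?_
  · intro i hi z haz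
    simp only [mem_filter, mem_univ, true_and] at hi ⊢
    obtain ⟨g, hg⟩ := (fix_iff ρ hinj ho hκ h1).mp hi
    have e1 : A i₁ (τ g⁻¹ z) = 1 := by
      have := hA g⁻¹ i z
      rwa [inv_fix ρ hg, haz] at this
    have e2 : τ κ (τ g⁻¹ z) = τ g⁻¹ z := by
      rcases hz _ e1 with k | k | k <;> rw [k] <;> assumption
    have e3 := comm_fix τ g e2
    have e4 : τ g (τ g⁻¹ z) = z := by
      rw [← Equiv.Perm.mul_apply, ← map_mul, mul_inv_cancel, map_one]
      rfl
    rwa [e4] at e3
  · simp only [mem_filter, mem_univ, true_and]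
    exact fun k => hκ (one_of_both ρ hinj ho h1 k)

theorem not_fix [Finite G] (h : IsLehmanPair n 3 s A B) (hk : (3 : ℤ) * s - n = 1) (h4 : NoFour A)
    (ρ τ : G →* Equiv.Perm (Fin n))
    (hA : ∀ g i x, A (ρ g i) (τ g x) = A i x) (hinj : ∀ g, ρ g = 1 → g = 1) {i₁ i₂ : Fin n}
    (ho : ∀ i, ∃ g, ρ g i₁ = i ∨ ρ g i₂ = i) {κ : G} (hκ : κ ≠ 1) (h1 : ρ κ i₁ = i₁) : False := by
  classical
  have _ : Fintype G := Fintype.ofFinite G
  obtain ⟨w, x, y, hxy, aw, ax, ay, bw, bx, bY, hz⟩ := pts h hk i₁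
  have sw : ∀ g : G, g ≠ 1 → ρ g i₁ = i₁ → τ g x = y ∧ τ g y = x := fun g hg hi =>
    swap h hk ρ τ hA hinj ho hg hi hxy aw ax ay bw bx bY hz
  have ho' : ∀ i, ∃ g, ρ g i₂ = i ∨ ρ g i₁ = i := fun i => by
    obtain ⟨g, hg⟩ := ho i
    exact ⟨g, hg.symm⟩
  have fκ := fun i => fix_iff (i := i) ρ hinj ho hκ h1
  by_cases hl : ∃ l : G, l ≠ 1 ∧ ρ l i₂ = i₂
  · obtain ⟨l, hl, h2⟩ := hl
    have fl := fun i => fix_iff (i := i) ρ hinj ho' hl h2
    have hl1 : ρ l i₁ ≠ i₁ := fun k => hl (one_of_both ρ hinj ho k h2)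
    have hκ2 : ρ κ i₂ ≠ i₂ := fun k => hκ (one_of_both ρ hinj ho h1 k)
    -- no column is fixed by both
    have hdis : Disjoint (univ.filter fun x => τ κ x = x) (univ.filter fun x => τ l x = x) := by
      rw [Finset.disjoint_left]
      intro z hz1 hz2
      simp only [mem_filter, mem_univ, true_and] at hz1 hz2
      have hzz : τ (κ * l) z = z := by rw [map_mul, Equiv.Perm.mul_apply, hz2, hz1]
      have e1 := fix_card h hk (hA (κ * l))
      have e2 : (univ.filter fun i => ρ (κ * l) i = i) = ∅ := by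
        rw [Finset.filter_eq_empty_iff]
        intro i _ hi
        obtain ⟨g, hg | hg⟩ := ho i
        · have e3 := comm_fix ρ g⁻¹ hi
          rw [inv_fix ρ hg, mul_comm, map_mul, Equiv.Perm.mul_apply, h1] at e3
          exact hl1 e3
        · have e3 := comm_fix ρ g⁻¹ hi
          rw [inv_fix ρ hg, map_mul, Equiv.Perm.mul_apply, h2] at e3
          exact hκ2 e3
      rw [e2, Finset.card_empty, Finset.card_eq_zero] at e1
      have : z ∈ (univ.filter fun x => τ (κ * l) x = x) := by
        simp only [mem_filter, mem_univ, true_and]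
        exact hzz
      rw [e1] at this
      exact absurd this (Finset.notMem_empty z)
    have hcard : (univ.filter fun i => ρ κ i = i).card + (univ.filter fun i => ρ l i = i).card = n := by
      rw [← Finset.card_union_of_disjoint]
      · have : (univ.filter fun i => ρ κ i = i) ∪ (univ.filter fun i => ρ l i = i) = univ := by
          ext i
          simp only [mem_union, mem_filter, mem_univ, true_and, iff_true]
          obtain ⟨g, hg | hg⟩ := ho i
          · exact Or.inl ((fκ i).mpr ⟨g, hg⟩)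
          · exact Or.inr ((fl i).mpr ⟨g, hg⟩)
        rw [this, Finset.card_univ, Fintype.card_fin]
      · rw [Finset.disjoint_left]
        intro i hi1 hi2
        simp only [mem_filter, mem_univ, true_and] at hi1 hi2
        obtain ⟨g, hg⟩ := (fl i).mp hi2
        have := comm_fix ρ g⁻¹ hi1
        rw [inv_fix ρ hg] at this
        exact hκ2 this
    have huniv : (univ.filter fun x => τ κ x = x) ∪ (univ.filter fun x => τ l x = x) = univ := by
      rw [← Finset.card_eq_iff_eq_univ, Finset.card_union_of_disjoint hdis, fix_card h hk (hA κ),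
        fix_card h hk (hA l), hcard, Fintype.card_fin]
    have fx : ∀ z, τ κ z ≠ z → τ l z = z := by
      intro z hz
      have : z ∈ (univ.filter fun x => τ κ x = x) ∪ (univ.filter fun x => τ l x = x) := by
        rw [huniv]; exact mem_univ z
      simp only [mem_union, mem_filter, mem_univ, true_and] at this
      exact this.resolve_left hz
    have hs := sw κ hκ h1
    have lx := fx x (by rw [hs.1]; exact hxy.symm)
    have ly := fx y (by rw [hs.2]; exact hxy)
    refine h4 i₁ (ρ l i₁) x y hl1.symm hxy ax ay ?_ ?_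
    · have := hA l i₁ x
      rwa [lx, ax] at this
    · have := hA l i₁ y
      rwa [ly, ay] at this
  · push Not at hl
    -- the stabilizer of `i₁` is `{1, κ}`
    have inv2 : ∀ g : G, g ≠ 1 → ρ g i₁ = i₁ → g * κ = 1 := by
      intro g hg hgi
      by_contra hne
      have e1 : ρ (g * κ) i₁ = i₁ := by rw [map_mul, Equiv.Perm.mul_apply, h1, hgi]
      have e2 := (sw _ hne e1).1
      rw [map_mul, Equiv.Perm.mul_apply, (sw κ hκ h1).1, (sw g hg hgi).2] at e2
      exact hxy e2
    have st : ∀ g : G, ρ g i₁ = i₁ → g = 1 ∨ g = κ := by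
      intro g hgi
      by_cases hg : g = 1
      · exact Or.inl hg
      · exact Or.inr (mul_right_cancel ((inv2 g hg hgi).trans (inv2 κ hκ h1).symm))
    have c1 : Fintype.card G = 2 * (univ.filter fun i => ρ κ i = i).card := by
      rw [← Finset.card_univ, Finset.card_eq_sum_card_fiberwise (f := fun g : G => ρ g i₁)
        (t := univ.filter fun i => ρ κ i = i)]
      · rw [Finset.sum_congr rfl (g := fun _ => 2), Finset.sum_const, smul_eq_mul, mul_comm]
        intro i hi
        simp only [mem_filter, mem_univ, true_and] at hi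
        obtain ⟨g, hg⟩ := (fκ i).mp hi
        have : (univ.filter fun g' : G => ρ g' i₁ = i) = {g, g * κ} := by
          ext g'
          simp only [mem_filter, mem_univ, true_and, mem_insert, mem_singleton]
          constructor
          · intro hg'
            have e1 : ρ (g⁻¹ * g') i₁ = i₁ := by
              rw [map_mul, Equiv.Perm.mul_apply, hg', inv_fix ρ hg]
            rcases st _ e1 with k | k
            · exact Or.inl (inv_mul_eq_one.mp k).symm
            · exact Or.inr (inv_mul_eq_iff_eq_mul.mp k)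
          · rintro (k | k)
            · rw [k, hg]
            · rw [k, map_mul, Equiv.Perm.mul_apply, h1, hg]
        rw [this, Finset.card_pair]
        intro k
        exact hκ (by simpa using k)
      · intro g _
        simp only [coe_filter, mem_univ, true_and, Set.mem_ofPred_eq]
        exact (fκ _).mpr ⟨g, rfl⟩
    have c2 : Fintype.card G = (univ.filter fun i => ¬ ρ κ i = i).card := by
      rw [← Finset.card_univ, Finset.card_eq_sum_card_fiberwise (f := fun g : G => ρ g i₂)
        (t := univ.filter fun i => ¬ ρ κ i = i)]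
      · rw [Finset.sum_congr rfl (g := fun _ => 1), Finset.sum_const, smul_eq_mul, mul_one]
        intro i hi
        simp only [mem_filter, mem_univ, true_and] at hi
        obtain ⟨g, hg⟩ : ∃ g, ρ g i₂ = i := by
          obtain ⟨g, hg | hg⟩ := ho i
          · exact absurd ((fκ i).mpr ⟨g, hg⟩) hi
          · exact ⟨g, hg⟩
        have : (univ.filter fun g' : G => ρ g' i₂ = i) = {g} := by
          ext g'
          simp only [mem_filter, mem_univ, true_and, mem_singleton]
          constructor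
          · intro hg'
            have e1 : ρ (g⁻¹ * g') i₂ = i₂ := by
              rw [map_mul, Equiv.Perm.mul_apply, hg', inv_fix ρ hg]
            by_contra hne
            exact hl (g⁻¹ * g') (fun k => hne (inv_mul_eq_one.mp k).symm) e1
          · intro k
            rw [k, hg]
        rw [this, Finset.card_singleton]
      · intro g _
        simp only [coe_filter, mem_univ, true_and, Set.mem_ofPred_eq]
        intro k
        have := comm_fix ρ g⁻¹ k
        rw [inv_fix ρ rfl] at this
        exact hκ (one_of_both ρ hinj ho h1 this)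
    have c3 := Finset.card_filter_add_card_filter_not (s := (univ : Finset (Fin n))) (fun i => ρ κ i = i)
    rw [Finset.card_univ, Fintype.card_fin] at c3
    omega

end grp

end Pool.Agent.MP_a127ec_co.Ab
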