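import Pool.Agent.Lib.MP_a127ec_co.AbMain

/-!
# The theorem for a multiplicative commutative group and the condition `n < 4 |G|`
-/

open Matrix Finset

namespace Pool.Agent.MP_a127ec_co.Ab

open Pool.Agent.MP_a127ec_co

/-- A free action with `n < 4 |G|` and `3 ∤ n`, `n > 0` has at most two orbits. -/
theorem two_orbits {n : ℕ} {G : Type*} [Group G] (ρ : G →* Equiv.Perm (Fin n))
    (hf : ∀ g, g ≠ 1 → ∀ i, ρ g i ≠ i) (h3 : ¬ 3 ∣ n) (hlt : n < 4 * Nat.card G) :
    ∃ i₁ i₂, ∀ i, ∃ g, ρ g i₁ = i ∨ ρ g i₂ = i := by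
  classical
  let _ : MulAction G (Fin n) := MulAction.compHom (Fin n) ρ
  have hsm : ∀ (g : G) (i : Fin n), g • i = ρ g i := fun _ _ => rfl
  have hst : ∀ b : Fin n, MulAction.stabilizer G b = ⊥ := by
    intro b
    rw [eq_bot_iff]
    intro g hg
    rw [MulAction.mem_stabilizer_iff, hsm] at hg
    by_contra hne
    exact hf g (fun k => hne (by rw [k]; exact Subgroup.one_mem _)) b hg
  have e := MulAction.selfEquivOrbitsQuotientProd (G := G) (X := Fin n) hst
  have hcard : n = Nat.card (Quotient (MulAction.orbitRel G (Fin n))) * Nat.card G := by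
    have := Nat.card_congr e
    rwa [Nat.card_prod, Nat.card_eq_fintype_card, Fintype.card_fin] at this
  have hG : 0 < Nat.card G := by omega
  have hq : Nat.card (Quotient (MulAction.orbitRel G (Fin n))) < 4 := by
    by_contra hcon
    push Not at hcon
    have := Nat.mul_le_mul_right (Nat.card G) hcon
    omega
  have hq3 : Nat.card (Quotient (MulAction.orbitRel G (Fin n))) ≠ 3 := by
    intro k
    exact h3 ⟨Nat.card G, by rw [k] at hcard; exact hcard⟩
  have hq0 : Nat.card (Quotient (MulAction.orbitRel G (Fin n))) ≠ 0 := by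
    intro k
    rw [k, zero_mul] at hcard
    exact h3 (by rw [hcard]; exact dvd_zero 3)
  have key : ∃ x y : Quotient (MulAction.orbitRel G (Fin n)), ∀ z, x = z ∨ y = z := by
    have h12 : Nat.card (Quotient (MulAction.orbitRel G (Fin n))) = 1 ∨
        Nat.card (Quotient (MulAction.orbitRel G (Fin n))) = 2 := by omega
    rcases h12 with h | h
    · obtain ⟨hs, ⟨x⟩⟩ := Nat.card_eq_one_iff_unique.mp h
      exact ⟨x, x, fun z => Or.inl (Subsingleton.elim _ _)⟩
    · obtain ⟨x, y, -, hxy⟩ := Nat.card_eq_two_iff.mp h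
      refine ⟨x, y, fun z => ?_⟩
      have : z ∈ ({x, y} : Set _) := by rw [hxy]; trivial
      rcases this with hz | hz
      · exact Or.inl hz.symm
      · exact Or.inr hz.symm
  obtain ⟨x, y, hxy⟩ := key
  induction x using Quotient.inductionOn with
  | h i₁ =>
    induction y using Quotient.inductionOn with
    | h i₂ =>
      refine ⟨i₁, i₂, fun i => ?_⟩
      rcases hxy (Quotient.mk _ i) with h | h
      · obtain ⟨g, hg⟩ := MulAction.orbitRel_apply.mp (Quotient.exact h.symm)
        exact ⟨g, Or.inl hg⟩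
      · obtain ⟨g, hg⟩ := MulAction.orbitRel_apply.mp (Quotient.exact h.symm)
        exact ⟨g, Or.inr hg⟩

theorem main {n s : ℕ} {A B : Matrix (Fin n) (Fin n) ℤ} (h : IsLehmanPair n 3 s A B)
    (hk : (3 : ℤ) * s - n = 1) {G : Type*} [CommGroup G] (ρ τ : G →* Equiv.Perm (Fin n))
    (hA : ∀ g i x, A (ρ g i) (τ g x) = A i x) (hf : ∀ g, g ≠ 1 → ∀ i, ρ g i ≠ i)
    (hlt : n < 4 * Nat.card G) : ¬ 6 ≤ (biadjGraph A).egirth := by
  intro hg
  have h4 := noFour_of_girth hg
  have h3 : ¬ 3 ∣ n := by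
    rintro ⟨q, hq⟩
    omega
  obtain ⟨i₁, i₂, ho⟩ := two_orbits ρ hf h3 hlt
  have hfin : Finite G := by
    refine Nat.finite_of_card_ne_zero ?_
    omega
  have _ : Fintype G := Fintype.ofFinite G
  have _ : Fintype (Additive G) := Fintype.ofFinite _
  refine main_add (T := Additive G) h hk h4 (fun t => ρ (Additive.toMul t)) (fun t => τ (Additive.toMul t))
    ?_ ?_ ?_ ?_ (fun g i x => hA _ i x) ?_ i₁ i₂ ?_
  · exact map_one ρ
  · exact map_one τ
  · exact fun s t => map_mul ρ _ _
  · exact fun s t => map_mul τ _ _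
  · exact fun g hg i => hf (Additive.toMul g) (fun k => hg (by simpa using k)) i
  · intro i
    obtain ⟨g, hg⟩ := ho i
    exact ⟨Additive.ofMul g, by simpa using hg⟩

end Pool.Agent.MP_a127ec_co.Ab
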