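import Pool.Agent.Lib.MP_a127ec_co.Six

open Finset Matrix

namespace Pool.Agent.MP_a127ec_co

variable {n s : ℕ} {A B : Matrix (Fin n) (Fin n) ℤ}

@[simp] theorem adj_lr (i j : Fin n) : (biadjGraph A).Adj (.inl i) (.inr j) ↔ A i j = 1 := Iff.rfl
@[simp] theorem adj_rl (i j : Fin n) : (biadjGraph A).Adj (.inr j) (.inl i) ↔ A i j = 1 := Iff.rfl
@[simp] theorem adj_ll (i j : Fin n) : ¬ (biadjGraph A).Adj (.inl i) (.inl j) := fun h => h
@[simp] theorem adj_rr (i j : Fin n) : ¬ (biadjGraph A).Adj (.inr i) (.inr j) := fun h => h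

theorem noFour_of_girth (hg : 6 ≤ (biadjGraph A).egirth) : NoFour A := by
  intro i j x y hij hxy hix hiy hjx hjy
  have a1 : (biadjGraph A).Adj (.inl i) (.inr x) := hix
  have a2 : (biadjGraph A).Adj (.inr x) (.inl j) := hjx
  have a3 : (biadjGraph A).Adj (.inl j) (.inr y) := hjy
  have a4 : (biadjGraph A).Adj (.inr y) (.inl i) := hiy
  let w : (biadjGraph A).Walk (.inl i) (.inl i) :=
    .cons a1 (.cons a2 (.cons a3 (.cons a4 .nil)))
  have hc : w.IsCycle := by
    rw [SimpleGraph.Walk.cons_isCycle_iff]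
    constructor
    · simp [SimpleGraph.Walk.cons_isPath_iff, hxy, Ne.symm hij]
    · simp [hij, hxy]
  have h1 := SimpleGraph.le_egirth.mp hg _ w hc
  have h2 : w.length = 4 := rfl
  rw [h2] at h1
  exact absurd h1 (by decide)

/-- The row/column colouring. -/
def rowCol (A : Matrix (Fin n) (Fin n) ℤ) : (biadjGraph A).Coloring Bool :=
  SimpleGraph.Coloring.mk (fun v => v.isLeft) (by
    intro u v h
    rcases u with i | i <;> rcases v with j | j
    · exact h.elim
    · simp
    · simp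
    · exact h.elim)

theorem even_cycle {a : Fin n ⊕ Fin n} (w : (biadjGraph A).Walk a a) : Even w.length :=
  ((rowCol A).even_length_iff_congr w).mpr Iff.rfl

theorem hexagon_of_cycle {a : Fin n ⊕ Fin n} (w : (biadjGraph A).Walk a a) (hc : w.IsCycle)
    (hl : w.length = 6) :
    ∃ i j k x y z : Fin n, i ≠ j ∧ j ≠ k ∧ k ≠ i ∧ x ≠ y ∧ y ≠ z ∧ z ≠ x ∧
      A i x = 1 ∧ A j x = 1 ∧ A j y = 1 ∧ A k y = 1 ∧ A k z = 1 ∧ A i z = 1 := by
  have hinj := hc.getVert_injOn
  have hne : ∀ p q : ℕ, 1 ≤ p → p ≤ 6 → 1 ≤ q → q ≤ 6 → p ≠ q → w.getVert p ≠ w.getVert q := by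
    intro p q h1 h2 h3 h4 h5 h6
    exact h5 (hinj (by rw [Set.mem_ofPred_eq]; omega) (by rw [Set.mem_ofPred_eq]; omega) h6)
  have e0 : w.getVert 0 = w.getVert 6 := by
    rw [w.getVert_zero, ← hl, w.getVert_length]
  have a0 := w.adj_getVert_succ (i := 0) (by omega)
  have a1 := w.adj_getVert_succ (i := 1) (by omega)
  have a2 := w.adj_getVert_succ (i := 2) (by omega)
  have a3 := w.adj_getVert_succ (i := 3) (by omega)
  have a4 := w.adj_getVert_succ (i := 4) (by omega)
  have a5 := w.adj_getVert_succ (i := 5) (by omega)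
  rw [e0] at a0
  norm_num at a0 a1 a2 a3 a4 a5
  have n13 := hne 1 3 (by norm_num) (by norm_num) (by norm_num) (by norm_num) (by norm_num)
  have n15 := hne 1 5 (by norm_num) (by norm_num) (by norm_num) (by norm_num) (by norm_num)
  have n35 := hne 3 5 (by norm_num) (by norm_num) (by norm_num) (by norm_num) (by norm_num)
  have n24 := hne 2 4 (by norm_num) (by norm_num) (by norm_num) (by norm_num) (by norm_num)
  have n26 := hne 2 6 (by norm_num) (by norm_num) (by norm_num) (by norm_num) (by norm_num)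
  have n46 := hne 4 6 (by norm_num) (by norm_num) (by norm_num) (by norm_num) (by norm_num)
  generalize w.getVert 1 = v1 at *
  generalize w.getVert 2 = v2 at *
  generalize w.getVert 3 = v3 at *
  generalize w.getVert 4 = v4 at *
  generalize w.getVert 5 = v5 at *
  generalize w.getVert 6 = v6 at *
  rcases v6 with i | x
  · rcases v1 with v1 | x
    · exact (adj_ll _ _ a0).elim
    rcases v2 with j | v2
    swap
    · exact (adj_rr _ _ a1).elim
    rcases v3 with v3 | y
    · exact (adj_ll _ _ a2).elim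
    rcases v4 with k | v4
    swap
    · exact (adj_rr _ _ a3).elim
    rcases v5 with v5 | z
    · exact (adj_ll _ _ a4).elim
    simp only [adj_lr, adj_rl, ne_eq, Sum.inl.injEq, Sum.inr.injEq] at *
    exact ⟨i, j, k, x, y, z, fun e => n26 e.symm, n24, n46, n13, n35, fun e => n15 e.symm,
      a0, a1, a2, a3, a4, a5⟩
  · rcases v1 with i | v1
    swap
    · exact (adj_rr _ _ a0).elim
    rcases v2 with v2 | y
    · exact (adj_ll _ _ a1).elim
    rcases v3 with j | v3
    swap
    · exact (adj_rr _ _ a2).elim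
    rcases v4 with v4 | z
    · exact (adj_ll _ _ a3).elim
    rcases v5 with k | v5
    swap
    · exact (adj_rr _ _ a4).elim
    simp only [adj_lr, adj_rl, ne_eq, Sum.inl.injEq, Sum.inr.injEq] at *
    exact ⟨i, j, k, y, z, x, n13, n35, fun e => n15 e.symm, n24, n46, fun e => n26 e.symm,
      a1, a2, a3, a4, a5, a0⟩

theorem girth_eight (h : IsLehmanPair n 3 s A B) (hk : (3 : ℤ) * s - n = 1)
    (hg : 6 ≤ (biadjGraph A).egirth) : 8 ≤ (biadjGraph A).egirth := by
  have h4 := noFour_of_girth hg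
  rw [SimpleGraph.le_egirth]
  intro a w hc
  have h1 := SimpleGraph.le_egirth.mp hg _ w hc
  have h6 : 6 ≤ w.length := by exact_mod_cast h1
  have hev := even_cycle w
  have hne : w.length ≠ 6 := by
    intro hl
    obtain ⟨i, j, k, x, y, z, hij, hjk, hki, hxy, hyz, hzx, e1, e2, e3, e4, e5, e6⟩ :=
      hexagon_of_cycle w hc hl
    exact no_hexagon h hk h4 hij hjk hki hxy hyz hzx e1 e2 e3 e4 e5 e6
  have h8 : 8 ≤ w.length := by
    obtain ⟨m, hm⟩ := hev
    omega
  exact_mod_cast h8

end Pool.Agent.MP_a127ec_co
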