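import Pool.Agent.Lib.MP_a127ec_co.AbBlocks
import Pool.Agent.Lib.MP_a127ec_co.Graph

/-!
# Lehman graphs with an abelian group of automorphisms with at most two orbits
-/

open Matrix Finset

namespace Pool.Agent.MP_a127ec_co.Ab

open Pool.Agent.MP_a127ec_co

variable {n s : ℕ} {A B : Matrix (Fin n) (Fin n) ℤ}

/-- `B` is determined by `A`, so it has the same automorphisms. -/
theorem B_inv (h : IsLehmanPair n 3 s A B) (hk : (3 : ℤ) * s - n = 1) {σ τ : Equiv.Perm (Fin n)}
    (hA : ∀ i x, A (σ i) (τ x) = A i x) (i x : Fin n) : B (σ i) (τ x) = B i x := by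
  have hk' : ((3 : ℕ) : ℤ) * s - n = 1 := by exact_mod_cast hk
  have h1 : ∀ i j, ∑ x, A i x * (B (σ j) (τ x) - B j x) = 0 := by
    intro i j
    simp only [mul_sub, Finset.sum_sub_distrib]
    have e1 : ∑ x, A i x * B (σ j) (τ x) = ∑ x, A (σ i) x * B (σ j) x := by
      rw [← Equiv.sum_comp τ (fun x => A (σ i) x * B (σ j) x)]
      exact Finset.sum_congr rfl fun x _ => by rw [hA]
    rw [e1, row_rel h hk', row_rel h hk']
    by_cases hij : i = j
    · simp [hij]
    · rw [if_neg hij, if_neg (fun k => hij (σ.injective k)), sub_self]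
  have h2 : ∑ y, (B (σ i) (τ y) - B i y) = 0 := by
    rw [Finset.sum_sub_distrib, Equiv.sum_comp τ (fun x => B (σ i) x), h.B_row, h.B_row, sub_self]
  have h3 : ∑ y, (B (σ i) (τ y) - B i y) * ∑ j, A j y * B j x = B (σ i) (τ x) - B i x := by
    have e : ∀ y, (B (σ i) (τ y) - B i y) * ∑ j, A j y * B j x =
        (B (σ i) (τ y) - B i y) + if y = x then (B (σ i) (τ y) - B i y) else 0 := by
      intro y
      rw [col_rel h hk']
      split_ifs <;> ring
    rw [Finset.sum_congr rfl fun y _ => e y, Finset.sum_add_distrib, h2, zero_add]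
    simp
  have h4 : ∑ y, (B (σ i) (τ y) - B i y) * ∑ j, A j y * B j x = 0 := by
    simp only [Finset.mul_sum]
    rw [Finset.sum_comm]
    refine Finset.sum_eq_zero fun j _ => ?_
    have : ∑ y, (B (σ i) (τ y) - B i y) * (A j y * B j x) =
        (∑ y, A j y * (B (σ i) (τ y) - B i y)) * B j x := by
      rw [Finset.sum_mul]
      exact Finset.sum_congr rfl fun y _ => by ring
    rw [this, h1, zero_mul]
  rw [h3] at h4
  exact sub_eq_zero.mp h4

/-- An automorphism fixes as many columns as rows. -/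
theorem fix_eq (h : IsLehmanPair n 3 s A B) (hk : (3 : ℤ) * s - n = 1) {σ τ : Equiv.Perm (Fin n)}
    (hA : ∀ i x, A (σ i) (τ x) = A i x) (hσ : ∀ i, σ i ≠ i) (x : Fin n) : τ x ≠ x := by
  have hk' : ((3 : ℕ) : ℤ) * s - n = 1 := by exact_mod_cast hk
  have hB := B_inv h hk hA
  have h1 : ∑ x, ∑ i, A i x * B i (τ x) = ∑ i, ∑ x, A (σ i) x * B i x := by
    rw [Finset.sum_comm, ← Equiv.sum_comp σ (fun i => ∑ x, A i x * B i (τ x))]
    refine Finset.sum_congr rfl fun i _ => ?_
    refine Finset.sum_congr rfl fun x _ => ?_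
    rw [hB]
  have h2 : ∑ x, ∑ i, A i x * B i (τ x) = n + ∑ x, if x = τ x then (1 : ℤ) else 0 := by
    have : ∀ x, ∑ i, A i x * B i (τ x) = 1 + if x = τ x then (1 : ℤ) else 0 := by
      intro x
      rw [col_rel h hk']
      split_ifs <;> norm_num
    rw [Finset.sum_congr rfl fun x _ => this x, Finset.sum_add_distrib]
    simp
  have h3 : ∑ i, ∑ x, A (σ i) x * B i x = n := by
    have : ∀ i, ∑ x, A (σ i) x * B i x = 1 := by
      intro i
      rw [row_rel h hk', if_neg (hσ i)]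
    rw [Finset.sum_congr rfl fun i _ => this i]
    simp
  rw [h2, h3] at h1
  have h4 : ∑ x, (if x = τ x then (1 : ℤ) else 0) = 0 := by linarith
  intro hx
  have h5 := (Finset.sum_eq_zero_iff_of_nonneg fun x _ => by split_ifs <;> norm_num).mp h4 x (Finset.mem_univ x)
  rw [if_pos hx.symm] at h5
  exact one_ne_zero h5

section act

variable {T : Type*} [AddCommGroup T] [Fintype T]

/-- a free action with base points `c 0`, `c 1` in different orbits, `n = 2 |T|` -/
theorem two_bij (ρ : T → Equiv.Perm (Fin n)) (h0 : ρ 0 = 1) (ha : ∀ s t, ρ (s + t) = ρ s * ρ t)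
    (hf : ∀ g, g ≠ 0 → ∀ i, ρ g i ≠ i) (c : Fin 2 → Fin n) (hc : ∀ g, ρ g (c 0) ≠ c 1)
    (hn : 2 * Fintype.card T = n) :
    Function.Bijective (fun z : Fin 2 × T => ρ (-z.2) (c z.1)) := by
  have inj : Function.Injective (fun z : Fin 2 × T => ρ (-z.2) (c z.1)) := by
    have same : ∀ (i : Fin n) (s t : T), ρ (-s) i = ρ (-t) i → s = t := by
      intro i s t h
      by_contra hne
      refine hf (t - s) (sub_ne_zero.mpr (Ne.symm hne)) i ?_
      have e : ρ (t - s) = ρ t * ρ (-s) := by rw [← ha]; congr 1; abel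
      rw [e, Equiv.Perm.mul_apply, h, ← Equiv.Perm.mul_apply, ← ha, add_neg_cancel, h0]
      rfl
    have diff : ∀ s t : T, ρ (-s) (c 0) ≠ ρ (-t) (c 1) := by
      intro s t h
      apply hc (t - s)
      have e : ρ (t - s) = ρ t * ρ (-s) := by rw [← ha]; congr 1; abel
      rw [e, Equiv.Perm.mul_apply, h, ← Equiv.Perm.mul_apply, ← ha, add_neg_cancel, h0]
      rfl
    rintro ⟨i, s⟩ ⟨j, t⟩ h
    fin_cases i <;> fin_cases j
    · exact Prod.ext rfl (same _ _ _ h)
    · exact absurd h (diff s t)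
    · exact absurd h.symm (diff t s)
    · exact Prod.ext rfl (same _ _ _ h)
  refine (Fintype.bijective_iff_injective_and_card _).mpr ⟨inj, ?_⟩
  simp [hn]

theorem one_bij (ρ : T → Equiv.Perm (Fin n)) (h0 : ρ 0 = 1) (ha : ∀ s t, ρ (s + t) = ρ s * ρ t)
    (hf : ∀ g, g ≠ 0 → ∀ i, ρ g i ≠ i) (c : Fin n) (hn : Fintype.card T = n) :
    Function.Bijective (fun z : T => ρ (-z) c) := by
  refine (Fintype.bijective_iff_injective_and_card _).mpr ⟨?_, by simp [hn]⟩
  intro s t h
  by_contra hne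
  refine hf (t - s) (sub_ne_zero.mpr (Ne.symm hne)) c ?_
  have e : ρ (t - s) = ρ t * ρ (-s) := by rw [← ha]; congr 1; abel
  have h' : ρ (-s) c = ρ (-t) c := h
  rw [e, Equiv.Perm.mul_apply, h', ← Equiv.Perm.mul_apply, ← ha, add_neg_cancel, h0]
  rfl

/-- The theorem for an additively written group. -/
theorem main_add (h : IsLehmanPair n 3 s A B) (hk : (3 : ℤ) * s - n = 1) (h4 : NoFour A)
    (ρ τ : T → Equiv.Perm (Fin n)) (ρ0 : ρ 0 = 1) (τ0 : τ 0 = 1)
    (ρa : ∀ s t, ρ (s + t) = ρ s * ρ t) (τa : ∀ s t, τ (s + t) = τ s * τ t)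
    (hA : ∀ g i x, A (ρ g i) (τ g x) = A i x) (hf : ∀ g, g ≠ 0 → ∀ i, ρ g i ≠ i)
    (i₁ i₂ : Fin n) (horb : ∀ i, ∃ g, ρ g i₁ = i ∨ ρ g i₂ = i) : False := by
  classical
  have hk' : ((3 : ℕ) : ℤ) * s - n = 1 := by exact_mod_cast hk
  have hB : ∀ g i x, B (ρ g i) (τ g x) = B i x := fun g => B_inv h hk (hA g)
  have hτ : ∀ g, g ≠ 0 → ∀ x, τ g x ≠ x := fun g hg => fix_eq h hk (hA g) (hf g hg)
  have trans : ∀ (M : Matrix (Fin n) (Fin n) ℤ), (∀ g i x, M (ρ g i) (τ g x) = M i x) →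
      ∀ (i x : Fin n) (g g' : T), M (ρ (-g) i) (τ (-g') x) = M i (τ (g - g') x) := by
    intro M hM i x g g'
    rw [← hM g (ρ (-g) i), ← Equiv.Perm.mul_apply, ← Equiv.Perm.mul_apply, ← ρa, ← τa, add_neg_cancel, ρ0,
      ← sub_eq_add_neg]
    rfl
  by_cases ho : ∃ g, ρ g i₁ = i₂
  · -- one orbit
    obtain ⟨g₀, hg₀⟩ := ho
    have hsurj : Function.Surjective (fun z : T => ρ (-z) i₁) := by
      intro i
      obtain ⟨g, hg | hg⟩ := horb i
      · exact ⟨-g, by simpa using hg⟩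
      · refine ⟨-(g + g₀), ?_⟩
        show ρ (- -(g + g₀)) i₁ = i
        rw [neg_neg, ρa, Equiv.Perm.mul_apply, hg₀, hg]
    have hinj : Function.Injective (fun z : T => ρ (-z) i₁) := by
      intro u t hut
      by_contra hne
      refine hf (t - u) (sub_ne_zero.mpr (Ne.symm hne)) i₁ ?_
      have e : ρ (t - u) = ρ t * ρ (-u) := by rw [← ρa]; congr 1; abel
      have h' : ρ (-u) i₁ = ρ (-t) i₁ := hut
      rw [e, Equiv.Perm.mul_apply, h', ← Equiv.Perm.mul_apply, ← ρa, add_neg_cancel, ρ0]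
      rfl
    have hn : Fintype.card T = n := by
      have := Fintype.card_of_bijective ⟨hinj, hsurj⟩
      simpa using this
    have bR : Function.Bijective (fun z : T => ρ (-z) i₁) := ⟨hinj, hsurj⟩
    have bC := one_bij τ τ0 τa hτ i₁ hn
    refine one_case (T := T) (a := fun t => A i₁ (τ t i₁)) (β := fun t => B i₁ (τ (-t) i₁))
      (fun t => h.A_zero_one _ _) (fun t => ?_) ?_ ?_
    · have h1 := row_rel h hk' (ρ (-t) i₁) (ρ (-0) i₁)
      rw [← bC.sum_comp] at h1
      have e : ∀ z : T, A (ρ (-t) i₁) (τ (-z) i₁) * B (ρ (-0) i₁) (τ (-z) i₁) =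
          A i₁ (τ (t - z) i₁) * B i₁ (τ (-(t - (t - z))) i₁) := by
        intro z
        rw [trans A hA, trans B hB]
        congr 3
        abel_nf
      have hs : ∑ z, A i₁ (τ (t - z) i₁) * B i₁ (τ (-(t - (t - z))) i₁) =
          ∑ w, A i₁ (τ w i₁) * B i₁ (τ (-(t - w)) i₁) :=
        Equiv.sum_comp (Equiv.subLeft t) (fun w => A i₁ (τ w i₁) * B i₁ (τ (-(t - w)) i₁))
      rw [Finset.sum_congr rfl fun z _ => e z, hs] at h1
      rw [h1]
      by_cases ht : t = 0
      · subst ht; simp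
      · rw [if_neg (fun k => ht (hinj k)), if_neg ht, add_zero]
    · have h1 := h.A_row i₁
      rw [← bC.sum_comp, ← Equiv.sum_comp (Equiv.neg T) (fun z => A i₁ (τ (-z) i₁))] at h1
      simp only [Equiv.neg_apply, neg_neg] at h1
      exact_mod_cast h1
    · intro g g' u u' hg hu k1 k2 k3 k4
      refine h4 (ρ (-g) i₁) (ρ (-g') i₁) (τ (-u) i₁) (τ (-u') i₁) (fun k => hg (hinj k))
        (fun k => hu (bC.1 k)) ?_ ?_ ?_ ?_ <;> rw [trans A hA]
      · exact k1
      · exact k2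
      · exact k3
      · exact k4
  · -- two orbits
    push Not at ho
    have bR0 : Function.Surjective (fun z : Fin 2 × T => ρ (-z.2) (![i₁, i₂] z.1)) := by
      intro i
      obtain ⟨g, hg | hg⟩ := horb i
      · exact ⟨(0, -g), by simpa using hg⟩
      · exact ⟨(1, -g), by simpa using hg⟩
    have same : ∀ (i : Fin n) (u t : T), ρ (-u) i = ρ (-t) i → u = t := by
      intro i u t hut
      by_contra hne
      refine hf (t - u) (sub_ne_zero.mpr (Ne.symm hne)) i ?_
      have e : ρ (t - u) = ρ t * ρ (-u) := by rw [← ρa]; congr 1; abel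
      rw [e, Equiv.Perm.mul_apply, hut, ← Equiv.Perm.mul_apply, ← ρa, add_neg_cancel, ρ0]
      rfl
    have diff : ∀ u t : T, ρ (-u) i₁ ≠ ρ (-t) i₂ := by
      intro u t hut
      apply ho (t - u)
      have e : ρ (t - u) = ρ t * ρ (-u) := by rw [← ρa]; congr 1; abel
      rw [e, Equiv.Perm.mul_apply, hut, ← Equiv.Perm.mul_apply, ← ρa, add_neg_cancel, ρ0]
      rfl
    have injR : Function.Injective (fun z : Fin 2 × T => ρ (-z.2) (![i₁, i₂] z.1)) := by
      rintro ⟨i, u⟩ ⟨j, t⟩ hut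
      fin_cases i <;> fin_cases j
      · exact Prod.ext rfl (same _ _ _ hut)
      · exact absurd hut (diff u t)
      · exact absurd hut.symm (diff t u)
      · exact Prod.ext rfl (same _ _ _ hut)
    have bR : Function.Bijective (fun z : Fin 2 × T => ρ (-z.2) (![i₁, i₂] z.1)) := ⟨injR, bR0⟩
    have hn : 2 * Fintype.card T = n := by
      have := Fintype.card_of_bijective bR
      simpa using this
    -- column base points
    obtain ⟨x₂, hx₂⟩ : ∃ x₂ : Fin n, ∀ g, τ g i₁ ≠ x₂ := by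
      by_contra hcon
      push Not at hcon
      have h1 : Fintype.card (Fin n) ≤ Fintype.card T := Fintype.card_le_of_surjective (fun g => τ g i₁) hcon
      have h2 : 0 < Fintype.card T := Fintype.card_pos
      rw [Fintype.card_fin] at h1
      omega
    have bC := two_bij τ τ0 τa hτ ![i₁, x₂] hx₂ hn
    have h3 : ¬ 3 ∣ Fintype.card T := by
      rintro ⟨q, hq⟩
      have : (3 : ℤ) * s - n = 1 := hk
      have hn' : (n : ℤ) = 2 * (3 * q) := by rw [← hn, hq]; push_cast; ring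
      omega
    have sumC : ∀ f : Fin n → ℤ, ∑ x, f x = ∑ z : T, f (τ (-z) i₁) + ∑ z : T, f (τ (-z) x₂) := by
      intro f
      rw [← bC.sum_comp, Fintype.sum_prod_type, Fin.sum_univ_two]
      rfl
    have sumR : ∀ f : Fin n → ℤ, ∑ x, f x = ∑ z : T, f (ρ (-z) i₁) + ∑ z : T, f (ρ (-z) i₂) := by
      intro f
      rw [← bR.sum_comp, Fintype.sum_prod_type, Fin.sum_univ_two]
      rfl
    refine two_case (T := T) h3 (a := fun i j t => A (![i₁, i₂] i) (τ t (![i₁, x₂] j)))
      (β := fun i j t => B (![i₁, i₂] i) (τ (-t) (![i₁, x₂] j)))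
      (fun i j t => h.A_zero_one _ _) (fun i j t => h.B_zero_one _ _) (fun i i' t => ?_) (fun i => ?_)
      (fun j => ?_) ?_
    · have h1 := row_rel h hk' (ρ (-t) (![i₁, i₂] i)) (ρ (-0) (![i₁, i₂] i'))
      rw [sumC] at h1
      have e : ∀ (x : Fin n) (z : T), A (ρ (-t) (![i₁, i₂] i)) (τ (-z) x) * B (ρ (-0) (![i₁, i₂] i')) (τ (-z) x) =
          A (![i₁, i₂] i) (τ (t - z) x) * B (![i₁, i₂] i') (τ (-(t - (t - z))) x) := by
        intro x z
        rw [trans A hA, trans B hB]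
        congr 3
        abel_nf
      have hs : ∀ x : Fin n, ∑ z, A (![i₁, i₂] i) (τ (t - z) x) * B (![i₁, i₂] i') (τ (-(t - (t - z))) x) =
          ∑ w, A (![i₁, i₂] i) (τ w x) * B (![i₁, i₂] i') (τ (-(t - w)) x) := fun x =>
        Equiv.sum_comp (Equiv.subLeft t) (fun w => A (![i₁, i₂] i) (τ w x) * B (![i₁, i₂] i') (τ (-(t - w)) x))
      rw [Finset.sum_congr rfl fun z _ => e i₁ z, Finset.sum_congr rfl fun z _ => e x₂ z, hs, hs] at h1
      show ∑ w, A (![i₁, i₂] i) (τ w i₁) * B (![i₁, i₂] i') (τ (-(t - w)) i₁) +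
        ∑ w, A (![i₁, i₂] i) (τ w x₂) * B (![i₁, i₂] i') (τ (-(t - w)) x₂) = _
      rw [h1]
      by_cases ht : i = i' ∧ t = 0
      · rw [if_pos ht, ht.1, ht.2, if_pos rfl]; norm_num
      · rw [if_neg ht, if_neg, add_zero]
        intro k
        apply ht
        have := injR (a₁ := (i, t)) (a₂ := (i', 0)) k
        exact ⟨(Prod.ext_iff.mp this).1, (Prod.ext_iff.mp this).2⟩
    · have h1 := h.A_row (![i₁, i₂] i)
      rw [sumC, ← Equiv.sum_comp (Equiv.neg T) (fun z => A (![i₁, i₂] i) (τ (-z) i₁)),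
        ← Equiv.sum_comp (Equiv.neg T) (fun z => A (![i₁, i₂] i) (τ (-z) x₂))] at h1
      simp only [Equiv.neg_apply, neg_neg] at h1
      exact_mod_cast h1
    · have h1 := h.A_col (![i₁, x₂] j)
      rw [sumR] at h1
      have e : ∀ (i x : Fin n) (z : T), A (ρ (-z) i) x = A i (τ z x) := by
        intro i x z
        have := trans A hA i x z 0
        rw [neg_zero, τ0, sub_zero] at this
        exact this
      simp only [e] at h1
      exact_mod_cast h1
    · intro i i' j j' g g' u u' hg hu k1 k2 k3 k4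
      refine h4 (ρ (-g) (![i₁, i₂] i)) (ρ (-g') (![i₁, i₂] i')) (τ (-u) (![i₁, x₂] j)) (τ (-u') (![i₁, x₂] j'))
        (fun k => ?_) (fun k => ?_) ?_ ?_ ?_ ?_
      · have := injR (a₁ := (i, g)) (a₂ := (i', g')) k
        rcases hg with hg | hg
        · exact hg (Prod.ext_iff.mp this).1
        · exact hg (Prod.ext_iff.mp this).2
      · have := bC.1 (a₁ := (j, u)) (a₂ := (j', u')) k
        rcases hu with hu | hu
        · exact hu (Prod.ext_iff.mp this).1
        · exact hu (Prod.ext_iff.mp this).2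
      · rw [trans A hA]; exact k1
      · rw [trans A hA]; exact k2
      · rw [trans A hA]; exact k3
      · rw [trans A hA]; exact k4

end act

end Pool.Agent.MP_a127ec_co.Ab
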