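import Mathlib

open Finset Matrix

namespace Pool.Agent.MP_a127ec_co

/-- A pair `(A, B)` of `n × n` integer matrices is a Lehman pair of type `(n, r, s)`:
both are 0/1 matrices, every row and column of `A` sums to `r`, every row and column of `B`
sums to `s`, and `A Bᵀ = J + k I` with `k = r s - n ≥ 1` (`n ≥ 2`, `r, s ≥ 1`). -/
structure IsLehmanPair (n r s : ℕ) (A B : Matrix (Fin n) (Fin n) ℤ) : Prop where
  two_le : 2 ≤ n
  r_pos : 1 ≤ r
  s_pos : 1 ≤ s
  A_zero_one : ∀ i j, A i j = 0 ∨ A i j = 1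
  B_zero_one : ∀ i j, B i j = 0 ∨ B i j = 1
  A_row : ∀ i, ∑ j, A i j = r
  A_col : ∀ j, ∑ i, A i j = r
  B_row : ∀ i, ∑ j, B i j = s
  B_col : ∀ j, ∑ i, B i j = s
  k_pos : 1 ≤ (r : ℤ) * s - n
  mul_eq : ∀ i j, (A * Bᵀ) i j = if i = j then 1 + ((r : ℤ) * s - n) else 1

/-- The bipartite graph (rows versus columns) with biadjacency matrix `A`. -/
def biadjGraph {n : ℕ} (A : Matrix (Fin n) (Fin n) ℤ) : SimpleGraph (Fin n ⊕ Fin n) where
  Adj u v := match u, v with
    | .inl i, .inr j => A i j = 1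
    | .inr j, .inl i => A i j = 1
    | _, _ => False
  symm := ⟨by
    intro u v h
    rcases u with i | i <;> rcases v with j | j <;> simp_all⟩
  loopless := ⟨by
    intro u h
    rcases u with i | i <;> simp_all⟩

end Pool.Agent.MP_a127ec_co
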