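import Pool.Agent.Lib.MP_a127ec_co.Four

/-!
# The chain of a row

For a row `l` the two other rows `m1, m2` through the point of `l` outside `B l`, and the two rows `p, q` whose own missing
point is on `l`, have sets disjoint from `B l`, and `d(m1, p) + d(p, q) + d(q, m2) = s - 1` after exchanging `p` and `q` if
necessary. (Independently found by helper4, helper57 and helper89, who describe all the rows disjoint from `l` as a ring.)
-/

open Finset Matrix

namespace Pool.Agent.MP_a127ec_co

variable {n s : ℕ} {A B : Matrix (Fin n) (Fin n) ℤ}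

theorem colt (h : IsLehmanPair n 3 s A B) {x a b : Fin n} (hab : a ≠ b) (ha : A a x = 1) (hb : A b x = 1) :
    ∃ c, c ≠ a ∧ c ≠ b ∧ A c x = 1 ∧ (∀ r, A r x = 1 → r = a ∨ r = b ∨ r = c) ∧
      ∀ f : Fin n → ℤ, ∑ r, A r x * f r = f a + f b + f c :=
  third (fun r => A r x) (fun r => h.A_zero_one r x) (by have := h.A_col x; exact_mod_cast this) hab ha hb

theorem oth (h : IsLehmanPair n 3 s A B) (x l : Fin n) : ∃ m, m ≠ l ∧ A m x = 1 := by
  obtain ⟨a, b, c, hab, -, -, ha, hb, -, -, -⟩ := col3 h x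
  by_cases e : a = l
  · exact ⟨b, fun e' => hab (e.trans e'.symm), hb⟩
  · exact ⟨a, e, ha⟩

/-- the row through a point `x` of `B l ∩ l` with `x` missing in its own set -/
theorem outn (h : IsLehmanPair n 3 s A B) (hk : (3 : ℤ) * s - n = 1) {l x : Fin n} (hl : A l x = 1) (hx : B l x = 1) :
    ∃ p, p ≠ l ∧ A p x = 1 ∧ B p x = 0 ∧ ∀ z, B l z = 1 → B p z = 0 := by
  obtain ⟨a, ha, hax⟩ := oth h x l
  obtain ⟨b, hb1, hb2, hb3, -, hf⟩ := colt h ha.symm hl hax
  have key : ∀ c d : Fin n, (∀ z, B l z + B c z + B d z = if x = z then 2 else 1) → B c x = 0 →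
      ∀ z, B l z = 1 → B c z = 0 := by
    intro c d hS hc z hz
    by_cases e : x = z
    · rw [← e]
      exact hc
    · have h1 := hS z
      rw [if_neg e] at h1
      have h2 := h.B_zero_one c z
      have h3 := h.B_zero_one d z
      omega
  have hS : ∀ z, B l z + B a z + B b z = if x = z then 2 else 1 := by
    intro z
    rw [← hf (fun r => B r z)]
    exact col_rel h hk x z
  have hS' : ∀ z, B l z + B b z + B a z = if x = z then 2 else 1 := by
    intro z
    rw [← hS z]
    ring
  rcases h.B_zero_one a x with e | e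
  · exact ⟨a, ha, hax, e, key a b hS e⟩
  · have h1 := hS x
    rw [if_pos rfl, hx, e] at h1
    have e2 : B b x = 0 := by omega
    exact ⟨b, hb1, hb3, e2, key b a hS' e2⟩

theorem chain (h : IsLehmanPair n 3 s A B) (hk : (3 : ℤ) * s - n = 1) (h4 : NoFour A) (l : Fin n) :
    ∃ x y z a b c d : Fin n, A l x = 1 ∧ A l y = 1 ∧ A l z = 1 ∧ B l x = 0 ∧ y ≠ z ∧
      A a x = 1 ∧ A d x = 1 ∧ A b y = 1 ∧ B b y = 0 ∧ A c z = 1 ∧ B c z = 0 ∧
      a ≠ l ∧ b ≠ l ∧ c ≠ l ∧ d ≠ l ∧ a ≠ b ∧ a ≠ c ∧ a ≠ d ∧ b ≠ c ∧ b ≠ d ∧ c ≠ d ∧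
      (∀ t, B l t = 1 → B a t = 0 ∧ B b t = 0 ∧ B c t = 0 ∧ B d t = 0) ∧
      (diffSet B a b).card + (diffSet B b c).card + (diffSet B c d).card + 1 = s := by
  -- the points of `l`
  obtain ⟨x0, hx0, hb0⟩ : ∃ x0, A l x0 = 1 ∧ B l x0 = 0 := by
    obtain ⟨a, b, c, -, -, -, ha, hb, hc, -, hf⟩ := row3 h l
    have e := row_rel h hk l l
    rw [hf, if_pos rfl] at e
    rcases h.B_zero_one l a with e1 | e1
    · exact ⟨a, ha, e1⟩
    rcases h.B_zero_one l b with e2 | e2
    · exact ⟨b, hb, e2⟩
    exact ⟨c, hc, by omega⟩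
  obtain ⟨x1, hx1, h01⟩ : ∃ x1, A l x1 = 1 ∧ x0 ≠ x1 := by
    obtain ⟨a, b, c, hab, -, -, ha, hb, hc, -, hf⟩ := row3 h l
    by_cases e : x0 = a
    · exact ⟨b, hb, fun e' => hab (e.symm.trans e')⟩
    · exact ⟨a, ha, e⟩
  obtain ⟨x2, h20, h21, hx2, -, hfl⟩ := rowt h h01 hx0 hx1
  have hb1 : B l x1 = 1 := own h hk h01.symm hx1 hx0 hb0
  have hb2 : B l x2 = 1 := own h hk h20 hx2 hx0 hb0
  -- the rows
  obtain ⟨m1, hm1, am1⟩ := oth h x0 l
  obtain ⟨m2, hm2, hm21, am2, hmm, hf0⟩ := colt h hm1.symm hx0 am1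
  have S0 : ∀ z, B l z + B m1 z + B m2 z = if x0 = z then 2 else 1 := by
    intro z
    rw [← hf0 (fun r => B r z)]
    exact col_rel h hk x0 z
  obtain ⟨p, hpl, apx, bpx, dp⟩ := outn h hk hx1 hb1
  obtain ⟨q, hql, aqx, bqx, dq⟩ := outn h hk hx2 hb2
  have z01 : ∀ z, (B l z = 0 ∨ B l z = 1) ∧ (B m1 z = 0 ∨ B m1 z = 1) ∧ (B m2 z = 0 ∨ B m2 z = 1) ∧
      (B p z = 0 ∨ B p z = 1) ∧ (B q z = 0 ∨ B q z = 1) := fun z =>
    ⟨h.B_zero_one _ z, h.B_zero_one _ z, h.B_zero_one _ z, h.B_zero_one _ z, h.B_zero_one _ z⟩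
  have dm : ∀ z, B l z = 1 → B m1 z = 0 ∧ B m2 z = 0 := by
    intro z hz
    have hne : x0 ≠ z := by
      rintro rfl
      omega
    have e := S0 z
    rw [if_neg hne] at e
    have := z01 z
    omega
  have bp0 : B p x0 = 1 := by
    have e := row_rel h hk l p
    rw [hfl, if_neg hpl.symm, bpx, dp x2 hb2] at e
    omega
  have bq0 : B q x0 = 1 := by
    have e := row_rel h hk l q
    rw [hfl, if_neg hql.symm, bqx, dq x1 hb1] at e
    omega
  have nx : ∀ r y, r ≠ l → A r y = 1 → A l y = 1 → x0 ≠ y → A r x0 ≠ 1 := by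
    intro r y h1 h2 h5 h6 h7
    exact h4 r l x0 y h1 h6 h7 h2 hx0 h5
  have px0 := nx p x1 hpl apx hx1 h01
  have qx0 := nx q x2 hql aqx hx2 h20.symm
  have pm1 : p ≠ m1 := by
    rintro rfl
    exact px0 am1
  have pm2 : p ≠ m2 := by
    rintro rfl
    exact px0 am2
  have qm1 : q ≠ m1 := by
    rintro rfl
    exact qx0 am1
  have qm2 : q ≠ m2 := by
    rintro rfl
    exact qx0 am2
  have hpq : p ≠ q := by
    rintro rfl
    exact h4 p l x1 x2 hpl h21.symm apx aqx hx1 hx2
  -- nestedness
  set D : Fin n → ℤ := fun z => if B m1 z = 1 ∧ B p z = 1 ∧ B q z = 0 then 1 else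
    if B m2 z = 1 ∧ B p z = 0 ∧ B q z = 1 then -1 else 0 with hD
  have hgen : ∀ y, A y x0 ≠ 1 → ∃ a c, B m1 a = 1 ∧ B m2 a = 0 ∧ B m1 c = 0 ∧ B m2 c = 1 ∧
      B p a + B p c = (if y = p then 2 else 1) ∧ B q a + B q c = (if y = q then 2 else 1) ∧
      ∑ z, A y z * D z = D a + D c := by
    intro y hy
    have hyl : y ≠ l := by
      rintro rfl
      exact hy hx0
    have hym1 : y ≠ m1 := by
      rintro rfl
      exact hy am1
    obtain ⟨r, hr, lr⟩ := exi h hk y l
    obtain ⟨a, ha, ma⟩ := exi h hk y m1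
    have hra : r ≠ a := by
      rintro rfl
      have := (dm r lr).1
      omega
    obtain ⟨c, hc1, hc2, hc3, -, hf⟩ := rowt h hra hr ha
    have lc : B l c = 0 := (h.B_zero_one l c).resolve_right fun e => hc1 (uniq h hk hyl hc3 hr e lr)
    have mc : B m1 c = 0 := (h.B_zero_one m1 c).resolve_right fun e => hc2 (uniq h hk hym1 hc3 ha e ma)
    have ea := S0 a
    have ec := S0 c
    have na : x0 ≠ a := by
      rintro rfl
      exact hy ha
    have nc : x0 ≠ c := by
      rintro rfl
      exact hy hc3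
    rw [if_neg na] at ea
    rw [if_neg nc] at ec
    have za := z01 a
    have zc := z01 c
    have e1 := row_rel h hk y p
    have e2 := row_rel h hk y q
    rw [hf, dp r lr] at e1
    rw [hf, dq r lr] at e2
    have hDr : D r = 0 := by simp [hD, dp r lr, dq r lr]
    refine ⟨a, c, ma, by omega, mc, by omega, by rw [← e1]; ring, by rw [← e2]; ring, ?_⟩
    rw [hf, hDr, zero_add]
  have hspec : ∀ y, A y x0 = 1 → ∑ z, A y z * D z = 0 := by
    intro y hy
    have hyp : y ≠ p := by
      rintro rfl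
      exact px0 hy
    have hyq : y ≠ q := by
      rintro rfl
      exact qx0 hy
    refine Finset.sum_eq_zero fun z _ => ?_
    rcases h.A_zero_one y z with e | e
    · rw [e, zero_mul]
    · by_cases hz : z = x0
      · rw [hz]
        simp [hD, bp0, bq0]
      · have e1 : B p z = 0 := (h.B_zero_one p z).resolve_right fun e' => hz (uniq h hk hyp e hy e' bp0)
        have e2 : B q z = 0 := (h.B_zero_one q z).resolve_right fun e' => hz (uniq h hk hyq e hy e' bq0)
        simp [hD, e1, e2]
  have Dm1 : ∀ z, B m1 z = 1 → B m2 z = 0 → D z = if B p z = 1 ∧ B q z = 0 then 1 else 0 := by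
    intro z e1 e2
    simp [hD, e1, e2]
  have Dm2 : ∀ z, B m1 z = 0 → B m2 z = 1 → D z = if B p z = 0 ∧ B q z = 1 then -1 else 0 := by
    intro z e1 e2
    simp [hD, e1, e2]
  have hgen' : ∀ y, y ≠ p → y ≠ q → ∑ z, A y z * D z = 0 := by
    intro y hyp hyq
    by_cases hy : A y x0 = 1
    · exact hspec y hy
    · obtain ⟨a, c, e1, e2, e3, e4, e5, e6, e7⟩ := hgen y hy
      rw [if_neg hyp] at e5
      rw [if_neg hyq] at e6
      rw [e7, Dm1 a e1 e2, Dm2 c e3 e4]
      have za := z01 a
      have zc := z01 c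
      split_ifs <;> omega
  have hep : ∑ z, A p z * D z = 0 ∨ ∑ z, A p z * D z = 1 := by
    obtain ⟨a, c, e1, e2, e3, e4, e5, e6, e7⟩ := hgen p px0
    rw [if_pos rfl] at e5
    rw [if_neg hpq] at e6
    rw [e7, Dm1 a e1 e2, Dm2 c e3 e4]
    have za := z01 a
    have zc := z01 c
    split_ifs <;> omega
  have heq : ∑ z, A q z * D z = 0 ∨ ∑ z, A q z * D z = -1 := by
    obtain ⟨a, c, e1, e2, e3, e4, e5, e6, e7⟩ := hgen q qx0
    rw [if_neg hpq.symm] at e5
    rw [if_pos rfl] at e6
    rw [e7, Dm1 a e1 e2, Dm2 c e3 e4]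
    have za := z01 a
    have zc := z01 c
    split_ifs <;> omega
  set ep := ∑ z, A p z * D z with hepd
  set eq := ∑ z, A q z * D z with heqd
  have hsum : ∀ y, ∑ z, A y z * D z = (if y = p then ep else 0) + (if y = q then eq else 0) := by
    intro y
    by_cases h1 : y = p
    · rw [h1, if_pos rfl, if_neg hpq, add_zero]
    by_cases h2 : y = q
    · rw [h2, if_pos rfl, if_neg hpq.symm, zero_add]
    rw [if_neg h1, if_neg h2, add_zero]
    exact hgen' y h1 h2
  have hT := sum_lines h D
  simp only [hsum, Finset.sum_add_distrib, Finset.sum_ite_eq', mem_univ, if_true] at hT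
  have hx0z : ∀ z, B m1 z = 1 → B m2 z = 1 → x0 = z := by
    intro z e1 e2
    by_contra hne
    have e := S0 z
    rw [if_neg hne] at e
    have := z01 z
    omega
  have hnest : (∀ z, B m1 z = 1 → B q z = 1 → B p z = 1) ∧ (∀ z, B m2 z = 1 → B p z = 1 → B q z = 1) ∨
      (∀ z, B m1 z = 1 → B p z = 1 → B q z = 1) ∧ (∀ z, B m2 z = 1 → B q z = 1 → B p z = 1) := by
    rcases hep with e | e
    · right
      have e' : eq = 0 := by omega
      have hz := ker_zero h hk D fun y => by rw [hsum, e, e']; simp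
      refine ⟨fun z h1 h2 => ?_, fun z h1 h2 => ?_⟩
      · by_contra h5
        have h6 : B q z = 0 := (h.B_zero_one q z).resolve_right h5
        have h7 := hz z
        simp [hD, h1, h2, h6] at h7
      · by_contra h5
        have h6 : B p z = 0 := (h.B_zero_one p z).resolve_right h5
        have h7 := hz z
        simp [hD, h1, h2, h6] at h7
    · left
      have e' : eq = -1 := by omega
      have hz := ker_zero h hk (fun z => D z - (B p z - B q z)) fun y => by
        simp only [mul_sub, Finset.sum_sub_distrib, row_rel h hk, hsum, e, e']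
        split_ifs <;> norm_num
      refine ⟨fun z h1 h2 => ?_, fun z h1 h2 => ?_⟩
      · by_contra h5
        have h6 : B p z = 0 := (h.B_zero_one p z).resolve_right h5
        have h7 := hz z
        by_cases h8 : B m2 z = 1
        · have := hx0z z h1 h8
          rw [← this, bp0] at h6
          exact one_ne_zero h6
        · simp [hD, h2, h6, h8] at h7
      · by_contra h5
        have h6 : B q z = 0 := (h.B_zero_one q z).resolve_right h5
        have h7 := hz z
        by_cases h8 : B m1 z = 1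
        · have := hx0z z h8 h1
          rw [← this, bq0] at h6
          exact one_ne_zero h6
        · simp [hD, h2, h6, h8] at h7
  -- distances
  have hd0 : ((diffSet B m1 m2).card : ℤ) = s - 1 := by
    unfold diffSet
    rw [Finset.card_filter]
    push_cast
    have e : ∀ z, (if B m1 z = 1 ∧ B m2 z = 0 then (1 : ℤ) else 0) = B m1 z - if x0 = z then 1 else 0 := by
      intro z
      have e := S0 z
      have e0 := z01 z
      by_cases hz : x0 = z
      · rw [if_pos hz] at e ⊢
        have h9 : B l z = 0 := by rw [← hz]; exact hb0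
        have h10 : B m1 z = 1 := by omega
        have h11 : B m2 z = 1 := by omega
        simp [h10, h11]
      · rw [if_neg hz] at e ⊢
        split_ifs <;> omega
    rw [Finset.sum_congr rfl fun z _ => e z, Finset.sum_sub_distrib, h.B_row m1]
    simp
  have hdist : ∀ P Q : Fin n, (∀ z, B l z = 1 → B P z = 0) → (∀ z, B l z = 1 → B Q z = 0) → B P x0 = 1 → B Q x0 = 1 →
      (∀ z, B m1 z = 1 → B Q z = 1 → B P z = 1) → (∀ z, B m2 z = 1 → B P z = 1 → B Q z = 1) →
      (diffSet B m1 P).card + (diffSet B P Q).card + (diffSet B Q m2).card = (diffSet B m1 m2).card := by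
    intro P Q dP dQ bP bQ N1 N2
    unfold diffSet
    rw [Finset.card_filter, Finset.card_filter, Finset.card_filter, Finset.card_filter, ← Finset.sum_add_distrib,
      ← Finset.sum_add_distrib]
    refine Finset.sum_congr rfl fun z _ => ?_
    have e := S0 z
    have e0 := z01 z
    have eP := h.B_zero_one P z
    have eQ := h.B_zero_one Q z
    by_cases hz : x0 = z
    · rw [← hz]
      simp [bP, bQ]
      have e' := S0 x0
      rw [if_pos rfl, hb0] at e'
      have e0' := z01 x0
      have h10 : B m1 x0 = 1 := by omega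
      have h11 : B m2 x0 = 1 := by omega
      simp [h10, h11]
    · rw [if_neg hz] at e
      have h1 := dP z
      have h2 := dQ z
      have h5 := N1 z
      have h6 := N2 z
      rcases e0.1 with e1 | e1
      · rcases e0.2.1 with e2 | e2
        · have e3 : B m2 z = 1 := by omega
          have h6' := h6 e3
          rcases eP with e4 | e4 <;> rcases eQ with e5 | e5 <;> simp [e2, e3, e4, e5]
          have := h6' e4
          omega
        · have e3 : B m2 z = 0 := by omega
          have h5' := h5 e2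
          rcases eP with e4 | e4 <;> rcases eQ with e5 | e5 <;> simp [e2, e3, e4, e5]
          have := h5' e5
          omega
      · have e2 := (dm z e1).1
        have e3 := (dm z e1).2
        simp [e2, e3, h1 e1, h2 e1]
  rcases hnest with ⟨N1, N2⟩ | ⟨N1, N2⟩
  · have hd := hdist p q dp dq bp0 bq0 N1 N2
    refine ⟨x0, x1, x2, m1, p, q, m2, hx0, hx1, hx2, hb0, h21.symm, am1, am2, apx, bpx, aqx, bqx, hm1, hpl, hql, hm2,
      pm1.symm, qm1.symm, hm21.symm, hpq, pm2, qm2, fun t ht => ⟨(dm t ht).1, dp t ht, dq t ht, (dm t ht).2⟩, ?_⟩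
    have : ((diffSet B m1 p).card + (diffSet B p q).card + (diffSet B q m2).card + 1 : ℤ) = s := by
      have : (((diffSet B m1 p).card + (diffSet B p q).card + (diffSet B q m2).card : ℕ) : ℤ) = s - 1 := by
        rw [hd, hd0]
      push_cast at this
      linarith
    exact_mod_cast this
  · have hd := hdist q p dq dp bq0 bp0 N1 N2
    refine ⟨x0, x2, x1, m1, q, p, m2, hx0, hx2, hx1, hb0, h21, am1, am2, aqx, bqx, apx, bpx, hm1, hql, hpl, hm2,
      qm1.symm, pm1.symm, hm21.symm, hpq.symm, qm2, pm2, fun t ht => ⟨(dm t ht).1, dq t ht, dp t ht, (dm t ht).2⟩, ?_⟩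
    have : ((diffSet B m1 q).card + (diffSet B q p).card + (diffSet B p m2).card + 1 : ℤ) = s := by
      have : (((diffSet B m1 q).card + (diffSet B q p).card + (diffSet B p m2).card : ℕ) : ℤ) = s - 1 := by
        rw [hd, hd0]
      push_cast at this
      linarith
    exact_mod_cast this

end Pool.Agent.MP_a127ec_co
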