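import Pool.Agent.Lib.MP_a127ec_co.Tri

/-!
# Two rows disjoint from a third one: the propagation argument
-/

open Finset Matrix

namespace Pool.Agent.MP_a127ec_co

variable {n s : ℕ} {A B : Matrix (Fin n) (Fin n) ℤ}

/-- the points of a row `i` whose set is disjoint from that of `l` -/
theorem rowi (h : IsLehmanPair n 3 s A B) (hk : (3 : ℤ) * s - n = 1) {i j l : Fin n} (hij : i ≠ j)
    (di : ∀ z, B l z = 1 → B i z = 0) (dj : ∀ z, B l z = 1 → B j z = 0) :
    ∃ v v' w, v ≠ v' ∧ v ≠ w ∧ v' ≠ w ∧ A i v = 1 ∧ A i v' = 1 ∧ A i w = 1 ∧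
      (∀ z, A i z = 1 → z = v ∨ z = v' ∨ z = w) ∧
      (∀ f : Fin n → ℤ, ∑ z, A i z * f z = f v + f v' + f w) ∧
      B i v = 1 ∧ B j v = 0 ∧ B i v' = 1 ∧ B j v' = 1 ∧ B l w = 1 ∧ B i w = 0 ∧ B j w = 0 := by
  obtain ⟨w, hw, hwl⟩ := exi h hk i l
  obtain ⟨v', hv', hvj⟩ := exi h hk i j
  have hwi := di w hwl
  have hwj := dj w hwl
  have hne : v' ≠ w := by
    rintro rfl
    rw [hwj] at hvj
    exact zero_ne_one hvj
  obtain ⟨v, h1, h2, h3, h4, h5⟩ := rowt h hne hv' hw
  have hvi' : B i v' = 1 := own h hk hne hv' hw hwi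
  have hvi : B i v = 1 := own h hk h2 h3 hw hwi
  have hvj0 : B j v = 0 := (h.B_zero_one j v).resolve_right fun e => h1 (uniq h hk hij h3 hv' e hvj)
  refine ⟨v, v', w, h1, h2, hne, h3, hv', hw, fun z hz => ?_, fun f => ?_, hvi, hvj0, hvi', hvj, hwl, hwi, hwj⟩
  · rcases h4 z hz with e | e | e
    · exact Or.inr (Or.inl e)
    · exact Or.inr (Or.inr e)
    · exact Or.inl e
  · rw [h5 f]
    ring

/-- the row `l` has no point of `B i \ B j` -/
theorem rowl (h : IsLehmanPair n 3 s A B) (hk : (3 : ℤ) * s - n = 1) {i j l : Fin n}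
    (di : ∀ z, B l z = 1 → B i z = 0) (dj : ∀ z, B l z = 1 → B j z = 0) {z : Fin n} (hz : A l z = 1)
    (hi : B i z = 1) : B j z = 1 := by
  obtain ⟨o, ho, hoj⟩ := exi h hk l j
  have h0 : ∀ y, B l y = 1 ∨ B l y = 0 := fun y => (h.B_zero_one l y).symm
  have hlo : B l o = 0 := (h.B_zero_one l o).resolve_right fun e => by
    have := dj o e
    omega
  by_contra hne
  have hzo : z ≠ o := by
    rintro rfl
    exact hne hoj
  have h1 := di z (own h hk hzo hz ho hlo)
  omega

/-- propagation: `G` has constant residue modulo three outside the difference of `B i` and `B j` -/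
theorem core (h : IsLehmanPair n 3 s A B) (hk : (3 : ℤ) * s - n = 1) {i j l v : Fin n} (hij : i ≠ j) (hil : i ≠ l)
    (hjl : j ≠ l) (di : ∀ z, B l z = 1 → B i z = 0) (dj : ∀ z, B l z = 1 → B j z = 0) (G : Fin n → ℤ)
    (hG1 : ∀ z, B i z = 1 → B j z = 1 → G z = 2 ∨ G z = -2)
    (hG0 : ∀ z, B i z = 0 → B j z = 0 → G z = 1 ∨ G z = -1)
    (hGs : ∀ y, (y = i ∨ ∀ z, A y z = 1 → B i z = 1 → B j z = 1) → ∑ z, A y z * G z = 0)
    (hv : A i v = 1) (hvi : B i v = 1) (hvj : B j v = 0) (hGv : G v = 1)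
    (hGu : ∀ u, A j u = 1 → B j u = 1 → B i u = 0 → G u = 1 ∨ G u = -1) :
    (∀ u, A j u = 1 → B j u = 1 → B i u = 0 → G u = 1) ∧
    ∀ y r, A y r = 1 → B l r = 1 → (y = i ∨ ∀ z, A y z = 1 → B i z = 1 → B j z = 1) → G r = 1 := by
  obtain ⟨v0, v', w, hvv', hvw, hv'w, Av, Av', Aw, mi, fi, iv, jv, iv', jv', lw, iw, jw⟩ := rowi h hk hij di dj
  obtain ⟨u0, u', w', huu', huw, hu'w, Au, Au', Aw', mj, fj, ju, iu, ju', iu', lw', jw', iw'⟩ :=
    rowi h hk hij.symm dj di
  have hvv : v = v0 := by
    rcases mi v hv with e | e | e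
    · exact e
    · rw [e, jv'] at hvj
      exact absurd hvj one_ne_zero
    · rw [e, iw] at hvi
      exact absurd hvi zero_ne_one
  subst hvv
  obtain ⟨o, ho, hoi⟩ := exi h hk l i
  have hoj : B j o = 1 := rowl h hk di dj ho hoi
  have hlo : B l o = 0 := (h.B_zero_one l o).resolve_right fun e => by
    have := di o e
    omega
  have hl : ∀ z, z ≠ o → A l z = 1 → B l z = 1 := fun z hz hz1 => own h hk hz hz1 ho hlo
  set x : Fin n → ℤ := fun z => if B i z = 1 ∧ B j z = 1 ∧ G z = 2 then 1 else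
    if B i z = 0 ∧ B j z = 0 ∧ B l z = 0 ∧ G z = -1 then -1 else 0 with hx
  have x10 : ∀ z, B i z = 1 → B j z = 0 → x z = 0 := fun z h1 h2 => by simp [hx, h1, h2]
  have x01 : ∀ z, B i z = 0 → B j z = 1 → x z = 0 := fun z h1 h2 => by simp [hx, h1, h2]
  have xl : ∀ z, B l z = 1 → x z = 0 := fun z h1 => by simp [hx, h1, di z h1]
  have x11 : ∀ z, B i z = 1 → B j z = 1 → x z = if G z = 2 then 1 else 0 := fun z h1 h2 => by
    simp [hx, h1, h2]
  have x00 : ∀ z, B i z = 0 → B j z = 0 → B l z = 0 → x z = if G z = -1 then -1 else 0 := fun z h1 h2 h3 => by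
    simp [hx, h1, h2, h3]
  have gi := hGs i (Or.inl rfl)
  rw [fi] at gi
  have gv' : G v' = -2 := by
    have h1 := hG1 v' iv' jv'
    have h2 := hG0 w iw jw
    omega
  have hsum : ∀ y, ∑ z, A y z * x z = (if y = j then x u' else 0) + (if y = l then x o else 0) := by
    intro y
    by_cases hyi : y = i
    · rw [hyi, fi, if_neg hij, if_neg hil, x10 v iv jv, xl w lw, x11 v' iv' jv', gv']
      norm_num
    by_cases hyj : y = j
    · rw [hyj, fj, if_pos rfl, if_neg hjl, x01 u0 iu ju, xl w' lw']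
      ring
    by_cases hyl : y = l
    · rw [hyl, if_neg hjl.symm, if_pos rfl, zero_add]
      rw [Finset.sum_eq_single o]
      · rw [ho, one_mul]
      · intro z _ hz
        rcases h.A_zero_one l z with e | e
        · rw [e, zero_mul]
        · rw [xl z (hl z hz e), mul_zero]
      · intro e
        exact absurd (mem_univ o) e
    rw [if_neg hyj, if_neg hyl, add_zero]
    obtain ⟨p, hp, hip⟩ := exi h hk y i
    obtain ⟨r, hr, hlr⟩ := exi h hk y l
    have hir := di r hlr
    have hjr := dj r hlr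
    have hpr : p ≠ r := by
      rintro rfl
      omega
    have hlp : B l p = 0 := (h.B_zero_one l p).resolve_right fun e => by
      have := di p e
      omega
    obtain ⟨c, hc1, hc2, hc3, hc4, hc5⟩ := rowt h hpr hp hr
    have hic : B i c = 0 := (h.B_zero_one i c).resolve_right fun e => hc1 (uniq h hk hyi hc3 hp e hip)
    have hlc : B l c = 0 := (h.B_zero_one l c).resolve_right fun e => hc2 (uniq h hk hyl hc3 hr e hlr)
    have hj := row_rel h hk y j
    rw [hc5, if_neg hyj, hjr] at hj
    rw [hc5, xl r hlr]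
    rcases h.B_zero_one j p with e | e
    · rw [x10 p hip e, x01 c hic (by omega)]
      norm_num
    · have hjc : B j c = 0 := by omega
      have hg := hGs y (Or.inr fun z hz hiz => by
        rcases hc4 z hz with e1 | e1 | e1
        · rw [e1, e]
        · rw [e1, hir] at hiz
          exact absurd hiz zero_ne_one
        · rw [e1, hic] at hiz
          exact absurd hiz zero_ne_one)
      rw [hc5] at hg
      have h1 := hG1 p hip e
      have h2 := hG0 r hir hjr
      have h3 := hG0 c hic hjc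
      rw [x11 p hip e, x00 c hic hjc hlc]
      split_ifs <;> omega
  have hT := sum_lines h x
  simp only [hsum, Finset.sum_add_distrib, Finset.sum_ite_eq', mem_univ, if_true] at hT
  have h1 : x u' = 0 ∨ x u' = 1 := by
    rw [x11 u' iu' ju']
    split_ifs <;> simp
  have h2 : x o = 0 ∨ x o = 1 := by
    rw [x11 o hoi hoj]
    split_ifs <;> simp
  have h3 : x u' = 0 := by omega
  have h4 : x o = 0 := by omega
  have hz := ker_zero h hk x fun y => by rw [hsum, h3, h4]; simp
  have c1 : ∀ z, B i z = 1 → B j z = 1 → G z = -2 := by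
    intro z e1 e2
    have e3 := hz z
    rw [x11 z e1 e2] at e3
    rcases hG1 z e1 e2 with e4 | e4
    · rw [if_pos e4] at e3
      exact absurd e3 one_ne_zero
    · exact e4
  have c2 : ∀ z, B i z = 0 → B j z = 0 → B l z = 0 → G z = 1 := by
    intro z e1 e2 e0
    have e3 := hz z
    rw [x00 z e1 e2 e0] at e3
    rcases hG0 z e1 e2 with e4 | e4
    · exact e4
    · rw [if_pos e4] at e3
      omega
  have gj := hGs j (Or.inr fun z hz hiz => by
    rcases mj z hz with e1 | e1 | e1
    · rw [e1, iu] at hiz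
      exact absurd hiz zero_ne_one
    · rw [e1, ju']
    · rw [e1, iw'] at hiz
      exact absurd hiz zero_ne_one)
  rw [fj, c1 u' iu' ju'] at gj
  have gl := hGs l (Or.inr fun z hz hiz => rowl h hk di dj hz hiz)
  constructor
  · intro u hu hju hiu
    have hgu := hGu u hu hju hiu
    have huu : u = u0 := by
      rcases mj u hu with e | e | e
      · exact e
      · rw [e, iu'] at hiu
        exact absurd hiu one_ne_zero
      · rw [e, jw'] at hju
        exact absurd hju zero_ne_one
    subst huu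
    have := hG0 w' iw' jw'
    omega
  · intro y r hr hlr hy
    have hir := di r hlr
    have hjr := dj r hlr
    have hgr := hG0 r hir hjr
    by_cases hyi : y = i
    · have hrw : r = w := by
        rw [hyi] at hr
        exact uniq h hk hil hr Aw hlr lw
      rw [hrw]
      omega
    have hyn := hy.resolve_left hyi
    by_cases hyj : y = j
    · have hrw : r = w' := by
        rw [hyj] at hr
        exact uniq h hk hjl hr Aw' hlr lw'
      rw [hrw] at hgr ⊢
      have := hGu u0 Au ju iu
      omega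
    by_cases hyl : y = l
    · rw [hyl] at hr
      have hor : o ≠ r := by
        rintro rfl
        omega
      obtain ⟨c, hc1, hc2, hc3, hc4, hc5⟩ := rowt h hor ho hr
      have hlc := hl c hc1 hc3
      rw [hc5, c1 o hoi hoj] at gl
      have h5 := hG0 c (di c hlc) (dj c hlc)
      omega
    obtain ⟨p, hp, hip⟩ := exi h hk y i
    have hjp := hyn p hp hip
    have hpr : p ≠ r := by
      rintro rfl
      omega
    obtain ⟨c, hc1, hc2, hc3, hc4, hc5⟩ := rowt h hpr hp hr
    have hic : B i c = 0 := (h.B_zero_one i c).resolve_right fun e => hc1 (uniq h hk hyi hc3 hp e hip)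
    have hlc : B l c = 0 := (h.B_zero_one l c).resolve_right fun e => hc2 (uniq h hk hyl hc3 hr e hlr)
    have hjc : B j c = 0 := (h.B_zero_one j c).resolve_right fun e => hc1 (uniq h hk hyj hc3 hp e hjp)
    have hg := hGs y hy
    rw [hc5, c1 p hip hjp, c2 c hic hjc hlc] at hg
    omega

end Pool.Agent.MP_a127ec_co
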