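import Pool.Agent.Lib.MP_a127ec_co.Rel

open Finset Matrix

namespace Pool.Agent.MP_a127ec_co

variable {n s : ℕ} {A B : Matrix (Fin n) (Fin n) ℤ}

/-- No 4-cycle: two distinct rows share at most one column. -/
def NoFour (A : Matrix (Fin n) (Fin n) ℤ) : Prop :=
  ∀ i j x y : Fin n, i ≠ j → x ≠ y → A i x = 1 → A i y = 1 → A j x = 1 → A j y = 1 → False

theorem pair_le_one (h : IsLehmanPair n 3 s A B) (h4 : NoFour A) {x y : Fin n} (hxy : x ≠ y) :
    ∑ r, A r x * A r y ≤ 1 := by
  classical
  by_contra hcon
  push Not at hcon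
  -- at least two rows contribute
  have hterm : ∀ r, A r x * A r y = 0 ∨ (A r x = 1 ∧ A r y = 1) := by
    intro r
    rcases h.A_zero_one r x with h0 | h1 <;> rcases h.A_zero_one r y with h0' | h1' <;>
      simp_all
  set T : Finset (Fin n) := univ.filter fun r => A r x = 1 ∧ A r y = 1 with hT
  have hsum : ∑ r, A r x * A r y = T.card := by
    rw [hT, Finset.card_filter]
    push_cast
    refine Finset.sum_congr rfl fun r _ => ?_
    rcases h.A_zero_one r x with h0 | h1 <;> rcases h.A_zero_one r y with h0' | h1' <;>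
      simp_all
  rw [hsum] at hcon
  have hc : 1 < T.card := by exact_mod_cast hcon
  obtain ⟨i, hi, j, hj, hij⟩ := Finset.one_lt_card.mp hc
  simp only [hT, mem_filter, mem_univ, true_and] at hi hj
  exact h4 i j x y hij hxy hi.1 hi.2 hj.1 hj.2

/-- The set of columns of row `p` of `B` not in row `q` of `B`. -/
def diffSet (B : Matrix (Fin n) (Fin n) ℤ) (p q : Fin n) : Finset (Fin n) :=
  univ.filter fun t => B p t = 1 ∧ B q t = 0

theorem diff_eq (h : IsLehmanPair n 3 s A B) (p q t : Fin n) :
    B p t - B q t = (if t ∈ diffSet B p q then 1 else 0) - (if t ∈ diffSet B q p then 1 else 0) := by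
  unfold diffSet
  rcases h.B_zero_one p t with h0 | h1 <;> rcases h.B_zero_one q t with h0' | h1' <;>
    simp_all

theorem card_diff_comm (h : IsLehmanPair n 3 s A B) (p q : Fin n) :
    (diffSet B p q).card = (diffSet B q p).card := by
  have h1 : ∑ t, (B p t - B q t) = 0 := by
    rw [Finset.sum_sub_distrib, h.B_row p, h.B_row q, sub_self]
  rw [Finset.sum_congr rfl (fun t _ => diff_eq h p q t), Finset.sum_sub_distrib] at h1
  simp only [Finset.sum_ite_mem, Finset.univ_inter, Finset.sum_const, mul_one,
    nsmul_eq_mul] at h1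
  have : ((diffSet B p q).card : ℤ) = (diffSet B q p).card := by linarith
  exact_mod_cast this

/-- In a cubic Lehman graph with `k = 1` and no 4-cycle, two distinct rows of `B` differ in at
least three columns each way. -/
theorem three_le_diff (h : IsLehmanPair n 3 s A B) (hk : (3 : ℤ) * s - n = 1) (h4 : NoFour A)
    {p q : Fin n} (hpq : p ≠ q) : 3 ≤ (diffSet B p q).card := by
  classical
  set U := diffSet B p q with hU
  set W := diffSet B q p with hW
  have hcard : (W.card : ℤ) = U.card := by exact_mod_cast (card_diff_comm h p q).symm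
  set u : Fin n → ℤ := fun r => ∑ t ∈ U, A r t with hu
  set w : Fin n → ℤ := fun r => ∑ t ∈ W, A r t with hw
  have hrel : ∀ r, u r - w r = (if r = p then 1 else 0) - (if r = q then 1 else 0) := by
    intro r
    have e1 := row_rel h hk r p
    have e2 := row_rel h hk r q
    have e3 : ∑ x, A r x * (B p x - B q x)
        = (if r = p then 2 else 1) - (if r = q then 2 else 1) := by
      rw [Finset.sum_congr rfl (fun x _ => mul_sub _ _ _), Finset.sum_sub_distrib, e1, e2]
    rw [Finset.sum_congr rfl (fun x _ => by rw [diff_eq h p q x])] at e3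
    simp only [mul_sub, mul_ite, mul_one, mul_zero, Finset.sum_sub_distrib, Finset.sum_ite_mem,
      Finset.univ_inter] at e3
    simp only [hu, hw]
    rw [← hU, ← hW] at e3
    rw [e3]
    split_ifs <;> norm_num
  have hu0 : ∀ r, 0 ≤ u r := by
    intro r
    refine Finset.sum_nonneg fun t _ => ?_
    rcases h.A_zero_one r t with h0 | h1 <;> simp [*]
  have hsq : ∀ r, u r ≤ u r ^ 2 := by
    intro r
    have := hu0 r
    rcases this.lt_or_eq with hlt | heq
    · nlinarith
    · rw [← heq]; norm_num
  have husum : ∑ r, u r = 3 * U.card := by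
    simp only [hu]
    rw [Finset.sum_comm]
    rw [Finset.sum_congr rfl (fun t _ => h.A_col t)]
    simp
    ring
  -- upper bound for the number of coincidences
  have hup : ∑ r, u r * w r ≤ (U.card : ℤ) ^ 2 := by
    have e : ∑ r, u r * w r = ∑ t ∈ U, ∑ t' ∈ W, ∑ r, A r t * A r t' := by
      simp only [hu, hw, Finset.sum_mul_sum]
      rw [Finset.sum_comm]
      refine Finset.sum_congr rfl fun t _ => ?_
      rw [Finset.sum_comm]
    rw [e]
    have hle : ∀ t ∈ U, ∀ t' ∈ W, ∑ r, A r t * A r t' ≤ 1 := by
      intro t ht t' ht'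
      refine pair_le_one h h4 ?_
      rintro rfl
      simp only [hU, hW, diffSet, mem_filter, mem_univ, true_and] at ht ht'
      rw [ht.1] at ht'
      exact one_ne_zero ht'.2
    calc ∑ t ∈ U, ∑ t' ∈ W, ∑ r, A r t * A r t' ≤ ∑ t ∈ U, ∑ t' ∈ W, 1 :=
          Finset.sum_le_sum fun t ht => Finset.sum_le_sum fun t' ht' => hle t ht t' ht'
      _ = (U.card : ℤ) ^ 2 := by
          simp only [Finset.sum_const, nsmul_eq_mul, mul_one]
          rw [hcard]; ring
  -- lower bound
  have hlow : 3 * (U.card : ℤ) - 1 ≤ ∑ r, u r * w r := by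
    have e : ∑ r, u r * w r = ∑ r, u r ^ 2 - u p + u q := by
      have e0 : ∀ r, u r * w r
          = u r ^ 2 - u r * (if r = p then 1 else 0) + u r * (if r = q then 1 else 0) := by
        intro r
        have := hrel r
        have hw' : w r = u r - ((if r = p then 1 else 0) - (if r = q then 1 else 0)) := by
          linarith
        rw [hw']; ring
      rw [Finset.sum_congr rfl (fun r _ => e0 r), Finset.sum_add_distrib,
        Finset.sum_sub_distrib]
      simp
    rw [e]
    have hsplit : ∑ r, u r ^ 2 = u p ^ 2 + ∑ r ∈ univ.erase p, u r ^ 2 := by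
      exact (Finset.add_sum_erase univ (fun r => u r ^ 2) (mem_univ p)).symm
    have hsplit' : ∑ r, u r = u p + ∑ r ∈ univ.erase p, u r := by
      exact (Finset.add_sum_erase univ u (mem_univ p)).symm
    have hle : ∑ r ∈ univ.erase p, u r ≤ ∑ r ∈ univ.erase p, u r ^ 2 :=
      Finset.sum_le_sum fun r _ => hsq r
    have := hu0 q
    nlinarith [sq_nonneg (u p - 1)]
  have hpos : 1 ≤ U.card := by
    by_contra h0
    have h0' : U.card = 0 := by omega
    have hUe : U = ∅ := Finset.card_eq_zero.mp h0'
    have hWe : W = ∅ := by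
      have : W.card = 0 := by
        have := hcard; rw [h0'] at this; exact_mod_cast this
      exact Finset.card_eq_zero.mp this
    have := hrel p
    simp only [hu, hw, hUe, hWe, Finset.sum_empty] at this
    simp [hpq] at this
  have hfin : 3 * (U.card : ℤ) - 1 ≤ (U.card : ℤ) ^ 2 := le_trans hlow hup
  by_contra hlt
  push Not at hlt
  have : U.card = 1 ∨ U.card = 2 := by omega
  rcases this with h1 | h1 <;> rw [h1] at hfin <;> norm_num at hfin

end Pool.Agent.MP_a127ec_co
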