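import Pool.Agent.Lib.MP_a127ec_co.Core

/-!
# Two rows disjoint from a third one differ in at least four points each way
-/

open Finset Matrix

namespace Pool.Agent.MP_a127ec_co

variable {n s : ℕ} {A B : Matrix (Fin n) (Fin n) ℤ}

/-- if `B j \ B i` has three points, a point of `B i \ B j` outside the row `i` is joined to all of them -/
theorem joined (h : IsLehmanPair n 3 s A B) (hk : (3 : ℤ) * s - n = 1) (h4 : NoFour A) {i j p q : Fin n}
    (hQ : (diffSet B j i).card = 3) (hp : B i p = 1) (hp' : B j p = 0) (hip : A i p ≠ 1)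
    (hq : B j q = 1) (hq' : B i q = 0) : ∃ r, A r p = 1 ∧ A r q = 1 := by
  obtain ⟨r1, r2, r3, h12, h13, h23, a1, a2, a3, -, -⟩ := col3 h p
  have ne : ∀ r, A r p = 1 → r ≠ i := by
    rintro r hr rfl
    exact hip hr
  obtain ⟨q1, b1, c1, d1⟩ := opp h hk (ne r1 a1) a1 hp hp'
  obtain ⟨q2, b2, c2, d2⟩ := opp h hk (ne r2 a2) a2 hp hp'
  obtain ⟨q3, b3, c3, d3⟩ := opp h hk (ne r3 a3) a3 hp hp'
  have npq : ∀ y, B j y = 1 → p ≠ y := by
    rintro y hy rfl
    omega
  have e12 : q1 ≠ q2 := by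
    rintro rfl
    exact h4 r1 r2 p q1 h12 (npq _ c1) a1 b1 a2 b2
  have e13 : q1 ≠ q3 := by
    rintro rfl
    exact h4 r1 r3 p q1 h13 (npq _ c1) a1 b1 a3 b3
  have e23 : q2 ≠ q3 := by
    rintro rfl
    exact h4 r2 r3 p q2 h23 (npq _ c2) a2 b2 a3 b3
  have hs : ({q1, q2, q3} : Finset (Fin n)) ⊆ diffSet B j i := by
    intro z hz
    simp only [mem_insert, mem_singleton] at hz
    unfold diffSet
    rw [mem_filter]
    rcases hz with rfl | rfl | rfl <;> exact ⟨mem_univ _, by assumption, by assumption⟩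
  have he : ({q1, q2, q3} : Finset (Fin n)) = diffSet B j i := by
    refine Finset.eq_of_subset_of_card_le hs ?_
    rw [hQ, Finset.card_insert_of_notMem (by simp [e12, e13]), Finset.card_pair e23]
  have hm : q ∈ ({q1, q2, q3} : Finset (Fin n)) := by
    rw [he]
    unfold diffSet
    rw [mem_filter]
    exact ⟨mem_univ _, hq, hq'⟩
  simp only [mem_insert, mem_singleton] at hm
  rcases hm with rfl | rfl | rfl
  · exact ⟨r1, a1, b1⟩
  · exact ⟨r2, a2, b2⟩
  · exact ⟨r3, a3, b3⟩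

theorem pair_of_erase {S : Finset (Fin n)} {v : Fin n} (hS : S.card = 3) (hv : v ∈ S) :
    ∃ a b, a ≠ b ∧ a ≠ v ∧ b ≠ v ∧ a ∈ S ∧ b ∈ S := by
  obtain ⟨a, b, hab, he⟩ := Finset.card_eq_two.mp (show (S.erase v).card = 2 by
    rw [Finset.card_erase_of_mem hv, hS])
  have ha : a ∈ S.erase v := by
    rw [he]
    simp
  have hb : b ∈ S.erase v := by
    rw [he]
    simp
  rw [mem_erase] at ha hb
  exact ⟨a, b, hab, ha.1, hb.1, ha.2, hb.2⟩

theorem four_le (h : IsLehmanPair n 3 s A B) (hk : (3 : ℤ) * s - n = 1) (h4 : NoFour A) {i j l : Fin n}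
    (hij : i ≠ j) (hil : i ≠ l) (hjl : j ≠ l) (di : ∀ z, B l z = 1 → B i z = 0)
    (dj : ∀ z, B l z = 1 → B j z = 0) : 4 ≤ (diffSet B i j).card := by
  by_contra hlt
  have h3 := three_le_diff h hk h4 hij
  have hP : (diffSet B i j).card = 3 := by omega
  have hQ : (diffSet B j i).card = 3 := by
    rw [← card_diff_comm h i j]
    exact hP
  obtain ⟨v, v', w, hvv', hvw, hv'w, Av, Av', Aw, mi, fi, iv, jv, iv', jv', lw, iw, jw⟩ := rowi h hk hij di dj
  obtain ⟨u, u', w', huu', huw, hu'w, Au, Au', Aw', mj, fj, ju, iu, ju', iu', lw', jw', iw'⟩ :=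
    rowi h hk hij.symm dj di
  have noQ : ∀ z, A i z = 1 → B j z = 1 → B i z = 1 := by
    intro z hz hj
    rcases mi z hz with e | e | e
    · rw [e, iv]
    · rw [e, iv']
    · rw [e, jw] at hj
      exact absurd hj zero_ne_one
  have noP : ∀ z, A j z = 1 → B i z = 1 → B j z = 1 := by
    intro z hz hj
    rcases mj z hz with e | e | e
    · rw [e, ju]
    · rw [e, ju']
    · rw [e, iw'] at hj
      exact absurd hj zero_ne_one
  have noL : ∀ z, A l z = 1 → B i z = 1 → B j z = 1 := fun z hz hi => rowl h hk di dj hz hi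
  have J : ∀ p q, B i p = 1 → B j p = 0 → B j q = 1 → B i q = 0 → (p ≠ v ∨ q ≠ u) →
      ∃ r, A r p = 1 ∧ A r q = 1 := by
    intro p q ip jp jq iq hne
    rcases hne with hne | hne
    · refine joined h hk h4 hQ ip jp (fun e => ?_) jq iq
      rcases mi p e with e1 | e1 | e1
      · exact hne e1
      · rw [e1, jv'] at jp
        exact absurd jp one_ne_zero
      · rw [e1, iw] at ip
        exact absurd ip zero_ne_one
    · obtain ⟨r, h1, h2⟩ := joined h hk h4 hP jq iq (fun e => by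
        rcases mj q e with e1 | e1 | e1
        · exact hne e1
        · rw [e1, iu'] at iq
          exact absurd iq one_ne_zero
        · rw [e1, jw'] at jq
          exact absurd jq zero_ne_one) ip jp
      exact ⟨r, h2, h1⟩
  have hvP : v ∈ diffSet B i j := by
    unfold diffSet
    rw [mem_filter]
    exact ⟨mem_univ _, iv, jv⟩
  have huQ : u ∈ diffSet B j i := by
    unfold diffSet
    rw [mem_filter]
    exact ⟨mem_univ _, ju, iu⟩
  obtain ⟨p1, p2, hp12, p1v, p2v, p1m, p2m⟩ := pair_of_erase hP hvP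
  obtain ⟨q1, q2, hq12, q1u, q2u, q1m, q2m⟩ := pair_of_erase hQ huQ
  unfold diffSet at p1m p2m q1m q2m
  rw [mem_filter] at p1m p2m q1m q2m
  obtain ⟨-, ip1, jp1⟩ := p1m
  obtain ⟨-, ip2, jp2⟩ := p2m
  obtain ⟨-, jq1, iq1⟩ := q1m
  obtain ⟨-, jq2, iq2⟩ := q2m
  obtain ⟨a1, a1v, a1q⟩ := J v q1 iv jv jq1 iq1 (Or.inr q1u)
  obtain ⟨a2, a2v, a2q⟩ := J v q2 iv jv jq2 iq2 (Or.inr q2u)
  obtain ⟨b1, b1p, b1u⟩ := J p1 u ip1 jp1 ju iu (Or.inl p1v)
  obtain ⟨b2, b2p, b2u⟩ := J p2 u ip2 jp2 ju iu (Or.inl p2v)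
  obtain ⟨c11, c11p, c11q⟩ := J p1 q1 ip1 jp1 jq1 iq1 (Or.inl p1v)
  obtain ⟨c12, c12p, c12q⟩ := J p1 q2 ip1 jp1 jq2 iq2 (Or.inl p1v)
  obtain ⟨c21, c21p, c21q⟩ := J p2 q1 ip2 jp2 jq1 iq1 (Or.inl p2v)
  obtain ⟨c22, c22p, c22q⟩ := J p2 q2 ip2 jp2 jq2 iq2 (Or.inl p2v)
  -- rows joining the two sides are different from `i`, `j`, `l`
  have nei : ∀ r q, A r q = 1 → B j q = 1 → B i q = 0 → r ≠ i := by
    rintro r q h1 h2 h5 rfl
    have := noQ q h1 h2
    omega
  have nej : ∀ r p, A r p = 1 → B i p = 1 → B j p = 0 → r ≠ j := by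
    rintro r q h1 h2 h5 rfl
    have := noP q h1 h2
    omega
  have nel : ∀ r p, A r p = 1 → B i p = 1 → B j p = 0 → r ≠ l := by
    rintro r q h1 h2 h5 rfl
    have := noL q h1 h2
    omega
  -- rows with different points are different
  have dP : ∀ r r' p p', p ≠ p' → r ≠ i → A r p = 1 → A r' p' = 1 → B i p = 1 → B i p' = 1 → r ≠ r' := by
    rintro r r' p p' h1 h2 h5 h6 h7 h8 rfl
    exact h1 (uniq h hk h2 h5 h6 h7 h8)
  have dQ : ∀ r r' q q', q ≠ q' → r ≠ j → A r q = 1 → A r' q' = 1 → B j q = 1 → B j q' = 1 → r ≠ r' := by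
    rintro r r' p p' h1 h2 h5 h6 h7 h8 rfl
    exact h1 (uniq h hk h2 h5 h6 h7 h8)
  have a1i := nei a1 q1 a1q jq1 iq1
  have a2i := nei a2 q2 a2q jq2 iq2
  have b1i := nei b1 u b1u ju iu
  have b2i := nei b2 u b2u ju iu
  have c11i := nei c11 q1 c11q jq1 iq1
  have c12i := nei c12 q2 c12q jq2 iq2
  have a1j := nej a1 v a1v iv jv
  have b1j := nej b1 p1 b1p ip1 jp1
  have b2j := nej b2 p2 b2p ip2 jp2
  have c11j := nej c11 p1 c11p ip1 jp1
  have c21j := nej c21 p2 c21p ip2 jp2
  have Sv : ∀ z, B i z + B a1 z + B a2 z = if v = z then 2 else 1 := by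
    intro z
    have h1 := (col3' h a1i.symm a2i.symm (dQ _ _ _ _ hq12 a1j a1q a2q jq1 jq2) Av a1v a2v).2 (fun r => B r z)
    rw [← h1]
    exact col_rel h hk v z
  have Su : ∀ z, B j z + B b1 z + B b2 z = if u = z then 2 else 1 := by
    intro z
    have h1 := (col3' h b1j.symm b2j.symm (dP _ _ _ _ hp12 b1i b1p b2p ip1 ip2) Au b1u b2u).2 (fun r => B r z)
    rw [← h1]
    exact col_rel h hk u z
  have Sp1 : ∀ z, B b1 z + B c11 z + B c12 z = if p1 = z then 2 else 1 := by
    intro z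
    have h1 := (col3' h (dQ _ _ _ _ q1u.symm b1j b1u c11q ju jq1) (dQ _ _ _ _ q2u.symm b1j b1u c12q ju jq2)
      (dQ _ _ _ _ hq12 c11j c11q c12q jq1 jq2) b1p c11p c12p).2 (fun r => B r z)
    rw [← h1]
    exact col_rel h hk p1 z
  have Sp2 : ∀ z, B b2 z + B c21 z + B c22 z = if p2 = z then 2 else 1 := by
    intro z
    have h1 := (col3' h (dQ _ _ _ _ q1u.symm b2j b2u c21q ju jq1) (dQ _ _ _ _ q2u.symm b2j b2u c22q ju jq2)
      (dQ _ _ _ _ hq12 c21j c21q c22q jq1 jq2) b2p c21p c22p).2 (fun r => B r z)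
    rw [← h1]
    exact col_rel h hk p2 z
  have Sq1 : ∀ z, B a1 z + B c11 z + B c21 z = if q1 = z then 2 else 1 := by
    intro z
    have h1 := (col3' h (dP _ _ _ _ p1v.symm a1i a1v c11p iv ip1) (dP _ _ _ _ p2v.symm a1i a1v c21p iv ip2)
      (dP _ _ _ _ hp12 c11i c11p c21p ip1 ip2) a1q c11q c21q).2 (fun r => B r z)
    rw [← h1]
    exact col_rel h hk q1 z
  have Sq2 : ∀ z, B a2 z + B c12 z + B c22 z = if q2 = z then 2 else 1 := by
    intro z
    have h1 := (col3' h (dP _ _ _ _ p1v.symm a2i a2v c12p iv ip1) (dP _ _ _ _ p2v.symm a2i a2v c22p iv ip2)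
      (dP _ _ _ _ hp12 c12i c12p c22p ip1 ip2) a2q c12q c22q).2 (fun r => B r z)
    rw [← h1]
    exact col_rel h hk q2 z
  set F : Fin n → ℤ := fun z => B c11 z + B c22 z - B c12 z - B c21 z with hF
  have FS : ∀ y, ∑ z, A y z * F z = (if y = c11 then 2 else 1) + (if y = c22 then 2 else 1) -
      (if y = c12 then 2 else 1) - (if y = c21 then 2 else 1) := by
    intro y
    simp only [hF, mul_add, mul_sub, Finset.sum_add_distrib, Finset.sum_sub_distrib, row_rel h hk]
  have z01 : ∀ z, (B a1 z = 0 ∨ B a1 z = 1) ∧ (B a2 z = 0 ∨ B a2 z = 1) ∧ (B b1 z = 0 ∨ B b1 z = 1) ∧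
      (B b2 z = 0 ∨ B b2 z = 1) ∧ (B c11 z = 0 ∨ B c11 z = 1) ∧ (B c12 z = 0 ∨ B c12 z = 1) ∧
      (B c21 z = 0 ∨ B c21 z = 1) ∧ (B c22 z = 0 ∨ B c22 z = 1) := fun z =>
    ⟨h.B_zero_one _ z, h.B_zero_one _ z, h.B_zero_one _ z, h.B_zero_one _ z, h.B_zero_one _ z,
      h.B_zero_one _ z, h.B_zero_one _ z, h.B_zero_one _ z⟩
  have hF1 : ∀ z, B i z = 1 → B j z = 1 → F z = 2 ∨ F z = -2 := by
    intro z e1 e2
    have n1 : v ≠ z := by rintro rfl; omega
    have n2 : u ≠ z := by rintro rfl; omega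
    have n3 : p1 ≠ z := by rintro rfl; omega
    have n4 : p2 ≠ z := by rintro rfl; omega
    have n5 : q1 ≠ z := by rintro rfl; omega
    have n6 : q2 ≠ z := by rintro rfl; omega
    have s1 := Sv z
    have s2 := Su z
    have s3 := Sp1 z
    have s4 := Sp2 z
    have s5 := Sq1 z
    have s6 := Sq2 z
    rw [if_neg n1] at s1
    rw [if_neg n2] at s2
    rw [if_neg n3] at s3
    rw [if_neg n4] at s4
    rw [if_neg n5] at s5
    rw [if_neg n6] at s6
    have := z01 z
    simp only [hF]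
    omega
  have hF0 : ∀ z, B i z = 0 → B j z = 0 → F z = 1 ∨ F z = -1 := by
    intro z e1 e2
    have n1 : v ≠ z := by rintro rfl; omega
    have n2 : u ≠ z := by rintro rfl; omega
    have n3 : p1 ≠ z := by rintro rfl; omega
    have n4 : p2 ≠ z := by rintro rfl; omega
    have n5 : q1 ≠ z := by rintro rfl; omega
    have n6 : q2 ≠ z := by rintro rfl; omega
    have s1 := Sv z
    have s2 := Su z
    have s3 := Sp1 z
    have s4 := Sp2 z
    have s5 := Sq1 z
    have s6 := Sq2 z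
    rw [if_neg n1] at s1
    rw [if_neg n2] at s2
    rw [if_neg n3] at s3
    rw [if_neg n4] at s4
    rw [if_neg n5] at s5
    rw [if_neg n6] at s6
    have := z01 z
    simp only [hF]
    omega
  have hFv : F v = 1 ∨ F v = -1 := by
    have n2 : u ≠ v := by rintro rfl; omega
    have n5 : q1 ≠ v := by rintro rfl; omega
    have n6 : q2 ≠ v := by rintro rfl; omega
    have s1 := Sv v
    have s2 := Su v
    have s3 := Sp1 v
    have s4 := Sp2 v
    have s5 := Sq1 v
    have s6 := Sq2 v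
    rw [if_pos rfl] at s1
    rw [if_neg n2] at s2
    rw [if_neg p1v] at s3
    rw [if_neg p2v] at s4
    rw [if_neg n5] at s5
    rw [if_neg n6] at s6
    have := z01 v
    simp only [hF]
    omega
  have hFu : F u = 1 ∨ F u = -1 := by
    have n2 : v ≠ u := by rintro rfl; omega
    have n5 : p1 ≠ u := by rintro rfl; omega
    have n6 : p2 ≠ u := by rintro rfl; omega
    have s1 := Sv u
    have s2 := Su u
    have s3 := Sp1 u
    have s4 := Sp2 u
    have s5 := Sq1 u
    have s6 := Sq2 u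
    rw [if_neg n2] at s1
    rw [if_pos rfl] at s2
    rw [if_neg n5] at s3
    rw [if_neg n6] at s4
    rw [if_neg q1u] at s5
    rw [if_neg q2u] at s6
    have := z01 u
    simp only [hF]
    omega
  have key : ∀ φ : ℤ, (φ = 1 ∨ φ = -1) → φ * F v = 1 → False := by
    intro φ hφ hv1
    have c11i' := c11i
    have hcs : ∀ y, (y = i ∨ ∀ z, A y z = 1 → B i z = 1 → B j z = 1) → y ≠ c11 ∧ y ≠ c22 ∧ y ≠ c12 ∧ y ≠ c21 := by
      intro y hy
      have hc : ∀ c p q, A c p = 1 → A c q = 1 → B i p = 1 → B j p = 0 → B j q = 1 → B i q = 0 → y ≠ c := by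
        rintro c p q e1 e2 e3 e4 e5 e6 rfl
        rcases hy with hy | hy
        · exact nei y q e2 e5 e6 hy
        · have := hy p e1 e3
          omega
      exact ⟨hc _ p1 q1 c11p c11q ip1 jp1 jq1 iq1, hc _ p2 q2 c22p c22q ip2 jp2 jq2 iq2,
        hc _ p1 q2 c12p c12q ip1 jp1 jq2 iq2, hc _ p2 q1 c21p c21q ip2 jp2 jq1 iq1⟩
    have GS : ∀ y, ∑ z, A y z * (φ * F z) = φ * ∑ z, A y z * F z := by
      intro y
      rw [Finset.mul_sum]
      exact Finset.sum_congr rfl fun z _ => by ring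
    obtain ⟨cu, cr⟩ := core h hk hij hil hjl di dj (fun z => φ * F z)
      (fun z e1 e2 => by
        rcases hφ with rfl | rfl <;> rcases hF1 z e1 e2 with e | e <;> simp only [e] <;> norm_num)
      (fun z e1 e2 => by
        rcases hφ with rfl | rfl <;> rcases hF0 z e1 e2 with e | e <;> simp only [e] <;> norm_num)
      (fun y hy => by
        obtain ⟨y1, y2, y3, y4⟩ := hcs y hy
        rw [GS, FS, if_neg y1, if_neg y2, if_neg y3, if_neg y4]
        ring)
      Av iv jv hv1
      (fun u1 e1 e2 e3 => by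
        have hu1 : u1 = u := by
          rcases mj u1 e1 with e | e | e
          · exact e
          · rw [e, iu'] at e3
            exact absurd e3 one_ne_zero
          · rw [e, jw'] at e2
            exact absurd e2 zero_ne_one
        rw [hu1]
        rcases hφ with rfl | rfl <;> rcases hFu with e | e <;> simp only [e] <;> norm_num)
    have gu := cu u Au ju iu
    -- third points
    have T : ∀ m p q r, A m p = 1 → A m q = 1 → A m r = 1 → B i p = 1 → B j p = 0 → B j q = 1 → B i q = 0 →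
        B l r = 1 → φ * F r = 1 := by
      intro m p q r mp mq mr ip jp jq iq lr
      obtain ⟨y, hym, hyr⟩ : ∃ y, y ≠ m ∧ A y r = 1 := by
        obtain ⟨r1, r2, r3, h12, h13, h23, e1, e2, e3, -, -⟩ := col3 h r
        by_cases e : r1 = m
        · exact ⟨r2, fun e' => h12 (e.trans e'.symm), e2⟩
        · exact ⟨r1, e, e1⟩
      by_cases hy : y = i ∨ ∀ z, A y z = 1 → B i z = 1 → B j z = 1
      · exact cr y r hyr lr hy
      exfalso
      push Not at hy
      obtain ⟨hyi, p', yp', ip', jp'⟩ := hy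
      have jp'0 := (h.B_zero_one j p').resolve_right jp'
      obtain ⟨q', yq', jq', iq'⟩ := opp h hk hyi yp' ip' jp'0
      have hyj := nej y p' yp' ip' jp'0
      have hmi := nei m q mq jq iq
      have hmj := nej m p mp ip jp
      have lrp : ∀ z, B i z = 1 → z ≠ r := by
        rintro z hz rfl
        have := di z lr
        omega
      have lrq : ∀ z, B j z = 1 → z ≠ r := by
        rintro z hz rfl
        have := dj z lr
        omega
      have hpp : p ≠ p' := by
        rintro rfl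
        exact h4 m y p r hym.symm (lrp p ip) mp mr yp' hyr
      have hqq : q ≠ q' := by
        rintro rfl
        exact h4 m y q r hym.symm (lrq q jq) mq mr yq' hyr
      by_cases hc : p ≠ v ∨ q' ≠ u
      · obtain ⟨t, tp, tq⟩ := J p q' ip jp jq' iq' hc
        have hty : y ≠ t := dP y t p' p hpp.symm hyi yp' tp ip' ip
        have htm : t ≠ m := (dQ m t q q' hqq hmj mq tq jq jq').symm
        have hpq : q' ≠ p := by
          rintro rfl
          omega
        exact no_hexagon h hk h4 (i := m) (j := y) (k := t) (x := r) (y := q') (z := p) hym.symm hty htm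
          (lrq q' jq').symm hpq (lrp p ip) mr hyr yq' tq tp mp
      · push Not at hc
        obtain ⟨hpv, -⟩ := hc
        obtain ⟨t, tp, tq⟩ := J p' q ip' jp'0 jq iq (Or.inl fun e => hpp (hpv.trans e.symm))
        have hty : y ≠ t := (dQ t y q q' hqq (nej t p' tp ip' jp'0) tq yq' jq jq').symm
        have htm : t ≠ m := dP t m p' p hpp.symm (nei t q tq jq iq) tp mp ip' ip
        have hpq : p' ≠ q := by
          rintro rfl
          omega
        exact no_hexagon h hk h4 (i := m) (j := y) (k := t) (x := r) (y := p') (z := q) hym.symm hty htm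
          (lrp p' ip').symm hpq (lrq q jq) mr hyr yp' tp tq mq
    have third_pt : ∀ m p q, A m p = 1 → A m q = 1 → B i p = 1 → B j p = 0 → B j q = 1 → B i q = 0 →
        φ * F p + φ * F q + 1 = φ * ∑ z, A m z * F z := by
      intro m p q mp mq ip jp jq iq
      have hpq : p ≠ q := by
        rintro rfl
        omega
      obtain ⟨r, -, -, mr, -, hr⟩ := rowt h hpq mp mq
      have hml := nel m p mp ip jp
      have hrow := row_rel h hk m l
      have lp : B l p = 0 := (h.B_zero_one l p).resolve_right fun e => by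
        have := di p e
        omega
      have lq : B l q = 0 := (h.B_zero_one l q).resolve_right fun e => by
        have := dj q e
        omega
      rw [hr, if_neg hml, lp, lq] at hrow
      have hT := T m p q r mp mq mr ip jp jq iq (by omega)
      rw [hr, mul_add, mul_add, hT]
    have t1 := third_pt a1 v q1 a1v a1q iv jv jq1 iq1
    have t2 := third_pt b1 p1 u b1p b1u ip1 jp1 ju iu
    have t3 := third_pt c11 p1 q1 c11p c11q ip1 jp1 jq1 iq1
    have k1 : a1 ≠ c11 := dP _ _ _ _ p1v.symm a1i a1v c11p iv ip1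
    have k2 : a1 ≠ c22 := dP _ _ _ _ p2v.symm a1i a1v c22p iv ip2
    have k3 : a1 ≠ c12 := dP _ _ _ _ p1v.symm a1i a1v c12p iv ip1
    have k4 : a1 ≠ c21 := dP _ _ _ _ p2v.symm a1i a1v c21p iv ip2
    have k5 : b1 ≠ c11 := dQ _ _ _ _ q1u.symm b1j b1u c11q ju jq1
    have k6 : b1 ≠ c22 := dQ _ _ _ _ q2u.symm b1j b1u c22q ju jq2
    have k7 : b1 ≠ c12 := dQ _ _ _ _ q2u.symm b1j b1u c12q ju jq2
    have k8 : b1 ≠ c21 := dQ _ _ _ _ q1u.symm b1j b1u c21q ju jq1
    have k9 : c11 ≠ c22 := dP _ _ _ _ hp12 c11i c11p c22p ip1 ip2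
    have k10 : c11 ≠ c12 := dQ _ _ _ _ hq12 c11j c11q c12q jq1 jq2
    have k11 : c11 ≠ c21 := dP _ _ _ _ hp12 c11i c11p c21p ip1 ip2
    rw [FS, if_neg k1, if_neg k2, if_neg k3, if_neg k4] at t1
    rw [FS, if_neg k5, if_neg k6, if_neg k7, if_neg k8] at t2
    rw [FS, if_pos rfl, if_neg k9, if_neg k10, if_neg k11] at t3
    rcases hφ with rfl | rfl <;> omega
  rcases hFv with e | e
  · exact key 1 (Or.inl rfl) (by rw [e]; norm_num)
  · exact key (-1) (Or.inr rfl) (by rw [e]; norm_num)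

end Pool.Agent.MP_a127ec_co
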