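import Pool.Agent.Lib.MP_a127ec_co.Graph

/-!
# Gluing two cubic Lehman pairs along a 4-cycle
-/

open Finset Matrix

namespace Pool.Agent.MP_a127ec_co

/-- Cubic Lehman pairs with `k = 1` on arbitrary index types. -/
structure LP (R C : Type) [Fintype R] [Fintype C] [DecidableEq R] (s : ℤ) (A B : R → C → ℤ) :
    Prop where
  A01 : ∀ i j, A i j = 0 ∨ A i j = 1
  B01 : ∀ i j, B i j = 0 ∨ B i j = 1
  Arow : ∀ i, ∑ j, A i j = 3
  Acol : ∀ j, ∑ i, A i j = 3
  Brow : ∀ i, ∑ j, B i j = s
  Bcol : ∀ j, ∑ i, B i j = s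
  rel : ∀ i j, ∑ x, A i x * B j x = if i = j then 2 else 1
  cardR : (Fintype.card R : ℤ) = 3 * s - 1
  cardC : (Fintype.card C : ℤ) = 3 * s - 1

theorem LP.of_lehman {n s : ℕ} {A B : Matrix (Fin n) (Fin n) ℤ} (h : IsLehmanPair n 3 s A B)
    (hk : (3 : ℤ) * s - n = 1) : LP (Fin n) (Fin n) s A B where
  A01 := h.A_zero_one
  B01 := h.B_zero_one
  Arow := fun i => by rw [h.A_row i]; norm_num
  Acol := fun i => by rw [h.A_col i]; norm_num
  Brow := h.B_row
  Bcol := h.B_col
  rel := row_rel h hk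
  cardR := by rw [Fintype.card_fin]; linarith
  cardC := by rw [Fintype.card_fin]; linarith

section

variable {R C R' C' : Type} [Fintype R] [Fintype C] [DecidableEq R] [Fintype R'] [Fintype C']
  [DecidableEq R'] {s : ℤ} {A B : R → C → ℤ}

theorem LP.reindex (h : LP R C s A B) (e : R' ≃ R) (f : C' ≃ C) :
    LP R' C' s (fun i j => A (e i) (f j)) (fun i j => B (e i) (f j)) where
  A01 := fun i j => h.A01 _ _
  B01 := fun i j => h.B01 _ _
  Arow := fun i => by rw [← h.Arow (e i)]; exact Equiv.sum_comp f (fun j => A (e i) j)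
  Acol := fun j => by rw [← h.Acol (f j)]; exact Equiv.sum_comp e (fun i => A i (f j))
  Brow := fun i => by rw [← h.Brow (e i)]; exact Equiv.sum_comp f (fun j => B (e i) j)
  Bcol := fun j => by rw [← h.Bcol (f j)]; exact Equiv.sum_comp e (fun i => B i (f j))
  rel := fun i j => by
    have h1 := h.rel (e i) (e j)
    rw [← Equiv.sum_comp f] at h1
    rw [h1]
    by_cases hij : i = j
    · rw [if_pos hij, if_pos (congrArg e hij)]
    · rw [if_neg hij, if_neg (fun h2 => hij (e.injective h2))]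
  cardR := by rw [Fintype.card_congr e]; exact h.cardR
  cardC := by rw [Fintype.card_congr f]; exact h.cardC

theorem LP.to_lehman {n t : ℕ} {A B : Fin n → Fin n → ℤ} (h : LP (Fin n) (Fin n) t A B)
    (ht : 1 ≤ t) : IsLehmanPair n 3 t (Matrix.of A) (Matrix.of B) ∧ (3 : ℤ) * t - n = 1 := by
  have hn : (n : ℤ) = 3 * t - 1 := by
    have := h.cardR
    rwa [Fintype.card_fin] at this
  have hk : (3 : ℤ) * t - n = 1 := by linarith
  refine ⟨⟨by omega, by norm_num, ht, h.A01, h.B01, ?_, ?_, h.Brow, h.Bcol, ?_, ?_⟩, hk⟩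
  · intro i; simpa using h.Arow i
  · intro i; simpa using h.Acol i
  · push_cast; linarith
  · intro i j
    rw [Matrix.mul_apply]
    push_cast
    rw [hk]
    have := h.rel i j
    simp only [Matrix.transpose_apply, Matrix.of_apply]
    rw [this]
    split_ifs <;> norm_num

theorem LP.rel' [DecidableEq C] (h : LP R C s A B) (x y : C) :
    ∑ i, A i x * B i y = if x = y then 2 else 1 := by
  have hs : 1 ≤ s := by
    have h1 := h.cardR
    have h2 : (0 : ℤ) ≤ Fintype.card R := by positivity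
    omega
  obtain ⟨t, ht⟩ : ∃ t : ℕ, s = t := ⟨s.toNat, by omega⟩
  subst ht
  have hcard : Fintype.card R = Fintype.card C := by
    have h1 := h.cardR
    rw [← h.cardC] at h1
    exact_mod_cast h1
  let e : Fin (Fintype.card R) ≃ R := (Fintype.equivFin R).symm
  let f : Fin (Fintype.card R) ≃ C := (Fintype.equivFinOfCardEq hcard.symm).symm
  have h1 := h.reindex e f
  obtain ⟨h2, h3⟩ := h1.to_lehman (by exact_mod_cast hs)
  have h4 := col_rel h2 h3 (f.symm x) (f.symm y)
  simp only [Matrix.of_apply, Equiv.apply_symm_apply] at h4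
  have h5 := Equiv.sum_comp e (fun i => A i x * B i y)
  rw [← h5, h4]
  by_cases hxy : x = y
  · rw [if_pos hxy, if_pos (congrArg _ hxy)]
  · rw [if_neg hxy, if_neg (fun h6 => hxy (f.symm.injective h6))]

/-- Exactly one column of every row of `A` is missing in `B`. -/
theorem LP.miss_unique (h : LP R C s A B) {u : R} {x y : C} (hx : A u x = 1) (hx' : B u x = 0)
    (hy : A u y = 1) (hy' : B u y = 0) : x = y := by
  classical
  by_contra hne
  have h1 : ∑ c, A u c * (1 - B u c) = 1 := by
    have h2 := h.Arow u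
    have h3 := h.rel u u
    rw [if_pos rfl] at h3
    simp only [mul_sub, mul_one, Finset.sum_sub_distrib]
    linarith
  have h4 : ∀ c, 0 ≤ A u c * (1 - B u c) := by
    intro c
    rcases h.A01 u c with h5 | h5 <;> rcases h.B01 u c with h6 | h6 <;> rw [h5, h6] <;> norm_num
  have h5 : ∑ c ∈ ({x, y} : Finset C), A u c * (1 - B u c) ≤ ∑ c, A u c * (1 - B u c) :=
    Finset.sum_le_sum_of_subset_of_nonneg (Finset.subset_univ _) (fun c _ _ => h4 c)
  rw [Finset.sum_pair hne, h1, hx, hx', hy, hy'] at h5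
  norm_num at h5

/-- The alignment of the two rows and columns of a 4-cycle. -/
theorem LP.align (h : LP R C s A B) {u w : R} {x y : C} (huw : u ≠ w) (hxy : x ≠ y)
    (hux : A u x = 1) (huy : A u y = 1) (hwx : A w x = 1) (hwy : A w y = 1) :
    (B u x = 0 ∧ B u y = 1 ∧ B w x = 1 ∧ B w y = 0) ∨
      (B u x = 1 ∧ B u y = 0 ∧ B w x = 0 ∧ B w y = 1) := by
  classical
  -- two columns of the row `p` of `A`, code `q`
  have row_le : ∀ p q : R, A p x = 1 → A p y = 1 → p ≠ q → B q x + B q y ≤ 1 := by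
    intro p q h1 h2 h3
    have h4 := h.rel p q
    rw [if_neg h3] at h4
    have h5 : ∑ c ∈ ({x, y} : Finset C), A p c * B q c ≤ ∑ c, A p c * B q c :=
      Finset.sum_le_sum_of_subset_of_nonneg (Finset.subset_univ _) (fun c _ _ => by
        rcases h.A01 p c with h5 | h5 <;> rcases h.B01 q c with h6 | h6 <;> rw [h5, h6] <;>
          norm_num)
    rw [Finset.sum_pair hxy, h4, h1, h2] at h5
    linarith
  have col_le : ∀ c d : C, A u c = 1 → A w c = 1 → c ≠ d → B u d + B w d ≤ 1 := by
    intro c d h1 h2 h3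
    have h4 := h.rel' c d
    rw [if_neg h3] at h4
    have h5 : ∑ i ∈ ({u, w} : Finset R), A i c * B i d ≤ ∑ i, A i c * B i d :=
      Finset.sum_le_sum_of_subset_of_nonneg (Finset.subset_univ _) (fun i _ _ => by
        rcases h.A01 i c with h5 | h5 <;> rcases h.B01 i d with h6 | h6 <;> rw [h5, h6] <;>
          norm_num)
    rw [Finset.sum_pair huw, h4, h1, h2] at h5
    linarith
  have r1 := row_le u w hux huy huw
  have r2 := row_le w u hwx hwy huw.symm
  have c1 := col_le x y hux hwx hxy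
  have c2 := col_le y x huy hwy hxy.symm
  -- at most one missing column in each row
  have m1 : ¬ (B u x = 0 ∧ B u y = 0) := fun hh => hxy (h.miss_unique hux hh.1 huy hh.2)
  have m2 : ¬ (B w x = 0 ∧ B w y = 0) := fun hh => hxy (h.miss_unique hwx hh.1 hwy hh.2)
  have a1 := h.B01 u x
  have a2 := h.B01 u y
  have a3 := h.B01 w x
  have a4 := h.B01 w y
  omega

end

end Pool.Agent.MP_a127ec_co
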