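import Pool.Agent.Lib.MP_a127ec_co.Glue1

/-!
# Gluing two cubic Lehman pairs along a 4-cycle: the glued pair
-/

open Finset Matrix

namespace Pool.Agent.MP_a127ec_co

/-- The two rows `inl 0`, `inl 1` and the two columns `inl 0`, `inl 1` form a 4-cycle, the row
`inl a` of `B` misses the column `inl a`. -/
structure Nrm {H K : Type} (A B : Fin 2 ⊕ H → Fin 2 ⊕ K → ℤ) : Prop where
  A1 : ∀ a b, A (Sum.inl a) (Sum.inl b) = 1
  B1 : ∀ a b, B (Sum.inl a) (Sum.inl b) = if a = b then 0 else 1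

section facts

variable {H K : Type} [Fintype H] [Fintype K] [DecidableEq H] {s : ℤ}
  {A B : Fin 2 ⊕ H → Fin 2 ⊕ K → ℤ}

theorem sumA (h : LP (Fin 2 ⊕ H) (Fin 2 ⊕ K) s A B) (n : Nrm A B) (a : Fin 2) :
    ∑ k, A (Sum.inl a) (Sum.inr k) = 1 := by
  have h1 := h.Arow (Sum.inl a)
  rw [Fintype.sum_sum_type, Fin.sum_univ_two, n.A1, n.A1] at h1
  linarith

theorem sumA' (h : LP (Fin 2 ⊕ H) (Fin 2 ⊕ K) s A B) (i : H) :
    ∑ k, A (Sum.inr i) (Sum.inr k) = 3 - A (Sum.inr i) (Sum.inl 0) - A (Sum.inr i) (Sum.inl 1) := by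
  have h1 := h.Arow (Sum.inr i)
  rw [Fintype.sum_sum_type, Fin.sum_univ_two] at h1
  linarith

theorem colA (h : LP (Fin 2 ⊕ H) (Fin 2 ⊕ K) s A B) (n : Nrm A B) (b : Fin 2) :
    ∑ i, A (Sum.inr i) (Sum.inl b) = 1 := by
  have h1 := h.Acol (Sum.inl b)
  rw [Fintype.sum_sum_type, Fin.sum_univ_two, n.A1, n.A1] at h1
  linarith

theorem colA' (h : LP (Fin 2 ⊕ H) (Fin 2 ⊕ K) s A B) (k : K) :
    ∑ i, A (Sum.inr i) (Sum.inr k) = 3 - A (Sum.inl 0) (Sum.inr k) - A (Sum.inl 1) (Sum.inr k) := by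
  have h1 := h.Acol (Sum.inr k)
  rw [Fintype.sum_sum_type, Fin.sum_univ_two] at h1
  linarith

theorem rowB (h : LP (Fin 2 ⊕ H) (Fin 2 ⊕ K) s A B) (n : Nrm A B) (a : Fin 2) :
    ∑ k, B (Sum.inl a) (Sum.inr k) = s - 1 := by
  have h1 := h.Brow (Sum.inl a)
  rw [Fintype.sum_sum_type, Fin.sum_univ_two, n.B1, n.B1] at h1
  fin_cases a <;> simp at h1 ⊢ <;> linarith

theorem rowB' (h : LP (Fin 2 ⊕ H) (Fin 2 ⊕ K) s A B) (i : H) :
    ∑ k, B (Sum.inr i) (Sum.inr k) = s - B (Sum.inr i) (Sum.inl 0) - B (Sum.inr i) (Sum.inl 1) := by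
  have h1 := h.Brow (Sum.inr i)
  rw [Fintype.sum_sum_type, Fin.sum_univ_two] at h1
  linarith

theorem colB (h : LP (Fin 2 ⊕ H) (Fin 2 ⊕ K) s A B) (n : Nrm A B) (b : Fin 2) :
    ∑ i, B (Sum.inr i) (Sum.inl b) = s - 1 := by
  have h1 := h.Bcol (Sum.inl b)
  rw [Fintype.sum_sum_type, Fin.sum_univ_two, n.B1, n.B1] at h1
  fin_cases b <;> simp at h1 ⊢ <;> linarith

theorem colB' (h : LP (Fin 2 ⊕ H) (Fin 2 ⊕ K) s A B) (k : K) :
    ∑ i, B (Sum.inr i) (Sum.inr k) = s - B (Sum.inl 0) (Sum.inr k) - B (Sum.inl 1) (Sum.inr k) := by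
  have h1 := h.Bcol (Sum.inr k)
  rw [Fintype.sum_sum_type, Fin.sum_univ_two] at h1
  linarith

theorem rel00 (h : LP (Fin 2 ⊕ H) (Fin 2 ⊕ K) s A B) (n : Nrm A B) (a b : Fin 2) :
    ∑ k, A (Sum.inl a) (Sum.inr k) * B (Sum.inl b) (Sum.inr k) = if a = b then 1 else 0 := by
  have h1 := h.rel (Sum.inl a) (Sum.inl b)
  rw [Fintype.sum_sum_type, Fin.sum_univ_two, n.B1, n.B1, n.A1, n.A1] at h1
  fin_cases a <;> fin_cases b <;> simp at h1 ⊢ <;> linarith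

theorem rel01 (h : LP (Fin 2 ⊕ H) (Fin 2 ⊕ K) s A B) (n : Nrm A B) (a : Fin 2) (i : H) :
    ∑ k, A (Sum.inl a) (Sum.inr k) * B (Sum.inr i) (Sum.inr k) =
      1 - B (Sum.inr i) (Sum.inl 0) - B (Sum.inr i) (Sum.inl 1) := by
  have h1 := h.rel (Sum.inl a) (Sum.inr i)
  rw [Fintype.sum_sum_type, Fin.sum_univ_two, n.A1, n.A1, if_neg (by simp)] at h1
  linarith

theorem rel10 (h : LP (Fin 2 ⊕ H) (Fin 2 ⊕ K) s A B) (n : Nrm A B) (i : H) (b : Fin 2) :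
    ∑ k, A (Sum.inr i) (Sum.inr k) * B (Sum.inl b) (Sum.inr k) =
      1 - A (Sum.inr i) (Sum.inl (1 - b)) := by
  have h1 := h.rel (Sum.inr i) (Sum.inl b)
  rw [Fintype.sum_sum_type, Fin.sum_univ_two, n.B1, n.B1] at h1
  fin_cases b <;> simp at h1 ⊢ <;> linarith

theorem rel11 (h : LP (Fin 2 ⊕ H) (Fin 2 ⊕ K) s A B) (i j : H) :
    ∑ k, A (Sum.inr i) (Sum.inr k) * B (Sum.inr j) (Sum.inr k) =
      (if i = j then 2 else 1) - A (Sum.inr i) (Sum.inl 0) * B (Sum.inr j) (Sum.inl 0) -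
        A (Sum.inr i) (Sum.inl 1) * B (Sum.inr j) (Sum.inl 1) := by
  have h1 := h.rel (Sum.inr i) (Sum.inr j)
  rw [Fintype.sum_sum_type, Fin.sum_univ_two] at h1
  simp only [Sum.inr.injEq] at h1
  linarith

theorem cardH (h : LP (Fin 2 ⊕ H) (Fin 2 ⊕ K) s A B) : (Fintype.card H : ℤ) = 3 * s - 3 := by
  have h1 := h.cardR
  rw [Fintype.card_sum, Fintype.card_fin] at h1
  push_cast at h1
  linarith

theorem cardK (h : LP (Fin 2 ⊕ H) (Fin 2 ⊕ K) s A B) : (Fintype.card K : ℤ) = 3 * s - 3 := by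
  have h1 := h.cardC
  rw [Fintype.card_sum, Fintype.card_fin] at h1
  push_cast at h1
  linarith

theorem pq (h : LP (Fin 2 ⊕ H) (Fin 2 ⊕ K) s A B) (n : Nrm A B) (i : H) :
    B (Sum.inr i) (Sum.inl 0) + B (Sum.inr i) (Sum.inl 1) ≤ 1 := by
  have h1 := rel01 h n 0 i
  have h2 : 0 ≤ ∑ k, A (Sum.inl 0) (Sum.inr k) * B (Sum.inr i) (Sum.inr k) :=
    Finset.sum_nonneg (fun k _ => by
      rcases h.A01 (Sum.inl 0) (Sum.inr k) with h5 | h5 <;>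
        rcases h.B01 (Sum.inr i) (Sum.inr k) with h6 | h6 <;> rw [h5, h6] <;> norm_num)
  linarith

theorem bb (h : LP (Fin 2 ⊕ H) (Fin 2 ⊕ K) s A B) (n : Nrm A B) (k : K) :
    B (Sum.inl 0) (Sum.inr k) + B (Sum.inl 1) (Sum.inr k) ≤ 1 := by
  classical
  have h1 := h.rel' (Sum.inl 0) (Sum.inr k)
  rw [Fintype.sum_sum_type, Fin.sum_univ_two, n.A1, n.A1, if_neg (by simp)] at h1
  have h2 : 0 ≤ ∑ i, A (Sum.inr i) (Sum.inl 0) * B (Sum.inr i) (Sum.inr k) :=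
    Finset.sum_nonneg (fun i _ => by
      rcases h.A01 (Sum.inr i) (Sum.inl 0) with h5 | h5 <;>
        rcases h.B01 (Sum.inr i) (Sum.inr k) with h6 | h6 <;> rw [h5, h6] <;> norm_num)
  linarith

end facts

/-- The entry of the glued matrix `B` in a mixed block. -/
def mix (p q b0 b1 : ℤ) : ℤ := p * b1 + q * b0 + (1 - p - q) * (1 - b0 - b1)

theorem mix01 {p q b0 b1 : ℤ} (hp : p = 0 ∨ p = 1) (hq : q = 0 ∨ q = 1) (h0 : b0 = 0 ∨ b0 = 1)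
    (h1 : b1 = 0 ∨ b1 = 1) (hpq : p + q ≤ 1) (hb : b0 + b1 ≤ 1) :
    mix p q b0 b1 = 0 ∨ mix p q b0 b1 = 1 := by
  unfold mix
  rcases hp with rfl | rfl <;> rcases hq with rfl | rfl <;> rcases h0 with rfl | rfl <;>
    rcases h1 with rfl | rfl <;> omega

theorem sum_mul_mix {K : Type} [Fintype K] (f b0 b1 : K → ℤ) (p q : ℤ) :
    ∑ k, f k * mix p q (b0 k) (b1 k) = p * ∑ k, f k * b1 k + q * ∑ k, f k * b0 k +
      (1 - p - q) * (∑ k, f k - ∑ k, f k * b0 k - ∑ k, f k * b1 k) := by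
  unfold mix
  simp only [Finset.mul_sum, ← Finset.sum_add_distrib, ← Finset.sum_sub_distrib]
  refine Finset.sum_congr rfl fun k _ => ?_
  ring

theorem sum_mix_row {K : Type} [Fintype K] (b0 b1 : K → ℤ) (p q : ℤ) :
    ∑ k, mix p q (b0 k) (b1 k) = p * ∑ k, b1 k + q * ∑ k, b0 k +
      (1 - p - q) * (Fintype.card K - ∑ k, b0 k - ∑ k, b1 k) := by
  have h := sum_mul_mix (fun _ : K => (1 : ℤ)) b0 b1 p q
  simp only [one_mul, Finset.sum_const, Finset.card_univ, nsmul_eq_mul, mul_one] at h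
  exact h

theorem sum_mix_col {K : Type} [Fintype K] (p q : K → ℤ) (b0 b1 : ℤ) :
    ∑ k, mix (p k) (q k) b0 b1 = b1 * ∑ k, p k + b0 * ∑ k, q k +
      (1 - b0 - b1) * (Fintype.card K - ∑ k, p k - ∑ k, q k) := by
  have h : ∀ k, mix (p k) (q k) b0 b1 = mix b1 b0 (q k) (p k) := fun k => by
    unfold mix; ring
  simp only [h]
  rw [sum_mix_row]
  ring

section glue

variable {H₁ K₁ H₂ K₂ : Type}

/-- The glued matrix `A`. -/
def gA (A₁ : Fin 2 ⊕ H₁ → Fin 2 ⊕ K₁ → ℤ) (A₂ : Fin 2 ⊕ H₂ → Fin 2 ⊕ K₂ → ℤ) :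
    Fin 2 ⊕ (H₁ ⊕ H₂) → Fin 2 ⊕ (K₁ ⊕ K₂) → ℤ
  | Sum.inl a, Sum.inl b => if a = b then 1 else 0
  | Sum.inl a, Sum.inr (Sum.inl k) => A₁ (Sum.inl a) (Sum.inr k)
  | Sum.inl a, Sum.inr (Sum.inr k) => A₂ (Sum.inl a) (Sum.inr k)
  | Sum.inr (Sum.inl i), Sum.inl b => A₁ (Sum.inr i) (Sum.inl b)
  | Sum.inr (Sum.inr i), Sum.inl b => A₂ (Sum.inr i) (Sum.inl b)
  | Sum.inr (Sum.inl i), Sum.inr (Sum.inl k) => A₁ (Sum.inr i) (Sum.inr k)
  | Sum.inr (Sum.inl _), Sum.inr (Sum.inr _) => 0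
  | Sum.inr (Sum.inr _), Sum.inr (Sum.inl _) => 0
  | Sum.inr (Sum.inr i), Sum.inr (Sum.inr k) => A₂ (Sum.inr i) (Sum.inr k)

/-- The glued matrix `B`. -/
def gB (B₁ : Fin 2 ⊕ H₁ → Fin 2 ⊕ K₁ → ℤ) (B₂ : Fin 2 ⊕ H₂ → Fin 2 ⊕ K₂ → ℤ) :
    Fin 2 ⊕ (H₁ ⊕ H₂) → Fin 2 ⊕ (K₁ ⊕ K₂) → ℤ
  | Sum.inl a, Sum.inl b => if a = b then 0 else 1
  | Sum.inl a, Sum.inr (Sum.inl k) => B₁ (Sum.inl a) (Sum.inr k)
  | Sum.inl a, Sum.inr (Sum.inr k) => B₂ (Sum.inl a) (Sum.inr k)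
  | Sum.inr (Sum.inl i), Sum.inl b => B₁ (Sum.inr i) (Sum.inl b)
  | Sum.inr (Sum.inr i), Sum.inl b => B₂ (Sum.inr i) (Sum.inl b)
  | Sum.inr (Sum.inl i), Sum.inr (Sum.inl k) => B₁ (Sum.inr i) (Sum.inr k)
  | Sum.inr (Sum.inl i), Sum.inr (Sum.inr k) =>
      mix (B₁ (Sum.inr i) (Sum.inl 0)) (B₁ (Sum.inr i) (Sum.inl 1))
        (B₂ (Sum.inl 0) (Sum.inr k)) (B₂ (Sum.inl 1) (Sum.inr k))
  | Sum.inr (Sum.inr i), Sum.inr (Sum.inl k) =>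
      mix (B₂ (Sum.inr i) (Sum.inl 0)) (B₂ (Sum.inr i) (Sum.inl 1))
        (B₁ (Sum.inl 0) (Sum.inr k)) (B₁ (Sum.inl 1) (Sum.inr k))
  | Sum.inr (Sum.inr i), Sum.inr (Sum.inr k) => B₂ (Sum.inr i) (Sum.inr k)

variable [Fintype H₁] [Fintype K₁] [DecidableEq H₁] [Fintype H₂] [Fintype K₂] [DecidableEq H₂]
  {s₁ s₂ : ℤ} {A₁ B₁ : Fin 2 ⊕ H₁ → Fin 2 ⊕ K₁ → ℤ} {A₂ B₂ : Fin 2 ⊕ H₂ → Fin 2 ⊕ K₂ → ℤ}

/-- The glued pair is a cubic Lehman pair with `k = 1`. -/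
theorem glue (h₁ : LP _ _ s₁ A₁ B₁) (n₁ : Nrm A₁ B₁) (h₂ : LP _ _ s₂ A₂ B₂) (n₂ : Nrm A₂ B₂) :
    LP (Fin 2 ⊕ (H₁ ⊕ H₂)) (Fin 2 ⊕ (K₁ ⊕ K₂)) (s₁ + s₂ - 1) (gA A₁ A₂) (gB B₁ B₂) where
  A01 := by
    rintro (a | i | i) (b | k | k) <;> simp only [gA]
    · split_ifs <;> simp
    · exact h₁.A01 _ _
    · exact h₂.A01 _ _
    · exact h₁.A01 _ _
    · exact h₁.A01 _ _
    · simp
    · exact h₂.A01 _ _
    · simp
    · exact h₂.A01 _ _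
  B01 := by
    rintro (a | i | i) (b | k | k) <;> simp only [gB]
    · split_ifs <;> simp
    · exact h₁.B01 _ _
    · exact h₂.B01 _ _
    · exact h₁.B01 _ _
    · exact h₁.B01 _ _
    · exact mix01 (h₁.B01 _ _) (h₁.B01 _ _) (h₂.B01 _ _) (h₂.B01 _ _) (pq h₁ n₁ i) (bb h₂ n₂ k)
    · exact h₂.B01 _ _
    · exact mix01 (h₂.B01 _ _) (h₂.B01 _ _) (h₁.B01 _ _) (h₁.B01 _ _) (pq h₂ n₂ i) (bb h₁ n₁ k)
    · exact h₂.B01 _ _
  Arow := by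
    rintro (a | i | i) <;> simp only [Fintype.sum_sum_type, gA]
    · rw [sumA h₁ n₁, sumA h₂ n₂]
      simp
    · rw [sumA' h₁, Fin.sum_univ_two]
      simp only [Finset.sum_const_zero]
      ring
    · rw [sumA' h₂, Fin.sum_univ_two]
      simp only [Finset.sum_const_zero]
      ring
  Acol := by
    rintro (b | k | k) <;> simp only [Fintype.sum_sum_type, gA]
    · rw [colA h₁ n₁, colA h₂ n₂]
      simp
    · rw [colA' h₁, Fin.sum_univ_two]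
      simp only [Finset.sum_const_zero]
      ring
    · rw [colA' h₂, Fin.sum_univ_two]
      simp only [Finset.sum_const_zero]
      ring
  Brow := by
    rintro (a | i | i) <;> simp only [Fintype.sum_sum_type, gB]
    · rw [rowB h₁ n₁, rowB h₂ n₂, Fin.sum_univ_two]
      fin_cases a <;> simp <;> ring
    · rw [rowB' h₁, Fin.sum_univ_two, sum_mix_row, rowB h₂ n₂, rowB h₂ n₂, cardK h₂]
      ring
    · rw [rowB' h₂, Fin.sum_univ_two, sum_mix_row, rowB h₁ n₁, rowB h₁ n₁, cardK h₁]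
      ring
  Bcol := by
    rintro (b | k | k) <;> simp only [Fintype.sum_sum_type, gB]
    · rw [colB h₁ n₁, colB h₂ n₂, Fin.sum_univ_two]
      fin_cases b <;> simp <;> ring
    · rw [colB' h₁, Fin.sum_univ_two, sum_mix_col, colB h₂ n₂, colB h₂ n₂, cardH h₂]
      ring
    · rw [colB' h₂, Fin.sum_univ_two, sum_mix_col, colB h₁ n₁, colB h₁ n₁, cardH h₁]
      ring
  rel := by
    rintro (a | i | i) (b | j | j) <;> simp only [Fintype.sum_sum_type, gA, gB]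
    · rw [rel00 h₁ n₁, rel00 h₂ n₂, Fin.sum_univ_two]
      fin_cases a <;> fin_cases b <;> simp
    · rw [rel01 h₁ n₁, sum_mul_mix, rel00 h₂ n₂, rel00 h₂ n₂, sumA h₂ n₂, Fin.sum_univ_two]
      fin_cases a <;> simp <;> ring
    · rw [rel01 h₂ n₂, sum_mul_mix, rel00 h₁ n₁, rel00 h₁ n₁, sumA h₁ n₁, Fin.sum_univ_two]
      fin_cases a <;> simp <;> ring
    · rw [rel10 h₁ n₁, Fin.sum_univ_two]
      fin_cases b <;> simp
    · rw [rel11 h₁, Fin.sum_univ_two]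
      simp only [zero_mul, Finset.sum_const_zero, Sum.inr.injEq, Sum.inl.injEq]
      ring
    · rw [sum_mul_mix, rel10 h₁ n₁, rel10 h₁ n₁, sumA' h₁, Fin.sum_univ_two]
      simp
      ring
    · rw [rel10 h₂ n₂, Fin.sum_univ_two]
      fin_cases b <;> simp
    · rw [sum_mul_mix, rel10 h₂ n₂, rel10 h₂ n₂, sumA' h₂, Fin.sum_univ_two]
      simp
      ring
    · rw [rel11 h₂, Fin.sum_univ_two]
      simp only [zero_mul, Finset.sum_const_zero, Sum.inr.injEq]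
      ring
  cardR := by
    rw [Fintype.card_sum, Fintype.card_sum, Fintype.card_fin]
    push_cast
    rw [cardH h₁, cardH h₂]
    ring
  cardC := by
    rw [Fintype.card_sum, Fintype.card_sum, Fintype.card_fin]
    push_cast
    rw [cardK h₁, cardK h₂]
    ring

end glue

end Pool.Agent.MP_a127ec_co
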