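import Pool.Agent.Lib.MP_a127ec_co.Glue2

/-!
# Gluing two cubic Lehman pairs along a 4-cycle: the number of 4-cycles
-/

open Finset Matrix

namespace Pool.Agent.MP_a127ec_co

/-- Two different rows with two common columns. -/
def Sh {R C : Type} (A : R → C → ℤ) (u w : R) : Prop :=
  u ≠ w ∧ ∃ c d, c ≠ d ∧ A u c = 1 ∧ A u d = 1 ∧ A w c = 1 ∧ A w d = 1

theorem Sh.symm {R C : Type} {A : R → C → ℤ} {u w : R} (h : Sh A u w) : Sh A w u := by
  obtain ⟨h1, c, d, h2, h3, h4, h5, h6⟩ := h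
  exact ⟨h1.symm, c, d, h2, h5, h6, h3, h4⟩

theorem Sh.comm {R C : Type} {A : R → C → ℤ} {u w : R} : Sh A u w ↔ Sh A w u :=
  ⟨Sh.symm, Sh.symm⟩

open Classical in
/-- The number of ordered pairs of different rows with two common columns. -/
noncomputable def cnt {R C : Type} [Fintype R] (A : R → C → ℤ) : ℕ :=
  ∑ u, ∑ w, if Sh A u w then 1 else 0

theorem sh_reindex {R C R' C' : Type} (A : R → C → ℤ) (e : R' ≃ R) (f : C' ≃ C) (u w : R') :
    Sh (fun i j => A (e i) (f j)) u w ↔ Sh A (e u) (e w) := by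
  constructor
  · rintro ⟨h1, c, d, h2, h3⟩
    exact ⟨fun h => h1 (e.injective h), f c, f d, fun h => h2 (f.injective h), h3⟩
  · rintro ⟨h1, c, d, h2, h3⟩
    refine ⟨fun h => h1 (congrArg e h), f.symm c, f.symm d, fun h => h2 (f.symm.injective h), ?_⟩
    simpa using h3

theorem cnt_reindex {R C R' C' : Type} [Fintype R] [Fintype R'] (A : R → C → ℤ) (e : R' ≃ R)
    (f : C' ≃ C) : cnt (fun i j => A (e i) (f j)) = cnt A := by
  classical
  unfold cnt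
  rw [← Equiv.sum_comp e]
  refine Finset.sum_congr rfl fun u _ => ?_
  rw [← Equiv.sum_comp e]
  refine Finset.sum_congr rfl fun w _ => ?_
  simp only [sh_reindex]

theorem fin_two_ne : ∀ a b : Fin 2, b ≠ a → (b = 0 ∧ a = 1) ∨ (b = 1 ∧ a = 0) := by
  decide

section facts

variable {H K : Type} [Fintype H] [Fintype K] [DecidableEq H] {s : ℤ}
  {A B : Fin 2 ⊕ H → Fin 2 ⊕ K → ℤ}

/-- No other row contains both columns of the 4-cycle. -/
theorem no_third (h : LP (Fin 2 ⊕ H) (Fin 2 ⊕ K) s A B) (n : Nrm A B) (i : H)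
    (h0 : A (Sum.inr i) (Sum.inl 0) = 1) (h1 : A (Sum.inr i) (Sum.inl 1) = 1) : False := by
  classical
  have key : ∀ x y : Fin 2, x ≠ y → A (Sum.inr i) (Sum.inl x) = 1 →
      B (Sum.inr i) (Sum.inl y) = 0 := by
    intro x y hxy hx
    have h2 := h.rel' (Sum.inl x) (Sum.inl y)
    rw [Fintype.sum_sum_type, if_neg (fun h3 => hxy (Sum.inl.inj h3))] at h2
    have h3 : ∑ a : Fin 2, A (Sum.inl a) (Sum.inl x) * B (Sum.inl a) (Sum.inl y) = 1 := by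
      rw [Fin.sum_univ_two, n.A1, n.A1, n.B1, n.B1]
      fin_cases y <;> simp
    rw [h3] at h2
    have h4 : A (Sum.inr i) (Sum.inl x) * B (Sum.inr i) (Sum.inl y) ≤
        ∑ j, A (Sum.inr j) (Sum.inl x) * B (Sum.inr j) (Sum.inl y) :=
      Finset.single_le_sum (f := fun j => A (Sum.inr j) (Sum.inl x) * B (Sum.inr j) (Sum.inl y))
        (fun j _ => by
          rcases h.A01 (Sum.inr j) (Sum.inl x) with h5 | h5 <;>
            rcases h.B01 (Sum.inr j) (Sum.inl y) with h6 | h6 <;> simp [h5, h6]) (mem_univ i)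
    rw [hx, one_mul] at h4
    rcases h.B01 (Sum.inr i) (Sum.inl y) with h6 | h6
    · exact h6
    · rw [h6] at h4
      linarith
  have h2 := h.miss_unique h0 (key 1 0 (by decide) h1) h1 (key 0 1 (by decide) h0)
  exact absurd (Sum.inl.inj h2) (by decide)

/-- A common column of the rows `inl a` and `inr j` is not `inl b`, `b ≠ a`. -/
theorem common_col (h : LP (Fin 2 ⊕ H) (Fin 2 ⊕ K) s A B) (n : Nrm A B) {a b : Fin 2} {j : H}
    {d : Fin 2 ⊕ K} (hab : b ≠ a) (hd : d ≠ Sum.inl b) (h1 : A (Sum.inl a) d = 1)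
    (h2 : A (Sum.inr j) (Sum.inl b) = 1) (h3 : A (Sum.inr j) d = 1) : False := by
  have h4 := h.align (u := Sum.inl a) (w := Sum.inr j) (x := Sum.inl b) (y := d) (by simp)
    hd.symm (n.A1 a b) h1 h2 h3
  rw [n.B1, if_neg hab.symm] at h4
  rcases h4 with h4 | h4
  · exact absurd h4.1 (by norm_num)
  · have h5 := h.miss_unique (n.A1 a a) (by rw [n.B1, if_pos rfl]) h1 h4.2.1
    rw [← h5] at h3
    rcases fin_two_ne a b hab with ⟨rfl, rfl⟩ | ⟨rfl, rfl⟩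
    · exact no_third h n j h2 h3
    · exact no_third h n j h3 h2

/-- The two rows of the 4-cycle have no third common column. -/
theorem no_common (h : LP (Fin 2 ⊕ H) (Fin 2 ⊕ K) s A B) (n : Nrm A B) (k : K)
    (h0 : A (Sum.inl 0) (Sum.inr k) = 1) (h1 : A (Sum.inl 1) (Sum.inr k) = 1) : False := by
  have h2 := h.align (u := Sum.inl 0) (w := Sum.inl 1) (x := Sum.inl 0) (y := Sum.inr k) (by simp)
    (by simp) (n.A1 0 0) h0 (n.A1 1 0) h1
  have h3 := h.align (u := Sum.inl 0) (w := Sum.inl 1) (x := Sum.inl 1) (y := Sum.inr k) (by simp)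
    (by simp) (n.A1 0 1) h0 (n.A1 1 1) h1
  rw [n.B1, n.B1] at h2 h3
  simp at h2 h3
  omega

end facts

section glue

variable {H₁ K₁ H₂ K₂ : Type} [Fintype H₁] [Fintype K₁] [DecidableEq H₁] [Fintype H₂] [Fintype K₂]
  [DecidableEq H₂] {s₁ s₂ : ℤ} {A₁ B₁ : Fin 2 ⊕ H₁ → Fin 2 ⊕ K₁ → ℤ}
  {A₂ B₂ : Fin 2 ⊕ H₂ → Fin 2 ⊕ K₂ → ℤ}

theorem sh_ll (h₁ : LP _ _ s₁ A₁ B₁) (n₁ : Nrm A₁ B₁) (h₂ : LP _ _ s₂ A₂ B₂) (n₂ : Nrm A₂ B₂)
    (a b : Fin 2) : ¬ Sh (gA A₁ A₂) (Sum.inl a) (Sum.inl b) := by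
  have key : ∀ c, gA A₁ A₂ (Sum.inl 0) c = 1 → gA A₁ A₂ (Sum.inl 1) c = 1 → False := by
    rintro (b | k | k) h1 h2
    · simp only [gA] at h1 h2
      fin_cases b <;> simp at h1 h2
    · exact no_common h₁ n₁ k h1 h2
    · exact no_common h₂ n₂ k h1 h2
  rintro ⟨h1, c, d, -, h3, -, h5, -⟩
  have h6 : (a = 0 ∧ b = 1) ∨ (a = 1 ∧ b = 0) := by
    have h7 : a ≠ b := fun h8 => h1 (congrArg _ h8)
    revert h7
    clear h1 h3 h5
    revert a b
    decide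
  rcases h6 with ⟨rfl, rfl⟩ | ⟨rfl, rfl⟩
  · exact key c h3 h5
  · exact key c h5 h3

omit [Fintype H₁] [Fintype K₁] [DecidableEq H₁] [Fintype H₂] [Fintype K₂] [DecidableEq H₂] in
theorem sh_r1 (i j : H₁) :
    Sh (gA A₁ A₂) (Sum.inr (Sum.inl i)) (Sum.inr (Sum.inl j)) ↔ Sh A₁ (Sum.inr i) (Sum.inr j) := by
  constructor
  · rintro ⟨h1, c, d, h2, h3, h4, h5, h6⟩
    refine ⟨fun h => h1 (by rw [Sum.inr.inj h]), ?_⟩
    rcases c with c | c | c
    · rcases d with d | d | d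
      · exact ⟨Sum.inl c, Sum.inl d, fun h => h2 (by rw [Sum.inl.inj h]), h3, h4, h5, h6⟩
      · exact ⟨Sum.inl c, Sum.inr d, by simp, h3, h4, h5, h6⟩
      · exact absurd h4 (by simp [gA])
    · rcases d with d | d | d
      · exact ⟨Sum.inr c, Sum.inl d, by simp, h3, h4, h5, h6⟩
      · exact ⟨Sum.inr c, Sum.inr d, fun h => h2 (by rw [Sum.inr.inj h]), h3, h4, h5, h6⟩
      · exact absurd h4 (by simp [gA])
    · exact absurd h3 (by simp [gA])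
  · rintro ⟨h1, c, d, h2, h3, h4, h5, h6⟩
    refine ⟨fun h => h1 (by rw [Sum.inl.inj (Sum.inr.inj h)]), ?_⟩
    rcases c with c | c <;> rcases d with d | d
    · exact ⟨Sum.inl c, Sum.inl d, fun h => h2 (by rw [Sum.inl.inj h]), h3, h4, h5, h6⟩
    · exact ⟨Sum.inl c, Sum.inr (Sum.inl d), by simp, h3, h4, h5, h6⟩
    · exact ⟨Sum.inr (Sum.inl c), Sum.inl d, by simp, h3, h4, h5, h6⟩
    · exact ⟨Sum.inr (Sum.inl c), Sum.inr (Sum.inl d),
        fun h => h2 (by rw [Sum.inl.inj (Sum.inr.inj h)]), h3, h4, h5, h6⟩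

omit [Fintype H₁] [Fintype K₁] [DecidableEq H₁] [Fintype H₂] [Fintype K₂] [DecidableEq H₂] in
theorem sh_r2 (i j : H₂) :
    Sh (gA A₁ A₂) (Sum.inr (Sum.inr i)) (Sum.inr (Sum.inr j)) ↔ Sh A₂ (Sum.inr i) (Sum.inr j) := by
  constructor
  · rintro ⟨h1, c, d, h2, h3, h4, h5, h6⟩
    refine ⟨fun h => h1 (by rw [Sum.inr.inj h]), ?_⟩
    rcases c with c | c | c
    · rcases d with d | d | d
      · exact ⟨Sum.inl c, Sum.inl d, fun h => h2 (by rw [Sum.inl.inj h]), h3, h4, h5, h6⟩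
      · exact absurd h4 (by simp [gA])
      · exact ⟨Sum.inl c, Sum.inr d, by simp, h3, h4, h5, h6⟩
    · exact absurd h3 (by simp [gA])
    · rcases d with d | d | d
      · exact ⟨Sum.inr c, Sum.inl d, by simp, h3, h4, h5, h6⟩
      · exact absurd h4 (by simp [gA])
      · exact ⟨Sum.inr c, Sum.inr d, fun h => h2 (by rw [Sum.inr.inj h]), h3, h4, h5, h6⟩
  · rintro ⟨h1, c, d, h2, h3, h4, h5, h6⟩
    refine ⟨fun h => h1 (by rw [Sum.inr.inj (Sum.inr.inj h)]), ?_⟩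
    rcases c with c | c <;> rcases d with d | d
    · exact ⟨Sum.inl c, Sum.inl d, fun h => h2 (by rw [Sum.inl.inj h]), h3, h4, h5, h6⟩
    · exact ⟨Sum.inl c, Sum.inr (Sum.inr d), by simp, h3, h4, h5, h6⟩
    · exact ⟨Sum.inr (Sum.inr c), Sum.inl d, by simp, h3, h4, h5, h6⟩
    · exact ⟨Sum.inr (Sum.inr c), Sum.inr (Sum.inr d),
        fun h => h2 (by rw [Sum.inr.inj (Sum.inr.inj h)]), h3, h4, h5, h6⟩

omit [Fintype H₂] [Fintype K₂] [DecidableEq H₂] in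
theorem sh_l1 (h₁ : LP _ _ s₁ A₁ B₁) (n₁ : Nrm A₁ B₁) (a : Fin 2) (j : H₁) :
    Sh (gA A₁ A₂) (Sum.inl a) (Sum.inr (Sum.inl j)) ↔ Sh A₁ (Sum.inl a) (Sum.inr j) := by
  have hA : ∀ b, gA A₁ A₂ (Sum.inl a) (Sum.inl b) = 1 → A₁ (Sum.inl a) (Sum.inl b) = 1 :=
    fun b _ => n₁.A1 a b
  constructor
  · rintro ⟨h1, c, d, h2, h3, h4, h5, h6⟩
    refine ⟨by simp, ?_⟩
    rcases c with c | c | c
    · rcases d with d | d | d
      · exact ⟨Sum.inl c, Sum.inl d, fun h => h2 (by rw [Sum.inl.inj h]), hA _ h3, hA _ h4, h5, h6⟩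
      · exact ⟨Sum.inl c, Sum.inr d, by simp, hA _ h3, h4, h5, h6⟩
      · exact absurd h6 (by simp [gA])
    · rcases d with d | d | d
      · exact ⟨Sum.inr c, Sum.inl d, by simp, h3, hA _ h4, h5, h6⟩
      · exact ⟨Sum.inr c, Sum.inr d, fun h => h2 (by rw [Sum.inr.inj h]), h3, h4, h5, h6⟩
      · exact absurd h6 (by simp [gA])
    · exact absurd h5 (by simp [gA])
  · rintro ⟨h1, c, d, h2, h3, h4, h5, h6⟩
    refine ⟨by simp, ?_⟩
    have hB : ∀ b (e : Fin 2 ⊕ K₁), e ≠ Sum.inl b → A₁ (Sum.inl a) e = 1 →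
        A₁ (Sum.inr j) (Sum.inl b) = 1 → A₁ (Sum.inr j) e = 1 →
        gA A₁ A₂ (Sum.inl a) (Sum.inl b) = 1 := by
      intro b e g1 g2 g3 g4
      show (if a = b then (1 : ℤ) else 0) = 1
      by_cases hab : a = b
      · rw [if_pos hab]
      · exact (common_col h₁ n₁ (Ne.symm hab) g1 g2 g3 g4).elim
    rcases c with c | c <;> rcases d with d | d
    · exact ⟨Sum.inl c, Sum.inl d, fun h => h2 (by rw [Sum.inl.inj h]),
        hB c _ h2.symm h4 h5 h6, hB d _ h2 h3 h6 h5, h5, h6⟩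
    · exact ⟨Sum.inl c, Sum.inr (Sum.inl d), by simp, hB c _ h2.symm h4 h5 h6, h4, h5, h6⟩
    · exact ⟨Sum.inr (Sum.inl c), Sum.inl d, by simp, h3, hB d _ h2 h3 h6 h5, h5, h6⟩
    · exact ⟨Sum.inr (Sum.inl c), Sum.inr (Sum.inl d),
        fun h => h2 (by rw [Sum.inl.inj (Sum.inr.inj h)]), h3, h4, h5, h6⟩

omit [Fintype H₁] [Fintype K₁] [DecidableEq H₁] in
theorem sh_l2 (h₂ : LP _ _ s₂ A₂ B₂) (n₂ : Nrm A₂ B₂) (a : Fin 2) (j : H₂) :
    Sh (gA A₁ A₂) (Sum.inl a) (Sum.inr (Sum.inr j)) ↔ Sh A₂ (Sum.inl a) (Sum.inr j) := by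
  have hA : ∀ b, gA A₁ A₂ (Sum.inl a) (Sum.inl b) = 1 → A₂ (Sum.inl a) (Sum.inl b) = 1 :=
    fun b _ => n₂.A1 a b
  constructor
  · rintro ⟨h1, c, d, h2, h3, h4, h5, h6⟩
    refine ⟨by simp, ?_⟩
    rcases c with c | c | c
    · rcases d with d | d | d
      · exact ⟨Sum.inl c, Sum.inl d, fun h => h2 (by rw [Sum.inl.inj h]), hA _ h3, hA _ h4, h5, h6⟩
      · exact absurd h6 (by simp [gA])
      · exact ⟨Sum.inl c, Sum.inr d, by simp, hA _ h3, h4, h5, h6⟩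
    · exact absurd h5 (by simp [gA])
    · rcases d with d | d | d
      · exact ⟨Sum.inr c, Sum.inl d, by simp, h3, hA _ h4, h5, h6⟩
      · exact absurd h6 (by simp [gA])
      · exact ⟨Sum.inr c, Sum.inr d, fun h => h2 (by rw [Sum.inr.inj h]), h3, h4, h5, h6⟩
  · rintro ⟨h1, c, d, h2, h3, h4, h5, h6⟩
    refine ⟨by simp, ?_⟩
    have hB : ∀ b (e : Fin 2 ⊕ K₂), e ≠ Sum.inl b → A₂ (Sum.inl a) e = 1 →
        A₂ (Sum.inr j) (Sum.inl b) = 1 → A₂ (Sum.inr j) e = 1 →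
        gA A₁ A₂ (Sum.inl a) (Sum.inl b) = 1 := by
      intro b e g1 g2 g3 g4
      show (if a = b then (1 : ℤ) else 0) = 1
      by_cases hab : a = b
      · rw [if_pos hab]
      · exact (common_col h₂ n₂ (Ne.symm hab) g1 g2 g3 g4).elim
    rcases c with c | c <;> rcases d with d | d
    · exact ⟨Sum.inl c, Sum.inl d, fun h => h2 (by rw [Sum.inl.inj h]),
        hB c _ h2.symm h4 h5 h6, hB d _ h2 h3 h6 h5, h5, h6⟩
    · exact ⟨Sum.inl c, Sum.inr (Sum.inr d), by simp, hB c _ h2.symm h4 h5 h6, h4, h5, h6⟩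
    · exact ⟨Sum.inr (Sum.inr c), Sum.inl d, by simp, h3, hB d _ h2 h3 h6 h5, h5, h6⟩
    · exact ⟨Sum.inr (Sum.inr c), Sum.inr (Sum.inr d),
        fun h => h2 (by rw [Sum.inr.inj (Sum.inr.inj h)]), h3, h4, h5, h6⟩

omit [Fintype H₂] [Fintype K₂] [DecidableEq H₂] in
theorem sh_rr (h₁ : LP _ _ s₁ A₁ B₁) (n₁ : Nrm A₁ B₁) (i : H₁) (j : H₂) :
    ¬ Sh (gA A₁ A₂) (Sum.inr (Sum.inl i)) (Sum.inr (Sum.inr j)) := by
  rintro ⟨-, c, d, h2, h3, h4, h5, h6⟩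
  rcases c with c | c | c
  · rcases d with d | d | d
    · have h7 : (c = 0 ∧ d = 1) ∨ (c = 1 ∧ d = 0) := by
        have h8 : c ≠ d := fun h8 => h2 (congrArg _ h8)
        revert h8
        clear h2 h3 h4 h5 h6
        revert c d
        decide
      rcases h7 with ⟨rfl, rfl⟩ | ⟨rfl, rfl⟩
      · exact no_third h₁ n₁ i h3 h4
      · exact no_third h₁ n₁ i h4 h3
    · exact absurd h6 (by simp [gA])
    · exact absurd h4 (by simp [gA])
  · exact absurd h5 (by simp [gA])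
  · exact absurd h3 (by simp [gA])

theorem sh_base {H K : Type} {A B : Fin 2 ⊕ H → Fin 2 ⊕ K → ℤ} (n : Nrm A B) (a b : Fin 2) :
    Sh A (Sum.inl a) (Sum.inl b) ↔ a ≠ b := by
  constructor
  · rintro ⟨h1, -⟩ h2
    exact h1 (congrArg _ h2)
  · intro h
    exact ⟨fun h2 => h (Sum.inl.inj h2), Sum.inl 0, Sum.inl 1, by simp, n.A1 _ _, n.A1 _ _,
      n.A1 _ _, n.A1 _ _⟩

theorem cnt_split {H K : Type} [Fintype H] {A B : Fin 2 ⊕ H → Fin 2 ⊕ K → ℤ} (n : Nrm A B) :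
    cnt A = 2 + 2 * (∑ a : Fin 2, ∑ j : H, @ite ℕ (Sh A (Sum.inl a) (Sum.inr j))
      (Classical.propDecidable _) 1 0) +
      ∑ i : H, ∑ j : H, @ite ℕ (Sh A (Sum.inr i) (Sum.inr j)) (Classical.propDecidable _) 1 0 := by
  classical
  unfold cnt
  simp only [Fintype.sum_sum_type, Finset.sum_add_distrib, sh_base n]
  have h1 : ∑ a : Fin 2, ∑ b : Fin 2, (if a ≠ b then 1 else 0) = 2 := by decide
  have h2 : ∑ i : H, ∑ a : Fin 2, (if Sh A (Sum.inr i) (Sum.inl a) then 1 else 0) =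
      ∑ a : Fin 2, ∑ j : H, if Sh A (Sum.inl a) (Sum.inr j) then 1 else 0 := by
    rw [Finset.sum_comm]
    simp only [Sh.comm (A := A) (u := Sum.inr _) (w := Sum.inl _)]
  rw [h1, h2]
  ring

/-- The number of ordered pairs of rows with two common columns in the glued pair. -/
theorem cnt_glue (h₁ : LP _ _ s₁ A₁ B₁) (n₁ : Nrm A₁ B₁) (h₂ : LP _ _ s₂ A₂ B₂) (n₂ : Nrm A₂ B₂) :
    cnt (gA A₁ A₂) + 4 = cnt A₁ + cnt A₂ := by
  classical
  rw [cnt_split n₁, cnt_split n₂]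
  unfold cnt
  simp only [Fintype.sum_sum_type, Finset.sum_add_distrib]
  have r0 : ∀ a b, ¬ Sh (gA A₁ A₂) (Sum.inl a) (Sum.inl b) := sh_ll h₁ n₁ h₂ n₂
  have r1 : ∀ i j, ¬ Sh (gA A₁ A₂) (Sum.inr (Sum.inl i)) (Sum.inr (Sum.inr j)) := sh_rr h₁ n₁
  have r2 : ∀ i j, ¬ Sh (gA A₁ A₂) (Sum.inr (Sum.inr i)) (Sum.inr (Sum.inl j)) :=
    fun i j h => sh_rr h₁ n₁ j i h.symm
  simp only [sh_r1, sh_r2, sh_l1 h₁ n₁, sh_l2 h₂ n₂, r0, r1, r2, if_false, Finset.sum_const_zero,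
    Sh.comm (A := gA A₁ A₂) (u := Sum.inr _) (w := Sum.inl _)]
  have h3 : ∑ i : H₁, ∑ a : Fin 2, (if Sh A₁ (Sum.inl a) (Sum.inr i) then 1 else 0) =
      ∑ a : Fin 2, ∑ j : H₁, if Sh A₁ (Sum.inl a) (Sum.inr j) then 1 else 0 := Finset.sum_comm
  have h4 : ∑ i : H₂, ∑ a : Fin 2, (if Sh A₂ (Sum.inl a) (Sum.inr i) then 1 else 0) =
      ∑ a : Fin 2, ∑ j : H₂, if Sh A₂ (Sum.inl a) (Sum.inr j) then 1 else 0 := Finset.sum_comm
  rw [h3, h4]
  ring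

end glue

end Pool.Agent.MP_a127ec_co
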