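import Pool.Agent.Lib.MP_a127ec_co.Glue3

/-!
# Gluing two cubic Lehman pairs along a 4-cycle: conclusion
-/

open Finset Matrix

namespace Pool.Agent.MP_a127ec_co

/-- The number of 4-cycles of the row/column graph of `A`: rows `i < j` and columns `x < y` such
that both rows are joined to both columns. -/
noncomputable def fourCycles {n : ℕ} (A : Matrix (Fin n) (Fin n) ℤ) : ℕ :=
  Nat.card {q : (Fin n × Fin n) × (Fin n × Fin n) // q.1.1 < q.1.2 ∧ q.2.1 < q.2.2 ∧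
    A q.1.1 q.2.1 = 1 ∧ A q.1.1 q.2.2 = 1 ∧ A q.1.2 q.2.1 = 1 ∧ A q.1.2 q.2.2 = 1}

/-- There is a cubic Lehman graph with `k = 1`, of type `(n, 3, s)`, with exactly `c` 4-cycles. -/
def HasLehman (n s c : ℕ) : Prop :=
  ∃ A B : Matrix (Fin n) (Fin n) ℤ, IsLehmanPair n 3 s A B ∧ (3 : ℤ) * s - n = 1 ∧
    fourCycles A = c

open Classical in
theorem four_eq_pairs {n : ℕ} {s : ℤ} {A B : Matrix (Fin n) (Fin n) ℤ}
    (h : LP (Fin n) (Fin n) s A B) : fourCycles A = (univ.filter fun p : Fin n × Fin n =>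
      p.1 < p.2 ∧ Sh (R := Fin n) (C := Fin n) A p.1 p.2).card := by
  unfold fourCycles
  rw [Nat.card_eq_fintype_card, Fintype.card_subtype]
  refine Finset.card_bij (fun q _ => q.1) ?_ ?_ ?_
  · intro q hq
    simp only [mem_filter, mem_univ, true_and] at hq ⊢
    obtain ⟨g1, g2, g3, g4, g5, g6⟩ := hq
    exact ⟨g1, g1.ne, q.2.1, q.2.2, g2.ne, g3, g4, g5, g6⟩
  · rintro ⟨⟨i, j⟩, ⟨x, y⟩⟩ hq ⟨⟨i', j'⟩, ⟨x', y'⟩⟩ hq' hpq
    simp only [mem_filter, mem_univ, true_and, Prod.mk.injEq] at hq hq' hpq ⊢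
    obtain ⟨rfl, rfl⟩ := hpq
    obtain ⟨g1, g2, g3, g4, g5, g6⟩ := hq
    obtain ⟨-, k2, k3, k4, k5, k6⟩ := hq'
    refine ⟨⟨rfl, rfl⟩, ?_⟩
    have a1 := h.align g1.ne g2.ne g3 g4 g5 g6
    have a2 := h.align g1.ne k2.ne k3 k4 k5 k6
    rcases a1 with a1 | a1 <;> rcases a2 with a2 | a2
    · exact ⟨h.miss_unique g3 a1.1 k3 a2.1, h.miss_unique g6 a1.2.2.2 k6 a2.2.2.2⟩
    · have e1 := h.miss_unique g3 a1.1 k4 a2.2.1
      have e2 := h.miss_unique g6 a1.2.2.2 k5 a2.2.2.1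
      rw [e1, e2] at g2
      exact absurd g2 (not_lt.2 k2.le)
    · have e1 := h.miss_unique g4 a1.2.1 k3 a2.1
      have e2 := h.miss_unique g5 a1.2.2.1 k6 a2.2.2.2
      rw [e1, e2] at g2
      exact absurd g2 (not_lt.2 k2.le)
    · exact ⟨h.miss_unique g5 a1.2.2.1 k5 a2.2.2.1, h.miss_unique g4 a1.2.1 k4 a2.2.1⟩
  · rintro ⟨i, j⟩ hp
    simp only [mem_filter, mem_univ, true_and] at hp
    obtain ⟨g1, -, c, d, g2, g3, g4, g5, g6⟩ := hp
    rcases lt_or_gt_of_ne g2 with g | g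
    · exact ⟨((i, j), (c, d)), by
        simp only [mem_filter, mem_univ, true_and]; exact ⟨g1, g, g3, g4, g5, g6⟩, rfl⟩
    · exact ⟨((i, j), (d, c)), by
        simp only [mem_filter, mem_univ, true_and]; exact ⟨g1, g, g4, g3, g6, g5⟩, rfl⟩

theorem cnt_eq_four {n : ℕ} {s : ℤ} {A B : Matrix (Fin n) (Fin n) ℤ}
    (h : LP (Fin n) (Fin n) s A B) : cnt (R := Fin n) (C := Fin n) A = 2 * fourCycles A := by
  classical
  have h1 : cnt (R := Fin n) (C := Fin n) A =
      (univ.filter fun p : Fin n × Fin n => Sh (R := Fin n) (C := Fin n) A p.1 p.2).card := by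
    unfold cnt
    rw [Finset.card_filter, Fintype.sum_prod_type]
  have h2 : (univ.filter fun p : Fin n × Fin n => Sh (R := Fin n) (C := Fin n) A p.1 p.2) =
      (univ.filter fun p : Fin n × Fin n => p.1 < p.2 ∧ Sh (R := Fin n) (C := Fin n) A p.1 p.2) ∪
      (univ.filter fun p : Fin n × Fin n => p.2 < p.1 ∧ Sh (R := Fin n) (C := Fin n) A p.1 p.2) := by
    ext p
    simp only [mem_filter, mem_univ, true_and, mem_union]
    constructor
    · intro h3
      rcases lt_or_gt_of_ne h3.1 with h4 | h4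
      · exact Or.inl ⟨h4, h3⟩
      · exact Or.inr ⟨h4, h3⟩
    · rintro (h3 | h3)
      · exact h3.2
      · exact h3.2
  have h3 : (univ.filter fun p : Fin n × Fin n => p.2 < p.1 ∧
      Sh (R := Fin n) (C := Fin n) A p.1 p.2).card =
      (univ.filter fun p : Fin n × Fin n => p.1 < p.2 ∧
        Sh (R := Fin n) (C := Fin n) A p.1 p.2).card := by
    refine Finset.card_bij (fun p _ => (p.2, p.1)) ?_ ?_ ?_
    · intro p hp
      simp only [mem_filter, mem_univ, true_and] at hp ⊢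
      exact ⟨hp.1, hp.2.symm⟩
    · intro p _ q _ hpq
      simp only [Prod.mk.injEq] at hpq
      exact Prod.ext hpq.2 hpq.1
    · intro p hp
      simp only [mem_filter, mem_univ, true_and] at hp
      exact ⟨(p.2, p.1), by simp only [mem_filter, mem_univ, true_and]; exact ⟨hp.1, hp.2.symm⟩, rfl⟩
  have h4 := four_eq_pairs h
  rw [h1, h2, Finset.card_union_of_disjoint, h3, ← h4]
  · ring
  · rw [Finset.disjoint_left]
    intro p hp hp'
    simp only [mem_filter, mem_univ, true_and] at hp hp'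
    exact absurd hp.1 (not_lt.2 hp'.1.le)

/-- Two given different elements as the first two. -/
theorem exists_equiv {n : ℕ} (hn : 2 ≤ n) {i j : Fin n} (hij : i ≠ j) :
    ∃ e : Fin 2 ⊕ Fin (n - 2) ≃ Fin n, e (Sum.inl 0) = i ∧ e (Sum.inl 1) = j := by
  have e0 : Fin 2 ⊕ Fin (n - 2) ≃ Fin n := finSumFinEquiv.trans (finCongr (by omega))
  let e1 := e0.trans (Equiv.swap (e0 (Sum.inl 0)) i)
  have h1 : e1 (Sum.inl 0) = i := Equiv.swap_apply_left _ _
  let e2 := e1.trans (Equiv.swap (e1 (Sum.inl 1)) j)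
  refine ⟨e2, ?_, Equiv.swap_apply_left _ _⟩
  show Equiv.swap (e1 (Sum.inl 1)) j (e1 (Sum.inl 0)) = i
  rw [h1]
  refine Equiv.swap_apply_of_ne_of_ne ?_ hij
  rw [← h1]
  intro h2
  exact absurd (e1.injective h2) (by simp)

/-- A pair with a 4-cycle in normal form. -/
theorem exists_nrm {n s : ℕ} {A B : Matrix (Fin n) (Fin n) ℤ} (h : IsLehmanPair n 3 s A B)
    (hk : (3 : ℤ) * s - n = 1) (hc : fourCycles A ≠ 0) :
    ∃ A' B' : Fin 2 ⊕ Fin (n - 2) → Fin 2 ⊕ Fin (n - 2) → ℤ,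
      LP (Fin 2 ⊕ Fin (n - 2)) (Fin 2 ⊕ Fin (n - 2)) s A' B' ∧ Nrm A' B' ∧
      cnt A' = 2 * fourCycles A := by
  have hLP := LP.of_lehman h hk
  obtain ⟨i, j, x, y, hij, hxy, h1, h2, h3, h4⟩ : ∃ i j x y : Fin n, i ≠ j ∧ x ≠ y ∧ A i x = 1 ∧
      A i y = 1 ∧ A j x = 1 ∧ A j y = 1 := by
    unfold fourCycles at hc
    rw [← Nat.pos_iff_ne_zero, Nat.card_pos_iff] at hc
    obtain ⟨⟨q, g1, g2, g3⟩⟩ := hc.1
    exact ⟨q.1.1, q.1.2, q.2.1, q.2.2, g1.ne, g2.ne, g3⟩
  obtain ⟨x, y, hxy, h1, h2, h3, h4, b1, b2, b3, b4⟩ : ∃ x y : Fin n, x ≠ y ∧ A i x = 1 ∧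
      A i y = 1 ∧ A j x = 1 ∧ A j y = 1 ∧ B i x = 0 ∧ B i y = 1 ∧ B j x = 1 ∧ B j y = 0 := by
    rcases hLP.align hij hxy h1 h2 h3 h4 with g | g
    · exact ⟨x, y, hxy, h1, h2, h3, h4, g⟩
    · exact ⟨y, x, hxy.symm, h2, h1, h4, h3, g.2.1, g.1, g.2.2.2, g.2.2.1⟩
  obtain ⟨e, he0, he1⟩ := exists_equiv h.two_le hij
  obtain ⟨f, hf0, hf1⟩ := exists_equiv h.two_le hxy
  refine ⟨_, _, hLP.reindex e f, ⟨?_, ?_⟩, ?_⟩
  · intro a b
    fin_cases a <;> fin_cases b <;> simp [he0, he1, hf0, hf1, h1, h2, h3, h4]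
  · intro a b
    fin_cases a <;> fin_cases b <;> simp [he0, he1, hf0, hf1, b1, b2, b3, b4]
  · rw [cnt_reindex (R := Fin n) (C := Fin n) A e f]
    exact cnt_eq_four hLP

/-- Gluing. -/
theorem hasLehman_glue {n₁ s₁ c₁ n₂ s₂ c₂ : ℕ} (h₁ : HasLehman n₁ s₁ (c₁ + 1))
    (h₂ : HasLehman n₂ s₂ (c₂ + 1)) : HasLehman (n₁ + n₂ - 2) (s₁ + s₂ - 1) (c₁ + c₂) := by
  obtain ⟨A₁, B₁, g1, k1, e1⟩ := h₁
  obtain ⟨A₂, B₂, g2, k2, e2⟩ := h₂
  obtain ⟨A₁', B₁', l1, m1, q1⟩ := exists_nrm g1 k1 (by omega)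
  obtain ⟨A₂', B₂', l2, m2, q2⟩ := exists_nrm g2 k2 (by omega)
  have hg := glue l1 m1 l2 m2
  have hq := cnt_glue l1 m1 l2 m2
  have t1 := g1.two_le
  have t2 := g2.two_le
  have t3 := g1.s_pos
  have t4 := g2.s_pos
  have hcard : Fintype.card (Fin 2 ⊕ (Fin (n₁ - 2) ⊕ Fin (n₂ - 2))) = n₁ + n₂ - 2 := by
    simp only [Fintype.card_sum, Fintype.card_fin]
    omega
  let e : Fin (n₁ + n₂ - 2) ≃ Fin 2 ⊕ (Fin (n₁ - 2) ⊕ Fin (n₂ - 2)) :=
    (Fintype.equivFinOfCardEq hcard).symm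
  have h3 := hg.reindex e e
  have hs : ((s₁ : ℤ) + s₂ - 1) = ((s₁ + s₂ - 1 : ℕ) : ℤ) := by omega
  rw [hs] at h3
  obtain ⟨h4, h5⟩ := h3.to_lehman (by omega)
  refine ⟨_, _, h4, h5, ?_⟩
  have h6 := cnt_eq_four (LP.of_lehman h4 h5)
  have h7 := cnt_reindex (gA A₁' A₂') e e
  have h8 : cnt (R := Fin (n₁ + n₂ - 2)) (C := Fin (n₁ + n₂ - 2))
      (Matrix.of fun i j => gA A₁' A₂' (e i) (e j)) = cnt (gA A₁' A₂') := h7
  rw [h8] at h6
  rw [q1, q2, h6, e1, e2] at hq
  omega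

/-- No 4-cycles: girth at least six. -/
theorem four_eq_zero_iff {n : ℕ} (A : Matrix (Fin n) (Fin n) ℤ) :
    fourCycles A = 0 ↔ 6 ≤ (biadjGraph A).egirth := by
  constructor
  · intro h0
    have hno : NoFour A := by
      intro i j x y hij hxy h1 h2 h3 h4
      unfold fourCycles at h0
      rw [Nat.card_eq_zero] at h0
      rcases h0 with h0 | h0
      · rcases lt_or_gt_of_ne hij with g | g <;> rcases lt_or_gt_of_ne hxy with k | k
        · exact h0.false ⟨((i, j), (x, y)), g, k, h1, h2, h3, h4⟩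
        · exact h0.false ⟨((i, j), (y, x)), g, k, h2, h1, h4, h3⟩
        · exact h0.false ⟨((j, i), (x, y)), g, k, h3, h4, h1, h2⟩
        · exact h0.false ⟨((j, i), (y, x)), g, k, h4, h3, h2, h1⟩
      · exact h0.not_finite inferInstance
    rw [SimpleGraph.le_egirth]
    intro a w hc
    have h3 := hc.three_le_length
    have hev := even_cycle w
    have hne : w.length ≠ 4 := by
      intro hl
      have hinj := hc.getVert_injOn
      have hne : ∀ p q : ℕ, 1 ≤ p → p ≤ 4 → 1 ≤ q → q ≤ 4 → p ≠ q →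
          w.getVert p ≠ w.getVert q := by
        intro p q h1 h2 h3 h4 h5 h6
        exact h5 (hinj (by rw [Set.mem_ofPred_eq]; omega) (by rw [Set.mem_ofPred_eq]; omega) h6)
      have e0 : w.getVert 0 = w.getVert 4 := by
        rw [w.getVert_zero, ← hl, w.getVert_length]
      have a0 := w.adj_getVert_succ (i := 0) (by omega)
      have a1 := w.adj_getVert_succ (i := 1) (by omega)
      have a2 := w.adj_getVert_succ (i := 2) (by omega)
      have a3 := w.adj_getVert_succ (i := 3) (by omega)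
      rw [e0] at a0
      norm_num at a0 a1 a2 a3
      have n13 := hne 1 3 (by norm_num) (by norm_num) (by norm_num) (by norm_num) (by norm_num)
      have n24 := hne 2 4 (by norm_num) (by norm_num) (by norm_num) (by norm_num) (by norm_num)
      generalize w.getVert 1 = v1 at *
      generalize w.getVert 2 = v2 at *
      generalize w.getVert 3 = v3 at *
      generalize w.getVert 4 = v4 at *
      rcases v4 with i | x
      · rcases v1 with v1 | x
        · exact (adj_ll _ _ a0).elim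
        rcases v2 with j | v2
        swap
        · exact (adj_rr _ _ a1).elim
        rcases v3 with v3 | y
        · exact (adj_ll _ _ a2).elim
        simp only [adj_lr, adj_rl, ne_eq, Sum.inl.injEq, Sum.inr.injEq] at *
        exact hno i j x y (fun e => n24 e.symm) n13 a0 a3 a1 a2
      · rcases v1 with i | v1
        swap
        · exact (adj_rr _ _ a0).elim
        rcases v2 with v2 | y
        · exact (adj_ll _ _ a1).elim
        rcases v3 with j | v3
        swap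
        · exact (adj_rr _ _ a2).elim
        simp only [adj_lr, adj_rl, ne_eq, Sum.inl.injEq, Sum.inr.injEq] at *
        exact hno i j x y n13 (fun e => n24 e.symm) a0 a1 a3 a2
    have h6 : 6 ≤ w.length := by
      obtain ⟨m, hm⟩ := hev
      omega
    exact_mod_cast h6
  · intro hg
    have hno := noFour_of_girth hg
    unfold fourCycles
    rw [Nat.card_eq_zero]
    left
    constructor
    rintro ⟨q, g1, g2, g3, g4, g5, g6⟩
    exact hno _ _ _ _ g1.ne g2.ne g3 g4 g5 g6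

end Pool.Agent.MP_a127ec_co
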