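import Pool.Agent.Lib.MP_a127ec_co.Basic

open Finset Matrix

namespace Pool.Agent.MP_a127ec_co

variable {n r s : ℕ} {A B : Matrix (Fin n) (Fin n) ℤ}

/-- The row relation when `k = 1`. -/
theorem row_rel (h : IsLehmanPair n r s A B) (hk : (r : ℤ) * s - n = 1) (i j : Fin n) :
    ∑ x, A i x * B j x = if i = j then 2 else 1 := by
  have := h.mul_eq i j
  rw [Matrix.mul_apply] at this
  simp only [Matrix.transpose_apply, hk] at this
  rw [this]
  split_ifs <;> norm_num

/-- The column relation when `k = 1`. -/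
theorem col_rel (h : IsLehmanPair n r s A B) (hk : (r : ℤ) * s - n = 1) (x y : Fin n) :
    ∑ i, A i x * B i y = if x = y then 2 else 1 := by
  classical
  set J : Matrix (Fin n) (Fin n) ℚ := Matrix.of fun _ _ => 1 with hJ
  set A' : Matrix (Fin n) (Fin n) ℚ := A.map (Int.cast) with hA'
  set C : Matrix (Fin n) (Fin n) ℚ := (Bᵀ).map (Int.cast) with hC
  have h1 : A' * C = J + 1 := by
    ext i j
    have e := row_rel h hk i j
    have e2 : ((∑ x, A i x * B j x : ℤ) : ℚ) = ((if i = j then 2 else 1 : ℤ) : ℚ) := by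
      rw [e]
    push_cast at e2
    rw [Matrix.mul_apply]
    simp only [hA', hC, Matrix.map_apply, Matrix.transpose_apply, hJ, Matrix.add_apply,
      Matrix.of_apply, Matrix.one_apply]
    rw [e2]
    split_ifs <;> norm_num
  have hJA : J * A' = (r : ℚ) • J := by
    ext i j
    rw [Matrix.mul_apply]
    simp only [hJ, hA', Matrix.of_apply, Matrix.map_apply, one_mul, Matrix.smul_apply, smul_eq_mul,
      mul_one]
    have := h.A_col j
    exact_mod_cast this
  have hAJ : A' * J = (r : ℚ) • J := by
    ext i j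
    rw [Matrix.mul_apply]
    simp only [hJ, hA', Matrix.of_apply, Matrix.map_apply, Matrix.smul_apply, smul_eq_mul,
      mul_one]
    have := h.A_row i
    exact_mod_cast this
  have hJJ : J * J = (n : ℚ) • J := by
    ext i j
    rw [Matrix.mul_apply]
    simp [hJ]
  have hinv : A' * (C * (((n : ℚ) + 1) • (1 : Matrix (Fin n) (Fin n) ℚ) - J))
      = ((n : ℚ) + 1) • (1 : Matrix (Fin n) (Fin n) ℚ) := by
    rw [← Matrix.mul_assoc, h1, add_mul, Matrix.mul_sub, hJJ]
    simp only [Matrix.mul_smul, mul_one, one_mul]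
    module
  have hdet : A'.det ≠ 0 := by
    intro h0
    have := congrArg Matrix.det hinv
    rw [Matrix.det_mul, h0, zero_mul, Matrix.det_smul, Matrix.det_one, mul_one] at this
    have hp : (0 : ℚ) < ((n : ℚ) + 1) ^ Fintype.card (Fin n) := by positivity
    linarith
  have key : A' * (C * A') = A' * (J + 1) := by
    rw [← Matrix.mul_assoc, h1, add_mul, hJA, mul_add, hAJ, one_mul, mul_one]
  have hfin : C * A' = J + 1 := by
    have hu : IsUnit A'.det := isUnit_iff_ne_zero.mpr hdet
    calc C * A' = A'⁻¹ * A' * (C * A') := by rw [Matrix.nonsing_inv_mul _ hu, one_mul]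
      _ = A'⁻¹ * (A' * (C * A')) := by rw [Matrix.mul_assoc]
      _ = A'⁻¹ * (A' * (J + 1)) := by rw [key]
      _ = A'⁻¹ * A' * (J + 1) := by rw [Matrix.mul_assoc]
      _ = J + 1 := by rw [Matrix.nonsing_inv_mul _ hu, one_mul]
  have e := congrFun (congrFun hfin y) x
  rw [Matrix.mul_apply] at e
  simp only [hA', hC, Matrix.map_apply, Matrix.transpose_apply, hJ, Matrix.add_apply,
      Matrix.of_apply, Matrix.one_apply] at e
  have e3 : ((∑ i, A i x * B i y : ℤ) : ℚ) = ((if x = y then 2 else 1 : ℤ) : ℚ) := by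
    push_cast
    rw [← Finset.sum_congr rfl (fun i _ => mul_comm _ _)] at e
    rw [e]
    by_cases hxy : x = y
    · subst hxy; norm_num
    · rw [if_neg (fun h => hxy h.symm), if_neg hxy]; norm_num
  exact_mod_cast e3

/-- If two distinct rows `i, j` contain the column `x`, there is a third one, and sums over the
rows of `x` reduce to the three of them. -/
theorem third_row (h : IsLehmanPair n 3 s A B) {x i j : Fin n} (hij : i ≠ j)
    (hi : A i x = 1) (hj : A j x = 1) :
    ∃ k, k ≠ i ∧ k ≠ j ∧ A k x = 1 ∧ ∀ f : Fin n → ℤ, ∑ r, A r x * f r = f i + f j + f k := by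
  classical
  have hsum := h.A_col x
  set T : Finset (Fin n) := univ.filter fun r => A r x = 1 with hT
  have hAT : ∀ r, A r x = if r ∈ T then 1 else 0 := by
    intro r
    rcases h.A_zero_one r x with h0 | h1
    · rw [if_neg (by simp [hT, h0]), h0]
    · rw [if_pos (by simp [hT, h1]), h1]
  have hsumT : ∀ f : Fin n → ℤ, ∑ r, A r x * f r = ∑ r ∈ T, f r := by
    intro f
    have hstep : ∀ r ∈ (univ : Finset (Fin n)), A r x * f r = if r ∈ T then f r else 0 := by
      intro r _
      rw [hAT r]
      split_ifs <;> simp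
    rw [Finset.sum_congr rfl hstep, Finset.sum_ite_mem, Finset.univ_inter]
  have hcard : T.card = 3 := by
    have := hsumT (fun _ => 1)
    simp only [mul_one] at this
    rw [hsum] at this
    simp at this
    exact_mod_cast this.symm
  have hiT : i ∈ T := by simp [hT, hi]
  have hjT : j ∈ T := by simp [hT, hj]
  have hsub : ({i, j} : Finset (Fin n)) ⊆ T := by
    intro a ha
    simp only [mem_insert, mem_singleton] at ha
    rcases ha with rfl | rfl <;> assumption
  have hc2 : (T \ {i, j}).card = 1 := by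
    rw [card_sdiff_of_subset hsub, hcard, card_pair hij]
  obtain ⟨k, hk⟩ := card_eq_one.mp hc2
  have hkm : k ∈ T \ {i, j} := by rw [hk]; simp
  simp only [mem_sdiff, mem_insert, mem_singleton, not_or] at hkm
  refine ⟨k, hkm.2.1, hkm.2.2, ?_, ?_⟩
  · have := hkm.1
    simpa [hT] using this
  · intro f
    rw [hsumT, ← Finset.sum_sdiff hsub, hk, Finset.sum_singleton, Finset.sum_pair hij]
    ring

end Pool.Agent.MP_a127ec_co
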