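import Pool.Agent.Lib.MP_a127ec_co.Dist

open Finset Matrix

namespace Pool.Agent.MP_a127ec_co

variable {n s : ℕ} {A B : Matrix (Fin n) (Fin n) ℤ}

/-- In a cubic Lehman graph with `k = 1` without 4-cycles there is no 6-cycle. -/
theorem no_hexagon (h : IsLehmanPair n 3 s A B) (hk : (3 : ℤ) * s - n = 1) (h4 : NoFour A)
    {i j k x y z : Fin n} (hij : i ≠ j) (hjk : j ≠ k) (hki : k ≠ i)
    (hxy : x ≠ y) (_hyz : y ≠ z) (_hzx : z ≠ x)
    (hix : A i x = 1) (hjx : A j x = 1) (hjy : A j y = 1) (hky : A k y = 1)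
    (hkz : A k z = 1) (hiz : A i z = 1) : False := by
  classical
  obtain ⟨p, -, -, hpx, hp⟩ := third_row h hij hix hjx
  obtain ⟨q, -, -, hqy, hq⟩ := third_row h hjk hjy hky
  obtain ⟨r, -, -, hrz, hr⟩ := third_row h hki hkz hiz
  have hiq : i ≠ q := by
    rintro rfl
    exact h4 i j x y hij hxy hix hqy hjx hjy
  have h3 := three_le_diff h hk h4 hiq
  have hsub : diffSet B i q ⊆ {x, z} := by
    intro t ht
    simp only [diffSet, mem_filter, mem_univ, true_and] at ht
    simp only [mem_insert, mem_singleton]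
    by_contra hcon
    push Not at hcon
    have ex := col_rel h hk x t
    have ey := col_rel h hk y t
    have ez := col_rel h hk z t
    rw [hp] at ex
    rw [hq] at ey
    rw [hr] at ez
    rw [if_neg (fun e => hcon.1 e.symm)] at ex
    rw [if_neg (fun e => hcon.2 e.symm)] at ez
    have b1 := h.B_zero_one j t
    have b2 := h.B_zero_one k t
    have b3 := h.B_zero_one p t
    have b4 := h.B_zero_one r t
    obtain ⟨c1, c2⟩ := ht
    split_ifs at ey <;> omega
  have hc := Finset.card_le_card hsub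
  have hc2 : ({x, z} : Finset (Fin n)).card ≤ 2 := Finset.card_le_two
  omega

end Pool.Agent.MP_a127ec_co
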